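import Pool.Agent.Lib.HYP.Def2
import Pool.Agent.Lib.HYP.L.Tau

/-!
Module F.Dict of MP_950c68_ag (genus g). Dictionary between `L : Loc F` and the discrete valuation
ring `L.O`.

PROOF. `pi_gen`: `x ∈ L.O` is a nonunit iff `L.O.valuation x < 1` (`ValuationSubring.valuation_lt_one_iff`)
iff `x = pi * y`, `y ∈ L.O`: the maximal ideal is generated by `piO L ≠ 0`, which is irreducible because
it generates a maximal ideal of a domain (prime) and is nonzero. `exists_zpow`: every nonzero `x ∈ L.O` is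
`piO ^ n * unit`, `n : ℕ` (`n ≥ 0` as `x ∈ L.O`), so `L.O` is a discrete valuation ring
(`IsDiscreteValuationRing.ofHasUnitMulPowIrreducibleFactorization` or the principal ideal criterion).
`isUnit_two`: `L.two`, `ValuationSubring.valuation_eq_one_iff`.
`coef_iff`: `Polynomial.mem_lifts`/`Polynomial.lifts_iff_coeff_lifts`, the range of
`algebraMap L.O F` is `L.O` (subtype). A monic polynomial lifts to a monic one: the lift of a monic
polynomial along an injective map is monic (`Polynomial.Monic` via `leadingCoeff_map'` /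
`monic_of_injective`: `Polynomial.monic_of_injective`).
`reg_iff`: lift `p, a, b, c` to `L.O[X]`, `Polynomial.map_injective` (algebraMap is injective);
`natDegree_map_eq_of_injective`; conversely map to `F[X]`.
`unitAt_iff`: from an element of `IntE` take the polynomial, lift it to `E : L.O[X]`,
`mk (E.map _) = bc _ P (mk P E)` (`bc_mk`). If `e * e' = 1` with `e = bc _ P (mk P E)`,
`e' = bc _ P (mk P E')`, then `mk P E * mk P E' = 1` by `bc_injective`.
-/

set_option autoImplicit false

open Polynomial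

namespace Pool.Agent.HYP

open Pool.Agent.BSDP

variable {F : Type} [Field F] (L : Loc F)

private theorem dict_pi_lt : L.O.valuation L.pi < 1 :=
  (L.pi_gen L.pi).2 ⟨1, one_mem _, (mul_one _).symm⟩

private theorem dict_isUnit (x : L.O) : IsUnit x ↔ L.O.valuation (x : F) = 1 :=
  ValuationSubring.valuation_eq_one_iff L.O x

private theorem dict_nonunit {x : L.O} (h : ¬ IsUnit x) : ∃ y : L.O, x = piO L * y := by
  have h1 : L.O.valuation (x : F) < 1 :=
    lt_of_le_of_ne (L.O.valuation_le_one x) (fun h2 => h ((dict_isUnit L x).2 h2))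
  obtain ⟨y, hy, hxy⟩ := (L.pi_gen (x : F)).1 h1
  exact ⟨⟨y, hy⟩, Subtype.ext hxy⟩

private theorem dict_irr : Irreducible (piO L) := by
  constructor
  · intro h
    rw [dict_isUnit] at h
    exact absurd h (dict_pi_lt L).ne
  · intro a b hab
    by_contra hcon
    rw [not_or] at hcon
    obtain ⟨a', ha'⟩ := dict_nonunit L hcon.1
    obtain ⟨b', hb'⟩ := dict_nonunit L hcon.2
    have h1 : L.pi = L.pi * (a' : F) * (L.pi * (b' : F)) := by
      have h2 := congrArg (Subtype.val) hab
      rw [ha', hb'] at h2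
      exact h2
    have h3 : (1 : F) = L.pi * ((a' : F) * (b' : F)) := by
      apply mul_left_cancel₀ L.pi_ne
      linear_combination h1
    have h4 : L.O.valuation (L.pi * ((a' : F) * (b' : F))) < 1 :=
      (L.pi_gen _).2 ⟨(a' : F) * (b' : F), L.O.mul_mem _ _ a'.2 b'.2, rfl⟩
    rw [← h3, map_one] at h4
    exact lt_irrefl _ h4

theorem isDVR : IsDiscreteValuationRing L.O := by
  refine IsDiscreteValuationRing.ofHasUnitMulPowIrreducibleFactorization
    ⟨piO L, dict_irr L, fun {x} hx => ?_⟩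
  have hx0 : (x : F) ≠ 0 := fun h => hx (Subtype.ext h)
  obtain ⟨n, u, hu, hxu⟩ := L.exists_zpow (x : F) hx0
  have huO : u ∈ L.O := (ValuationSubring.valuation_le_one_iff L.O u).1 hu.le
  have hn : 0 ≤ n := by
    by_contra hn
    rw [not_le] at hn
    obtain ⟨k, hk⟩ : ∃ k : ℕ, n = -((k : ℤ) + 1) := ⟨(-n - 1).toNat, by omega⟩
    have h1 : (x : F) * L.pi ^ (k + 1) = u := by
      rw [hxu, hk, zpow_neg, ← Nat.cast_succ, zpow_natCast]
      field_simp [L.pi_ne]
    have h2 : L.O.valuation ((x : F) * L.pi ^ (k + 1)) < 1 := by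
      rw [map_mul, map_pow]
      have h3 : L.O.valuation L.pi ^ (k + 1) < 1 := pow_lt_one₀ zero_le (dict_pi_lt L) (by omega)
      calc L.O.valuation (x : F) * L.O.valuation L.pi ^ (k + 1) ≤ 1 * L.O.valuation L.pi ^ (k + 1) :=
            mul_le_mul_left (L.O.valuation_le_one x) _
        _ < 1 := by rw [one_mul]; exact h3
    rw [h1, hu] at h2
    exact lt_irrefl _ h2
  obtain ⟨k, hk⟩ := Int.eq_ofNat_of_zero_le hn
  have huu : IsUnit (⟨u, huO⟩ : L.O) := (dict_isUnit L _).2 hu
  obtain ⟨w, hw⟩ := huu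
  refine ⟨k, w, ?_⟩
  rw [hw]
  apply Subtype.ext
  rw [hxu, hk, zpow_natCast]
  rfl

theorem irreducible_piO : Irreducible (piO L) := dict_irr L

theorem maximalIdeal_eq : IsLocalRing.maximalIdeal L.O = Ideal.span {piO L} := by
  ext x
  rw [IsLocalRing.mem_maximalIdeal, Ideal.mem_span_singleton]
  constructor
  · intro h
    obtain ⟨y, hy⟩ := dict_nonunit L h
    exact ⟨y, hy⟩
  · rintro ⟨y, rfl⟩ h
    exact (dict_irr L).not_isUnit (isUnit_of_mul_isUnit_left h)

theorem isUnit_two : IsUnit (2 : L.O) := by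
  rw [dict_isUnit]
  exact L.two

private theorem dict_inj : Function.Injective (algebraMap L.O F) := Subtype.val_injective

theorem coef_iff (P : F[X]) : Coef L P ↔ ∃ P' : L.O[X], P = P'.map (algebraMap L.O F) := by
  constructor
  · intro h
    have h1 : P ∈ Polynomial.lifts (algebraMap L.O F) := by
      rw [Polynomial.lifts_iff_coeff_lifts]
      intro i
      exact ⟨⟨P.coeff i, h i⟩, rfl⟩
    obtain ⟨Q, hQ⟩ := (Polynomial.mem_lifts P).1 h1
    exact ⟨Q, hQ.symm⟩
  · rintro ⟨Q, rfl⟩ i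
    rw [Polynomial.coeff_map]
    exact (Q.coeff i).2

theorem exists_monic_lift (P : F[X]) (h : Coef L P) (hm : P.Monic) :
    ∃ P' : L.O[X], P'.Monic ∧ P'.natDegree = P.natDegree ∧ P = P'.map (algebraMap L.O F) := by
  obtain ⟨Q, rfl⟩ := (coef_iff L P).1 h
  exact ⟨Q, Polynomial.monic_of_injective (dict_inj L) hm,
    (Polynomial.natDegree_map_eq_of_injective (dict_inj L) Q).symm, rfl⟩

private theorem dict_map (p a b c : L.O[X]) :
    (C (piO L ^ 2) * a + C (piO L) * p * b + p ^ 2 * c).map (algebraMap L.O F) =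
      C (L.pi ^ 2) * a.map (algebraMap L.O F) + C L.pi * p.map (algebraMap L.O F) *
        b.map (algebraMap L.O F) + p.map (algebraMap L.O F) ^ 2 * c.map (algebraMap L.O F) := by
  simp only [Polynomial.map_add, Polynomial.map_mul, Polynomial.map_pow, Polynomial.map_C, map_pow]
  rfl

theorem reg_iff (P : L.O[X]) : Reg L (P.map (algebraMap L.O F)) ↔ RegP (piO L) P := by
  constructor
  · intro h p a b c hp h1 he
    refine h (p.map (algebraMap L.O F)) (a.map (algebraMap L.O F)) (b.map (algebraMap L.O F))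
      (c.map (algebraMap L.O F)) (hp.map _) ?_ ((coef_iff L _).2 ⟨_, rfl⟩) ((coef_iff L _).2 ⟨_, rfl⟩)
      ((coef_iff L _).2 ⟨_, rfl⟩) ((coef_iff L _).2 ⟨_, rfl⟩) ?_
    · rw [Polynomial.natDegree_map_eq_of_injective (dict_inj L)]
      exact h1
    · rw [he, dict_map]
  · intro h p a b c hp h1 cp ca cb cc he
    obtain ⟨p', hp', hd', rfl⟩ := exists_monic_lift L p cp hp
    obtain ⟨a', rfl⟩ := (coef_iff L a).1 ca
    obtain ⟨b', rfl⟩ := (coef_iff L b).1 cb
    obtain ⟨c', rfl⟩ := (coef_iff L c).1 cc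
    rw [← dict_map] at he
    exact h p' a' b' c' hp' (by rw [hd']; exact h1)
      (Polynomial.map_injective _ (dict_inj L) he)

theorem unitAt_iff (P : L.O[X]) (hP : P.Monic) (c : AdjoinRoot (P.map (algebraMap L.O F))) :
    UnitAt L c ↔ ∃ (e : AdjoinRoot P) (y : AdjoinRoot (P.map (algebraMap L.O F))),
      IsUnit e ∧ IsUnit y ∧ c = bc (algebraMap L.O F) P e * y ^ 2 := by
  constructor
  · rintro ⟨e, e', y, ⟨Q, hQ, rfl⟩, ⟨Q', hQ', rfl⟩, hee, hy, rfl⟩
    obtain ⟨E, rfl⟩ := (coef_iff L Q).1 hQ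
    obtain ⟨E', rfl⟩ := (coef_iff L Q').1 hQ'
    rw [← bc_mk, ← bc_mk] at hee
    have h1 : AdjoinRoot.mk P E * AdjoinRoot.mk P E' = 1 := by
      apply bc_injective hP (algebraMap L.O F) (dict_inj L)
      rw [map_mul, map_one]
      exact hee
    exact ⟨AdjoinRoot.mk P E, y, IsUnit.of_mul_eq_one _ h1, hy, by rw [bc_mk]⟩
  · rintro ⟨e, y, he, hy, rfl⟩
    obtain ⟨e', he'⟩ := he.exists_right_inv
    have hint : ∀ a : AdjoinRoot P, IntE L (bc (algebraMap L.O F) P a) := by
      intro a
      obtain ⟨A, rfl⟩ := AdjoinRoot.mk_surjective a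
      exact ⟨A.map (algebraMap L.O F), (coef_iff L _).2 ⟨A, rfl⟩, bc_mk _ _⟩
    exact ⟨bc (algebraMap L.O F) P e, bc (algebraMap L.O F) P e', y, hint e, hint e',
      by rw [← map_mul, he', map_one], hy, rfl⟩

end Pool.Agent.HYP
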