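import Pool.Agent.Lib.HYP.F.RegT
import Pool.Agent.Lib.HYP.F.Dict

/-!
Module F.DetA of MP_950c68_ag (genus g). If `f mod π = (x - ρ) h₀` with `h₀` irreducible of degree
`2 g ≥ 2`, then over the completion at `π` `f = (x - ξ) h` with `h` irreducible over the residue field.

PROOF. Let `ψ` be the isomorphism of `exists_resHom`, `f_O = f.map (toO)` (the ring homomorphism
`p ↦ toO hπ L p`; build it, or use `exists_monic_lift` and `coef_loc`), a monic polynomial over `L.O` with
`f_O.map (algebraMap L.O _) = (fK f).map toCompletion` and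
`f_O.map residue = (f.map (mk π)).map ψ = (X - C (ψ ρ)) * h₀.map ψ`. `h₁ = h₀.map ψ` is irreducible, monic, of
degree `2 g ≥ 2`, so it has no root (`Polynomial.degree_eq_one_of_irreducible_of_root`): `ψ ρ` is a simple
root of `f_O.map residue` (its derivative at `ψ ρ` is `h₁.eval (ψ ρ) ≠ 0`). Hensel (`L.hens.is_henselian`, in
the form with `eval`, see the use in `BSDP/R/Loc.lean`): lift `ψ ρ` to `a₀ ∈ L.O`; there is a root `ξ` of `f_O`
with `ξ - a₀` in the maximal ideal. `h = f_O /ₘ (X - C ξ)`: `f_O = (X - C ξ) * h`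
(`Polynomial.mul_divByMonic_eq_iff_isRoot`), `h` is monic (`Monic.of_mul_monic_left`) of degree `2 g`, and
`h.map residue = h₁` by cancelling `X - C (ψ ρ)`.
-/

set_option autoImplicit false

open Polynomial

namespace Pool.Agent.HYP

open Pool.Agent.BSDP

/-- the ring homomorphism `p ↦ toO hπ L p` -/
private noncomputable def detA_hom {k : Type} [Field k] {π : k[X]} (hπ : Irreducible π)
    (L : LocAt (BSDFF.placeOf π hπ)) : k[X] →+* L.O :=
  (((BSDFF.placeOf π hπ).toCompletion).comp (algebraMap k[X] (RatFunc k))).codRestrict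
    L.O.toSubring (fun p => loc_mem hπ L p)

private theorem detA_hom_apply {k : Type} [Field k] {π : k[X]} (hπ : Irreducible π)
    (L : LocAt (BSDFF.placeOf π hπ)) (p : k[X]) : detA_hom hπ L p = toO hπ L p := rfl

theorem exists_rootAt {k : Type} [Field k] {π : k[X]} (hπ : Irreducible π)
    (L : LocAt (BSDFF.placeOf π hπ)) {g : ℕ} (hg : 1 ≤ g) {f : k[X][X]} (hf : f.Monic)
    (hn : f.natDegree = 2 * g + 1) (ρ : AdjoinRoot π) (h₀ : (AdjoinRoot π)[X]) (hm : h₀.Monic)
    (hi : Irreducible h₀) (hfac : f.map (AdjoinRoot.mk π) = (X - C ρ) * h₀)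
    (ψ : AdjoinRoot π →+* IsLocalRing.ResidueField L.O) (hψ : Function.Bijective ψ)
    (hψ' : ∀ p : k[X], ψ (AdjoinRoot.mk π p) = IsLocalRing.residue L.O (toO hπ L p)) :
    ∃ (ξ : L.O) (h : L.O[X]),
      RootAt L.toLoc g ((fK f).map (BSDFF.placeOf π hπ).toCompletion) ξ h ∧
      IsLocalRing.residue L.O ξ = ψ ρ ∧ h.map (IsLocalRing.residue L.O) = h₀.map ψ := by
  have hnt : Nontrivial (AdjoinRoot π) := ψ.domain_nontrivial
  set φ := detA_hom hπ L with hφ
  have hfO : (f.map φ).Monic := hf.map φ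
  have hdO : (f.map φ).natDegree = 2 * g + 1 := by rw [hf.natDegree_map, hn]
  have hres : (f.map φ).map (IsLocalRing.residue L.O) = (X - C (ψ ρ)) * h₀.map ψ := by
    have h1 : (IsLocalRing.residue L.O).comp φ = ψ.comp (AdjoinRoot.mk π) := by
      refine RingHom.ext fun p => ?_
      rw [RingHom.comp_apply, RingHom.comp_apply, hψ' p]
      rfl
    rw [Polynomial.map_map, h1, ← Polynomial.map_map, hfac, Polynomial.map_mul,
      Polynomial.map_sub, Polynomial.map_X, Polynomial.map_C]
  set r := ψ ρ with hr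
  set h₁ := h₀.map ψ with hh1
  have hm1 : h₁.Monic := hm.map ψ
  have hi1 : Irreducible h₁ := by
    have h1 := (MulEquiv.irreducible_iff (Polynomial.mapEquiv (RingEquiv.ofBijective ψ hψ))
      (x := h₀)).2 hi
    exact h1
  have hd0 : h₀.natDegree = 2 * g := by
    have h1 : (f.map (AdjoinRoot.mk π)).natDegree = 2 * g + 1 := by rw [hf.natDegree_map, hn]
    rw [hfac, (monic_X_sub_C ρ).natDegree_mul hm, natDegree_X_sub_C] at h1
    omega
  have hd1 : h₁.natDegree = 2 * g := by rw [hh1, hm.natDegree_map, hd0]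
  have hr1 : h₁.eval r ≠ 0 := by
    intro h0
    have h1 := Polynomial.degree_eq_one_of_irreducible_of_root hi1 h0
    have h2 := Polynomial.natDegree_eq_of_degree_eq_some h1
    have h3 : 2 * g = 1 := hd1.symm.trans h2
    omega
  have hev : ∀ (p : L.O[X]) (a : L.O), IsLocalRing.residue L.O (p.eval a) =
      (p.map (IsLocalRing.residue L.O)).eval (IsLocalRing.residue L.O a) := by
    intro p a
    rw [Polynomial.eval_map, Polynomial.eval₂_at_apply]
  obtain ⟨a₀, ha₀⟩ := IsLocalRing.residue_surjective (R := L.O) r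
  have e1 : (f.map φ).eval a₀ ∈ IsLocalRing.maximalIdeal L.O := by
    rw [← IsLocalRing.residue_eq_zero_iff, hev, hres, ha₀, Polynomial.eval_mul,
      Polynomial.eval_sub, Polynomial.eval_X, Polynomial.eval_C, sub_self, zero_mul]
  have e2 : IsUnit ((f.map φ).derivative.eval a₀) := by
    rw [← IsLocalRing.residue_ne_zero_iff_isUnit, hev, ← Polynomial.derivative_map, hres, ha₀,
      Polynomial.derivative_mul, Polynomial.derivative_sub, Polynomial.derivative_X,
      Polynomial.derivative_C, sub_zero, one_mul, Polynomial.eval_add, Polynomial.eval_mul,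
      Polynomial.eval_sub, Polynomial.eval_X, Polynomial.eval_C, sub_self, zero_mul, add_zero]
    exact hr1
  obtain ⟨ξ, hξ, hξ0⟩ := L.hens.is_henselian (f.map φ) hfO a₀ e1 e2
  have hrξ : IsLocalRing.residue L.O ξ = r := by
    rw [← ha₀, ← sub_eq_zero, ← map_sub, IsLocalRing.residue_eq_zero_iff]
    exact hξ0
  have hdiv : (X - C ξ) * ((f.map φ) /ₘ (X - C ξ)) = f.map φ :=
    Polynomial.mul_divByMonic_eq_iff_isRoot.2 hξ
  set h := (f.map φ) /ₘ (X - C ξ) with hh
  have hmh : h.Monic := (monic_X_sub_C ξ).of_mul_monic_left (by rw [hdiv]; exact hfO)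
  have hdh : h.natDegree = 2 * g := by
    have h1 := (monic_X_sub_C ξ).natDegree_mul hmh
    rw [hdiv, hdO, natDegree_X_sub_C] at h1
    omega
  have hhres : h.map (IsLocalRing.residue L.O) = h₁ := by
    have h1 : (X - C r) * h.map (IsLocalRing.residue L.O) = (X - C r) * h₁ := by
      rw [← hres, ← hdiv, Polynomial.map_mul, Polynomial.map_sub, Polynomial.map_X,
        Polynomial.map_C, hrξ]
    exact mul_left_cancel₀ (monic_X_sub_C r).ne_zero h1
  refine ⟨ξ, h, ⟨hmh, hdh, ?_, ?_⟩, hrξ, hhres⟩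
  · rw [hdiv, Polynomial.map_map, Polynomial.map_map]
    rfl
  · have h2 := hi1
    rw [← hhres] at h2
    exact h2

end Pool.Agent.HYP
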