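import Pool.Agent.Lib.HYP.Def

/-!
Module F.Cyc of MP_950c68_ag (genus g). Linear algebra over a field: a matrix `T` such that the
adjugate of `x - T` does not vanish modulo any irreducible polynomial has a cyclic vector.

PROOF. Let `V = Fin n → κ`, `φ = Matrix.toLin' T` (or `Matrix.mulVecLin T`). STEP 1: the minimal
polynomial `μ` of `T` (`minpoly κ T`) equals `χ = T.charpoly`. `μ ∣ χ` (`Matrix.minpoly_dvd_charpoly`),
`χ = μ * e`. As `μ (T) = 0`, there is a matrix `B` over `κ[X]` with
`scalar μ = charmatrix T * B`: (`μ(x) - μ(T)` is divisible by `x - T`: for every polynomial `p`,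
`scalar p - (p(T)).map C = charmatrix T * B_p`; for `p = X ^ j` from
`x ^ j - T ^ j = (x - T) Σ x ^ i T ^ (j-1-i)` (`Commute.mul_geom_sum₂` or induction), then by linearity:
`Polynomial.induction_on'`). Multiply by `adjugate (charmatrix T)` on the left:
`μ • adj = χ • B = μ e • B` (`Matrix.adjugate_mul`), and cancel `μ ≠ 0` (`κ[X]` is a domain):
`adj = e • B`, so `e` divides all entries of the adjugate. If `e` is not a unit it has an irreducible
divisor `p`, which contradicts `h`. So `e` is a unit; `μ` and `χ` are monic, `μ = χ`, of degree `n`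
(`Matrix.charpoly_natDegree_eq_dim`).
STEP 2: `Module.AEval' φ` is a finite `κ[X]`-module; by `exists_ker_toSpanSingleton_eq_annihilator`
(Mathlib.Algebra.Module.PID, see its use in Mathlib.FieldTheory.Galois.NormalBasis) there is `v` whose
annihilator is the annihilator of the module, `Ideal.span {minpoly κ φ}`
(`span_minpoly_eq_annihilator`). If `Σ_{j < n} a_j T ^ j v = 0` then `P = Σ a_j X ^ j` annihilates `v`, so
`μ ∣ P`, but `deg P < n = deg μ`, so `P = 0`. So the vectors `T ^ j v`, `j < n`, are linearly independent,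
and the matrix with these rows has nonzero determinant (`Matrix.linearIndependent_rows_iff_isUnit`,
`Matrix.isUnit_iff_isUnit_det`).
-/

set_option autoImplicit false

open Polynomial

namespace Pool.Agent.HYP

private theorem scalar_sub_dvd {κ : Type} [Field κ] {n : ℕ} (T : Matrix (Fin n) (Fin n) κ)
    (p : κ[X]) : ∃ B : Matrix (Fin n) (Fin n) κ[X],
      Matrix.scalar (Fin n) p - (C : κ →+* κ[X]).mapMatrix (aeval T p) =
        Matrix.charmatrix T * B := by
  induction p using Polynomial.induction_on' with
  | add p q hp hq =>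
    obtain ⟨B, hB⟩ := hp
    obtain ⟨B', hB'⟩ := hq
    refine ⟨B + B', ?_⟩
    rw [map_add, map_add, map_add, mul_add, ← hB, ← hB']
    abel
  | monomial j a =>
    set x : Matrix (Fin n) (Fin n) κ[X] := Matrix.scalar (Fin n) (X : κ[X]) with hx
    set y : Matrix (Fin n) (Fin n) κ[X] := (C : κ →+* κ[X]).mapMatrix T with hy
    have hc : Commute x y := Matrix.scalar_commute X (fun r' => Commute.all _ _) y
    have hg := hc.mul_geom_sum₂ j
    refine ⟨Matrix.scalar (Fin n) (C a) *
      ∑ i ∈ Finset.range j, x ^ i * y ^ (j - 1 - i), ?_⟩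
    have h1 : Matrix.charmatrix T = x - y := rfl
    have hs : Commute (Matrix.scalar (Fin n) (C a)) (Matrix.charmatrix T) :=
      Matrix.scalar_commute (C a) (fun r' => Commute.all _ _) _
    rw [← mul_assoc, ← hs.eq, mul_assoc, h1, hg, ← C_mul_X_pow_eq_monomial, map_mul, map_mul,
      aeval_C, map_pow, map_pow, aeval_X, map_mul, map_pow, mul_sub]
    congr 2
    ext i k
    simp only [RingHom.mapMatrix_apply, Matrix.map_apply, Matrix.scalar_apply,
      Matrix.algebraMap_matrix_apply, Matrix.diagonal_apply, Algebra.algebraMap_self,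
      RingHom.id_apply]
    split_ifs <;> simp

private theorem natDegree_minpoly {κ : Type} [Field κ] {n : ℕ} (T : Matrix (Fin n) (Fin n) κ)
    (h : ∀ p : κ[X], Irreducible p → ∃ i j, ¬ p ∣ (Matrix.charmatrix T).adjugate i j) :
    (minpoly κ T).natDegree = n := by
  have hχ : T.charpoly.Monic := Matrix.charpoly_monic T
  obtain ⟨e, he⟩ := Matrix.minpoly_dvd_charpoly T
  obtain ⟨B, hB⟩ := scalar_sub_dvd T (minpoly κ T)
  rw [minpoly.aeval, map_zero, sub_zero] at hB
  have hμ0 : minpoly κ T ≠ 0 := by
    intro h0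
    rw [h0, zero_mul] at he
    exact hχ.ne_zero he
  have he0 : e ≠ 0 := by
    intro h0
    rw [h0, mul_zero] at he
    exact hχ.ne_zero he
  have h1 : (Matrix.charmatrix T).adjugate * Matrix.scalar (Fin n) (minpoly κ T) =
      T.charpoly • B := by
    rw [hB, ← mul_assoc, Matrix.adjugate_mul]
    simp [Matrix.charpoly]
  have h2 : ∀ i j, (Matrix.charmatrix T).adjugate i j = e * B i j := by
    intro i j
    have h3 := congrFun (congrFun h1 i) j
    rw [Matrix.scalar_apply, Matrix.mul_diagonal, Matrix.smul_apply, smul_eq_mul, he] at h3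
    have h4 : minpoly κ T * (Matrix.charmatrix T).adjugate i j = minpoly κ T * (e * B i j) := by
      rw [← mul_assoc, ← h3, mul_comm]
    exact mul_left_cancel₀ hμ0 h4
  have hu : IsUnit e := by
    by_contra hu
    obtain ⟨p, hp, hpe⟩ := WfDvdMonoid.exists_irreducible_factor hu he0
    obtain ⟨i, j, hij⟩ := h p hp
    exact hij (by rw [h2]; exact hpe.mul_right _)
  have h5 : T.charpoly.natDegree = n := by
    rw [Matrix.charpoly_natDegree_eq_dim, Fintype.card_fin]
  rw [he, natDegree_mul hμ0 he0, natDegree_eq_zero_of_isUnit hu, add_zero] at h5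
  exact h5

theorem exists_cyclic {κ : Type} [Field κ] {n : ℕ} (T : Matrix (Fin n) (Fin n) κ)
    (h : ∀ p : κ[X], Irreducible p → ∃ i j, ¬ p ∣ (Matrix.charmatrix T).adjugate i j) :
    ∃ v : Fin n → κ, (Matrix.of fun i j : Fin n => ((T ^ (i : ℕ)).mulVec v) j).det ≠ 0 := by
  have hdeg := natDegree_minpoly T h
  set φ : Module.End κ (Fin n → κ) := Matrix.toLin' T with hφ
  have hmin : minpoly κ φ = minpoly κ T := Matrix.minpoly_toLin' T
  obtain ⟨x, hx⟩ := Module.exists_ker_toSpanSingleton_eq_annihilator κ[X] (Module.AEval' φ)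
  obtain ⟨v, rfl⟩ := (Module.AEval'.of φ).surjective x
  refine ⟨v, ?_⟩
  have hpow : ∀ i : ℕ, (φ ^ i) v = (T ^ i).mulVec v := by
    intro i
    rw [hφ, ← Matrix.toLin'_pow, Matrix.toLin'_apply]
  have hli : LinearIndependent κ (fun i : Fin n => (T ^ (i : ℕ)).mulVec v) := by
    rw [Fintype.linearIndependent_iff]
    intro c hc
    set P : κ[X] := ∑ i : Fin n, C (c i) * X ^ (i : ℕ) with hP
    have hPv : (aeval φ P) v = 0 := by
      rw [← hc, hP, map_sum, LinearMap.sum_apply]
      refine Finset.sum_congr rfl fun i _ => ?_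
      rw [map_mul, aeval_C, map_pow, aeval_X, ← hpow i, Module.End.mul_apply,
        Module.algebraMap_end_apply]
    have hPx : P • (Module.AEval'.of φ) v = 0 := by
      have h3 : P • (Module.AEval'.of φ) v = (Module.AEval'.of φ) ((aeval φ P) v) :=
        (Module.AEval.of_aeval_smul φ P v).symm
      rw [h3, hPv, map_zero]
    have hmem : P ∈ LinearMap.ker (LinearMap.toSpanSingleton κ[X] _ ((Module.AEval'.of φ) v)) := by
      rw [LinearMap.mem_ker, LinearMap.toSpanSingleton_apply]
      exact hPx
    rw [hx, ← span_minpoly_eq_annihilator, Ideal.mem_span_singleton, hmin] at hmem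
    have hPdeg : P.degree < n := degree_sum_fin_lt c
    have hP0 : P = 0 := by
      by_contra hne
      have h4 := Polynomial.natDegree_le_of_dvd hmem hne
      rw [hdeg] at h4
      rw [Polynomial.degree_eq_natDegree hne] at hPdeg
      have h5 : P.natDegree < n := by exact_mod_cast hPdeg
      omega
    intro i
    have h6 : P.coeff i = c i := by
      rw [hP, finsetSum_coeff, Finset.sum_eq_single i]
      · rw [coeff_C_mul, coeff_X_pow, if_pos rfl, mul_one]
      · intro j _ hj
        rw [coeff_C_mul, coeff_X_pow, if_neg (fun h => hj (Fin.ext h.symm)), mul_zero]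
      · intro hi
        exact absurd (Finset.mem_univ i) hi
    rw [← h6, hP0, coeff_zero]
  have hunit : IsUnit (Matrix.of fun i j : Fin n => ((T ^ (i : ℕ)).mulVec v) j) := by
    rw [← Matrix.linearIndependent_rows_iff_isUnit]
    exact hli
  exact ((Matrix.isUnit_iff_isUnit_det _).1 hunit).ne_zero

end Pool.Agent.HYP
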