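import Pool.Agent.Lib.HYP.F.Rank
import Pool.Agent.Lib.HYP.F.Cyc

/-!
Module F.CycO of MP_950c68_ag (genus g). Over a discrete valuation ring `O` with uniformizer `π`: a
matrix with regular characteristic polynomial has a cyclic vector over `O`.

PROOF. `κ = IsLocalRing.ResidueField O`, `T' = T.map (residue O)`. Apply `exists_cyclic` to `T'`: let `p'`
be irreducible in `κ[X]`; suppose that `p'` divides all entries of the adjugate of `charmatrix T'`. We
may assume that `p'` is monic (multiply by the inverse of the leading coefficient, a unit). Lift it to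
a monic `p : O[X]` with `p.map (residue O) = p'`, of the same degree `≥ 1`
(`Polynomial.lifts_and_natDegree_eq_and_monic`, `residue_surjective`). Let `m` be the kernel of the
surjective ring homomorphism `O[X] → κ[X] → κ[X] ⧸ (p')` (`AdjoinRoot p'`, a field), a maximal ideal,
`m = Ideal.span {C π, p}`: if `q.map residue = p' * s'`, lift `s'` to `s`, the coefficients of `q - p s` are
in the maximal ideal `(π)`, so `q - p s = C π * r`. The adjugate commutes with ring homomorphisms
(`RingHom.map_adjugate`), `(charmatrix T).map (mapRingHom residue) = charmatrix T'`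
(`Matrix.charmatrix_map`), so all entries of the adjugate of `charmatrix T` are in `m`. By `det_mem_sq`
`T.charpoly = det (charmatrix T) ∈ m ^ 2`, and `m ^ 2 = span {C π ^ 2, C π * p, p ^ 2}`
(`Ideal.span_pair_pow`-like, or `Submodule.mul_induction_on`: products of two elements
`(C π a + p b) (C π a' + p b')` and sums of them), so `T.charpoly = C (π ^ 2) * a + C π * p * b + p ^ 2 * c`,
which contradicts `RegP`. So `T'` has a cyclic vector `v'`; lift it to `v`; the determinant reduces to
the determinant for `v'`, nonzero, so it is a unit (`IsLocalRing.residue_ne_zero_iff_isUnit`).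
(`n ≥ 1` is needed for `det_mem_sq`.)
-/

set_option autoImplicit false

open Polynomial

namespace Pool.Agent.HYP

private theorem cyco_mem {O : Type} [CommRing O] [IsDomain O] [IsDiscreteValuationRing O] {π : O}
    (hπ : Irreducible π) {p q : O[X]}
    (h : p.map (IsLocalRing.residue O) ∣ q.map (IsLocalRing.residue O)) :
    ∃ a b : O[X], q = C π * a + p * b := by
  obtain ⟨s', hs'⟩ := h
  obtain ⟨s, rfl⟩ := Polynomial.map_surjective (IsLocalRing.residue O)
    IsLocalRing.residue_surjective s'
  have h1 : C π ∣ q - p * s := by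
    rw [Polynomial.C_dvd_iff_dvd_coeff]
    intro i
    have h2 : (q - p * s).map (IsLocalRing.residue O) = 0 := by
      rw [Polynomial.map_sub, Polynomial.map_mul, hs', sub_self]
    have h3 : IsLocalRing.residue O ((q - p * s).coeff i) = 0 := by
      rw [← Polynomial.coeff_map, h2, Polynomial.coeff_zero]
    rw [IsLocalRing.residue_eq_zero_iff,
      (IsDiscreteValuationRing.irreducible_iff_uniformizer π).1 hπ,
      Ideal.mem_span_singleton] at h3
    exact h3
  obtain ⟨r, hr⟩ := h1
  exact ⟨r, s, by rw [← hr]; ring⟩

theorem exists_cyclic_dvr {O : Type} [CommRing O] [IsDomain O] [IsDiscreteValuationRing O] {π : O}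
    (hπ : Irreducible π) {n : ℕ} (hn : 1 ≤ n) (T : Matrix (Fin n) (Fin n) O)
    (hr : RegP π T.charpoly) :
    ∃ v : Fin n → O, IsUnit (Matrix.of fun i j : Fin n => ((T ^ (i : ℕ)).mulVec v) j).det := by
  have key : ∃ v' : Fin n → IsLocalRing.ResidueField O,
      (Matrix.of fun i j : Fin n =>
        (((T.map (IsLocalRing.residue O)) ^ (i : ℕ)).mulVec v') j).det ≠ 0 := by
    refine exists_cyclic (T.map (IsLocalRing.residue O)) fun p' hp' => ?_
    by_contra hcon
    push Not at hcon
    -- the monic associate
    set p1 : (IsLocalRing.ResidueField O)[X] := p' * C (p'.leadingCoeff)⁻¹ with hp1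
    have hlc : p'.leadingCoeff ≠ 0 := leadingCoeff_ne_zero.2 hp'.ne_zero
    have hmon : p1.Monic := monic_mul_leadingCoeff_inv hp'.ne_zero
    have hunit : IsUnit (C (p'.leadingCoeff)⁻¹ : (IsLocalRing.ResidueField O)[X]) :=
      isUnit_C.2 (IsUnit.mk0 _ (inv_ne_zero hlc))
    have hassoc : Associated p' p1 := ⟨hunit.unit, rfl⟩
    have hirr : Irreducible p1 := hassoc.irreducible hp'
    have hdeg : 1 ≤ p1.natDegree := hirr.natDegree_pos
    have hlift : p1 ∈ lifts (IsLocalRing.residue O) := by
      rw [lifts_iff_coeff_lifts]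
      intro i
      exact IsLocalRing.residue_surjective _
    obtain ⟨p, hpmap, hpdeg, hpmon⟩ := lifts_and_natDegree_eq_and_monic hlift hmon
    -- the maximal ideal
    have hmax : (Ideal.span {p1}).IsMaximal :=
      PrincipalIdealRing.isMaximal_of_irreducible hirr
    have hsurj : Function.Surjective (mapRingHom (IsLocalRing.residue O)) :=
      Polynomial.map_surjective _ IsLocalRing.residue_surjective
    have hm : (Ideal.comap (mapRingHom (IsLocalRing.residue O)) (Ideal.span {p1})).IsMaximal :=
      Ideal.comap_isMaximal_of_surjective _ hsurj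
    set m : Ideal O[X] := Ideal.comap (mapRingHom (IsLocalRing.residue O)) (Ideal.span {p1})
      with hmdef
    have hadj : ∀ i j, (Matrix.charmatrix T).adjugate i j ∈ m := by
      intro i j
      rw [hmdef, Ideal.mem_comap, Ideal.mem_span_singleton]
      have h1 := RingHom.map_adjugate (mapRingHom (IsLocalRing.residue O)) (Matrix.charmatrix T)
      have h2 : (mapRingHom (IsLocalRing.residue O)).mapMatrix (Matrix.charmatrix T) =
          Matrix.charmatrix (T.map (IsLocalRing.residue O)) := by
        rw [Matrix.charmatrix_map]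
        rfl
      rw [h2] at h1
      have h3 : mapRingHom (IsLocalRing.residue O) ((Matrix.charmatrix T).adjugate i j) =
          (Matrix.charmatrix (T.map (IsLocalRing.residue O))).adjugate i j := by
        rw [← h1]
        rfl
      rw [h3]
      exact hassoc.symm.dvd.trans (hcon i j)
    have hdet : T.charpoly ∈ m ^ 2 := det_mem_sq m hn _ hadj
    have hgen : ∀ x ∈ m ^ 2, ∃ a b c : O[X],
        x = C (π ^ 2) * a + C π * p * b + p ^ 2 * c := by
      intro x hx
      rw [sq] at hx
      refine Submodule.mul_induction_on hx ?_ ?_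
      · intro y hy z hz
        rw [hmdef, Ideal.mem_comap, Ideal.mem_span_singleton, ← hpmap] at hy hz
        obtain ⟨a, b, rfl⟩ := cyco_mem hπ hy
        obtain ⟨a', b', rfl⟩ := cyco_mem hπ hz
        refine ⟨a * a', a * b' + b * a', b * b', ?_⟩
        rw [C_pow]
        ring
      · rintro y z ⟨a, b, c, rfl⟩ ⟨a', b', c', rfl⟩
        exact ⟨a + a', b + b', c + c', by ring⟩
    obtain ⟨a, b, c, habc⟩ := hgen _ hdet
    exact hr p a b c hpmon (by rw [hpdeg]; exact hdeg) habc
  obtain ⟨v', hv'⟩ := key
  have hlift : ∀ i, ∃ x : O, IsLocalRing.residue O x = v' i :=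
    fun i => IsLocalRing.residue_surjective _
  choose v hv using hlift
  refine ⟨v, ?_⟩
  rw [← IsLocalRing.residue_ne_zero_iff_isUnit, RingHom.map_det]
  have h1 : (IsLocalRing.residue O).mapMatrix
      (Matrix.of fun i j : Fin n => ((T ^ (i : ℕ)).mulVec v) j) =
      Matrix.of fun i j : Fin n =>
        (((T.map (IsLocalRing.residue O)) ^ (i : ℕ)).mulVec v') j := by
    ext i j
    show IsLocalRing.residue O (((T ^ (i : ℕ)).mulVec v) j) = _
    rw [RingHom.map_mulVec]
    have h2 : (T ^ (i : ℕ)).map (IsLocalRing.residue O) =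
        (T.map (IsLocalRing.residue O)) ^ (i : ℕ) :=
      map_pow (IsLocalRing.residue O).mapMatrix T i
    have h3 : (IsLocalRing.residue O : O → IsLocalRing.ResidueField O) ∘ v = v' := funext hv
    rw [h2, h3]
    rfl
  rw [h1]
  exact hv'

end Pool.Agent.HYP
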