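import Pool.Agent.Lib.HYP.L.Pair
import Pool.Agent.Lib.HYP.F.CycO
import Pool.Agent.Lib.HYP.F.Dict

/-!
Module F.Nine of MP_950c68_ag (genus g). A class with a good basis over the discrete valuation ring
`O = L.O` is a unit of `O[θ]` times a square, if `f` is regular; and the good basis is the basis
`y⁻¹ θ ^ j` up to `GL_n (O)`.

PROOF of `nine`. `n = 2 g + 1 ≥ 1`, `G1 = gram1 hf c b`, `G2 = gram2 hf c b`, with entries in `O`, `det G1`
a unit of `O`. `b` is a basis of `AdjoinRoot f` (`basis_of_gram`), so `θ b_i = Σ_j T_ij b_j` with `T` over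
`F`, and `G2 = T * G1` (`τ (θ c b_i b_j) = Σ_k T_ik τ (c b_k b_j)`), so `T = G2 * G1⁻¹` has entries in `O`
(`Matrix.inv_def`, the adjugate has entries in `O`). Let `T'` be the matrix over `L.O` with
`T = T'.map (algebraMap L.O F)`. By `pencil`:
`det (X - T) det G1 = det (X G1 - G2) = det G1 * f`, so `T.charpoly = f`, and `T'.charpoly` maps to `f`;
by `reg_iff` `RegP (piO L) T'.charpoly`. The transpose of `T'` has the same characteristic polynomial
(`Matrix.charpoly_transpose`). By `exists_cyclic_dvr` there is `v : Fin n → L.O` such that the matrix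
`Q i j = ((T'ᵀ) ^ i v) j` has unit determinant. Let `z = Σ_i v_i • b_i`. Then
`θ ^ i z = Σ_j Q i j • b_j` (induction on `i`: `θ Σ x_j b_j = Σ_k (T' ᵀ x)_k b_k`). As `Q` is invertible the
`θ ^ i z` form a basis of `AdjoinRoot f`; so multiplication by `z` is surjective (`1 = Σ a_i θ ^ i z`),
`z` is a unit. Put `y = z⁻¹`, `e = c z ^ 2`, so `c = e y ^ 2`. `gram1 hf e (std f n) = gram1 hf c (θ ^ i z)`
(`gram1_scale`) `= Q G1 Qᵀ` (`gram1_chb`) has entries in `O` and unit determinant. Its first row: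
`τ (e θ ^ j) ∈ O` for `j < n`, so `e` is the class of a polynomial with coefficients in `O`
(`mem_of_tau` with `R = L.O.toSubring`). Its determinant is `(-1) ^ g * norm e` (`gram1_det`,
`coord_std`), so `norm e` is a unit of `O`. With `f = f'.map (algebraMap L.O F)`, `f' : L.O[X]` monic
(`exists_monic_lift`), `e = bc _ f' e'`, `norm e = algebraMap (norm e')` (`norm_bc`), so `e'` is a unit
(`isUnit_iff_norm`) and `UnitAt L c` by `unitAt_iff`. Finally
`b_i = Σ_j (Q⁻¹)_ij • (y⁻¹ θ ^ j)`, `y⁻¹ = z`: the matrix `P = Q⁻¹` has entries in `O` and unit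
determinant.
-/

set_option autoImplicit false

open Polynomial

namespace Pool.Agent.HYP

open Pool.Agent.BSDP

variable {F : Type} [Field F] (L : Loc F) {f : F[X]} (hf : f.Monic)

private theorem n_lift {n : ℕ} (A : Matrix (Fin n) (Fin n) F) (h : ∀ i j, A i j ∈ L.O.toSubring) :
    ∃ A' : Matrix (Fin n) (Fin n) L.O, A'.map (algebraMap L.O F) = A :=
  ⟨Matrix.of fun i j => ⟨A i j, h i j⟩, by
    ext i j
    rfl⟩

private theorem n_det {n : ℕ} (A : Matrix (Fin n) (Fin n) L.O) :
    (A.map (algebraMap L.O F)).det = algebraMap L.O F A.det :=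
  (RingHom.map_det (algebraMap L.O F) A).symm

private theorem n_act {n : ℕ} (c : AdjoinRoot f) (b : Fin n → AdjoinRoot f)
    (B : Module.Basis (Fin n) F (AdjoinRoot f)) (hB : ∀ i, B i = b i)
    (T : Matrix (Fin n) (Fin n) F) (hd : (gram1 hf c b).det ≠ 0)
    (hT : T * gram1 hf c b = gram2 hf c b) (i : Fin n) :
    AdjoinRoot.root f * b i = ∑ j, T i j • b j := by
  have hM : ∀ i, AdjoinRoot.root f * b i =
      ∑ j, (Matrix.of fun i j => B.repr (AdjoinRoot.root f * b i) j) i j • b j := by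
    intro i
    conv_lhs => rw [← B.sum_repr (AdjoinRoot.root f * b i)]
    refine Finset.sum_congr rfl fun j _ => ?_
    rw [hB j]
    rfl
  set M : Matrix (Fin n) (Fin n) F :=
    Matrix.of fun i j => B.repr (AdjoinRoot.root f * b i) j with hMd
  have h2 : M * gram1 hf c b = gram2 hf c b := by
    ext i k
    rw [Matrix.mul_apply]
    show ∑ j, M i j * tau hf (c * b j * b k) = tau hf (AdjoinRoot.root f * c * b i * b k)
    have : AdjoinRoot.root f * c * b i * b k = ∑ j, M i j • (c * b j * b k) := by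
      calc AdjoinRoot.root f * c * b i * b k = c * (AdjoinRoot.root f * b i) * b k := by ring
        _ = _ := by
          rw [hM i, Finset.mul_sum, Finset.sum_mul]
          refine Finset.sum_congr rfl fun j _ => ?_
          rw [mul_smul_comm, smul_mul_assoc]
    rw [this, map_sum]
    refine Finset.sum_congr rfl fun j _ => ?_
    rw [map_smul, smul_eq_mul]
  have hu : IsUnit (gram1 hf c b).det := hd.isUnit
  have e : M = T := by
    rw [← Matrix.mul_nonsing_inv_cancel_right (gram1 hf c b) M hu, h2, ← hT,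
      Matrix.mul_nonsing_inv_cancel_right (gram1 hf c b) T hu]
  rw [hM i, e]

private theorem n_charpoly {g : ℕ} (hn : f.natDegree = 2 * g + 1) (c : AdjoinRoot f)
    (b : Fin (2 * g + 1) → AdjoinRoot f) (T : Matrix (Fin (2 * g + 1)) (Fin (2 * g + 1)) F)
    (hd : (gram1 hf c b).det ≠ 0) (hT : T * gram1 hf c b = gram2 hf c b) : T.charpoly = f := by
  have h1 := pencil hf hn c b
  have h2 : (Matrix.scalar (Fin (2 * g + 1)) (X : F[X])) * (gram1 hf c b).map C -
      (gram2 hf c b).map C = Matrix.charmatrix T * (gram1 hf c b).map C := by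
    rw [Matrix.charmatrix, sub_mul, ← hT, Matrix.map_mul]
    rfl
  have h3 : ((gram1 hf c b).map (C : F →+* F[X])).det = C (gram1 hf c b).det :=
    (RingHom.map_det (C : F →+* F[X]) (gram1 hf c b)).symm
  rw [h2, Matrix.det_mul, h3, mul_comm] at h1
  have h4 : (C (gram1 hf c b).det : F[X]) ≠ 0 := by
    rwa [Ne, Polynomial.C_eq_zero]
  exact mul_left_cancel₀ h4 h1

/-- The complete statement (used for the detection): `e` and its inverse `e'` are in `O[θ]`. -/
theorem nine {g : ℕ} (hn : f.natDegree = 2 * g + 1) (hc : Coef L f) (hr : Reg L f)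
    (c : AdjoinRoot f) (b : Fin (2 * g + 1) → AdjoinRoot f) (hb : GoodR L.O.toSubring hf c b) :
    ∃ (e e' z : AdjoinRoot f) (P : Matrix (Fin (2 * g + 1)) (Fin (2 * g + 1)) L.O),
      IntE L e ∧ IntE L e' ∧ e * e' = 1 ∧ IsUnit z ∧ e = c * z ^ 2 ∧ IsUnit P.det ∧
      ∀ i, b i = ∑ j : Fin (2 * g + 1), (P i j : F) • (z * AdjoinRoot.root f ^ (j : ℕ)) := by
  obtain ⟨f', hm, hdeg, rfl⟩ := exists_monic_lift L f hc hf
  have hφi : Function.Injective (algebraMap L.O F) := Subtype.val_injective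
  haveI := isDVR L
  obtain ⟨G1, hG1⟩ := n_lift L _ hb.g1
  obtain ⟨G2, hG2⟩ := n_lift L _ hb.g2
  obtain ⟨u, hu, hud⟩ := hb.unit
  have hG1d : (gram1 hf c b).det = algebraMap L.O F G1.det := by rw [← hG1, n_det]
  have hd : (gram1 hf c b).det ≠ 0 := by
    intro h
    rw [h, mul_zero] at hud
    exact zero_ne_one hud
  have hG1u : IsUnit G1.det := by
    refine IsUnit.of_mul_eq_one (⟨u, hu⟩ : L.O) (hφi ?_)
    rw [map_mul, ← hG1d, map_one, mul_comm]
    exact hud
  obtain ⟨-, -, B, hB⟩ := basis_of_gram hf hn c b hd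
  set T : Matrix (Fin (2 * g + 1)) (Fin (2 * g + 1)) L.O := G2 * G1⁻¹ with hTd
  have hTG : T * G1 = G2 := by
    rw [hTd, Matrix.mul_assoc, Matrix.nonsing_inv_mul G1 hG1u, Matrix.mul_one]
  have hTG' : T.map (algebraMap L.O F) * gram1 hf c b = gram2 hf c b := by
    rw [← hG1, ← hG2, ← Matrix.map_mul, hTG]
  have hact := n_act hf c b B hB _ hd hTG'
  have hcp : T.charpoly = f' := by
    have := n_charpoly hf hn c b _ hd hTG'
    rw [Matrix.charpoly_map] at this
    exact Polynomial.map_injective _ hφi this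
  obtain ⟨v, hv⟩ := exists_cyclic_dvr (irreducible_piO L) (n := 2 * g + 1) (by omega) T.transpose
    (by rw [Matrix.charpoly_transpose, hcp]; exact (reg_iff L f').1 hr)
  set Q : Matrix (Fin (2 * g + 1)) (Fin (2 * g + 1)) L.O :=
    Matrix.of fun i j : Fin (2 * g + 1) => ((T.transpose ^ (i : ℕ)).mulVec v) j with hQ
  set z : AdjoinRoot (f'.map (algebraMap L.O F)) := ∑ i, (algebraMap L.O F (v i)) • b i with hz
  have hpow : ∀ m : ℕ, AdjoinRoot.root (f'.map (algebraMap L.O F)) ^ m * z =
      ∑ j, (algebraMap L.O F ((T.transpose ^ m).mulVec v j)) • b j := by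
    intro m
    induction m with
    | zero => rw [pow_zero, one_mul, pow_zero, Matrix.one_mulVec]
    | succ m ih =>
      rw [pow_succ', mul_assoc, ih, Finset.mul_sum]
      have e1 : ∀ j, AdjoinRoot.root (f'.map (algebraMap L.O F)) *
          ((algebraMap L.O F ((T.transpose ^ m).mulVec v j)) • b j) =
          ∑ k, (algebraMap L.O F (T j k * (T.transpose ^ m).mulVec v j)) • b k := by
        intro j
        rw [mul_smul_comm, hact j, Finset.smul_sum]
        refine Finset.sum_congr rfl fun k _ => ?_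
        rw [smul_smul, Matrix.map_apply, map_mul, mul_comm]
      rw [Finset.sum_congr rfl fun j _ => e1 j, Finset.sum_comm]
      refine Finset.sum_congr rfl fun k _ => ?_
      rw [← Finset.sum_smul, pow_succ', ← Matrix.mulVec_mulVec, ← map_sum]
      rfl
  set P : Matrix (Fin (2 * g + 1)) (Fin (2 * g + 1)) L.O := Q⁻¹ with hP
  have hPQ : P * Q = 1 := Matrix.nonsing_inv_mul Q hv
  have hbz : ∀ i, b i = ∑ j : Fin (2 * g + 1),
      ((P i j : L.O) : F) • (z * AdjoinRoot.root (f'.map (algebraMap L.O F)) ^ (j : ℕ)) := by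
    intro i
    have e1 : ∀ j : Fin (2 * g + 1), ((P i j : L.O) : F) •
        (z * AdjoinRoot.root (f'.map (algebraMap L.O F)) ^ (j : ℕ)) =
        ∑ k, (algebraMap L.O F (P i j * Q j k)) • b k := by
      intro j
      rw [mul_comm, hpow, Finset.smul_sum]
      refine Finset.sum_congr rfl fun k _ => ?_
      rw [smul_smul, map_mul]
      rfl
    rw [Finset.sum_congr rfl fun j _ => e1 j, Finset.sum_comm]
    have e2 : ∀ k, ∑ j, (algebraMap L.O F (P i j * Q j k)) • b k =
        (algebraMap L.O F ((1 : Matrix (Fin (2 * g + 1)) (Fin (2 * g + 1)) L.O) i k)) • b k := by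
      intro k
      rw [← Finset.sum_smul, ← map_sum, ← hPQ, Matrix.mul_apply]
    rw [Finset.sum_congr rfl fun k _ => e2 k, Finset.sum_eq_single i]
    · rw [Matrix.one_apply_eq, map_one, one_smul]
    · intro k _ hk
      rw [Matrix.one_apply_ne hk.symm, map_zero, zero_smul]
    · intro h
      exact absurd (Finset.mem_univ i) h
  have hzu : IsUnit z := by
    have h1 : (1 : AdjoinRoot (f'.map (algebraMap L.O F))) = z * ∑ i, B.repr 1 i •
        ∑ j : Fin (2 * g + 1), ((P i j : L.O) : F) •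
          AdjoinRoot.root (f'.map (algebraMap L.O F)) ^ (j : ℕ) := by
      rw [Finset.mul_sum]
      conv_lhs => rw [← B.sum_repr 1]
      refine Finset.sum_congr rfl fun i _ => ?_
      rw [mul_smul_comm, Finset.mul_sum, hB i]
      conv_lhs => rw [hbz i]
      congr 1
      refine Finset.sum_congr rfl fun j _ => ?_
      rw [mul_smul_comm]
    exact IsUnit.of_mul_eq_one _ h1.symm
  have hgram : gram1 hf (c * z ^ 2) (std (f'.map (algebraMap L.O F)) (2 * g + 1)) =
      (Q * G1 * Q.transpose).map (algebraMap L.O F) := by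
    rw [← gram1_scale hf c z]
    have e1 : (fun i => z * std (f'.map (algebraMap L.O F)) (2 * g + 1) i) =
        fun i => ∑ j, (Q.map (algebraMap L.O F)) i j • b j := by
      funext i
      show z * AdjoinRoot.root (f'.map (algebraMap L.O F)) ^ (i : ℕ) = _
      rw [mul_comm, hpow]
      rfl
    rw [e1, gram1_chb, ← hG1, Matrix.map_mul, Matrix.map_mul, Matrix.transpose_map]
  have hnn : (f'.map (algebraMap L.O F)).natDegree = 2 * g + 1 := hn
  obtain ⟨Pe, hPe, -, hPe'⟩ := mem_of_tau hf L.O.toSubring (fun i => hc i) (by omega) (c * z ^ 2)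
    (by
      intro j hj
      have h1 := congrFun (congrFun hgram ⟨0, by omega⟩) ⟨j, by omega⟩
      have h2 : gram1 hf (c * z ^ 2) (std (f'.map (algebraMap L.O F)) (2 * g + 1)) ⟨0, by omega⟩
          ⟨j, by omega⟩ = tau hf (c * z ^ 2 *
            AdjoinRoot.root (f'.map (algebraMap L.O F)) ^ j) := by
        show tau hf (c * z ^ 2 * AdjoinRoot.root (f'.map (algebraMap L.O F)) ^ 0 *
          AdjoinRoot.root (f'.map (algebraMap L.O F)) ^ j) = _
        rw [pow_zero, mul_one]
      rw [h2] at h1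
      rw [h1]
      exact SetLike.coe_mem _)
  obtain ⟨E, hE⟩ := (coef_iff L Pe).1 hPe
  have he : c * z ^ 2 = bc (algebraMap L.O F) f' (AdjoinRoot.mk f' E) := by
    rw [hPe', bc_mk, hE]
  have hnorm : IsUnit (Algebra.norm L.O (AdjoinRoot.mk f' E)) := by
    have h1 := gram1_det hf hn (c * z ^ 2) (std (f'.map (algebraMap L.O F)) (2 * g + 1))
    rw [hgram, n_det, coord_std hf hn, Matrix.det_one, one_pow, mul_one, he, norm_bc hm] at h1
    have h2 : (Q * G1 * Q.transpose).det = (-1) ^ g * Algebra.norm L.O (AdjoinRoot.mk f' E) := by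
      apply hφi
      rw [h1, map_mul, map_pow, map_neg, map_one]
    have h3 : IsUnit (Q * G1 * Q.transpose).det := by
      rw [Matrix.det_mul, Matrix.det_mul, Matrix.det_transpose]
      exact (hv.mul hG1u).mul hv
    rw [h2] at h3
    exact isUnit_of_mul_isUnit_right h3
  obtain ⟨e₁, he₁⟩ := ((isUnit_iff_norm hm _).2 hnorm).exists_right_inv
  obtain ⟨E₁, rfl⟩ := AdjoinRoot.mk_surjective e₁
  refine ⟨c * z ^ 2, bc (algebraMap L.O F) f' (AdjoinRoot.mk f' E₁), z, P, ⟨Pe, hPe, hPe'⟩,
    ⟨E₁.map (algebraMap L.O F), (coef_iff L _).2 ⟨E₁, rfl⟩, bc_mk _ _⟩, ?_, hzu, rfl,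
    Matrix.isUnit_nonsing_inv_det Q hv, hbz⟩
  rw [he, ← map_mul, he₁, map_one]

theorem unitAt_of_good {g : ℕ} (hn : f.natDegree = 2 * g + 1) (hc : Coef L f) (hr : Reg L f)
    (c : AdjoinRoot f) (b : Fin (2 * g + 1) → AdjoinRoot f) (hb : GoodR L.O.toSubring hf c b) :
    UnitAt L c := by
  obtain ⟨e, e', z, P, h1, h2, h3, h4, h5, -, -⟩ := nine L hf hn hc hr c b hb
  obtain ⟨w, hw⟩ := h4.exists_right_inv
  refine ⟨e, e', w, h1, h2, h3, IsUnit.of_mul_eq_one z (by rw [mul_comm]; exact hw), ?_⟩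
  rw [h5, mul_assoc, ← mul_pow, hw, one_pow, mul_one]

end Pool.Agent.HYP
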