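import Pool.Agent.Lib.HYP.L.Norm

/-!
Module F.FinNorm of MP_950c68_ag (genus g). Finite fields: an element of `κ[x] / (h)`, `h` irreducible
monic, is a square iff its norm is.

PROOF. `E = AdjoinRoot h` is a finite field (`Fact (Irreducible h)`, `Module.Finite` from
`AdjoinRoot.powerBasis'`), of cardinality `Q ^ d`, `Q = Nat.card κ`, `d = h.natDegree`, `Q` odd. Let `x ≠ 0`
(for `x = 0` both sides are true: `norm 0 = 0`, `d ≥ 1`). The norm is
`algebraMap κ E (norm x) = ∏_{i < d} x ^ (Q ^ i) = x ^ ((Q ^ d - 1) / (Q - 1))`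
(`FiniteField.algebraMap_norm_eq_prod_pow`, or see `char_norm` in `BSDP/R/Char.lean`).
`IsSquare x ↔ x ^ ((Q ^ d - 1) / 2) = 1` (`FiniteField.isSquare_iff`), and
`x ^ ((Q ^ d - 1) / 2) = (x ^ ((Q ^ d - 1) / (Q - 1))) ^ ((Q - 1) / 2) = algebraMap (norm x ^ ((Q - 1) / 2))`, which
is `1` iff `norm x ^ ((Q - 1) / 2) = 1` iff `norm x` is a square.
-/

set_option autoImplicit false

open Polynomial

namespace Pool.Agent.HYP

theorem isSquare_iff_norm_fin {κ : Type} [Field κ] [Finite κ] (h2 : (2 : κ) ≠ 0) {h : κ[X]}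
    (hm : h.Monic) (hi : Irreducible h) (x : AdjoinRoot h) :
    IsSquare x ↔ IsSquare (Algebra.norm κ x) := by
  classical
  have hF := Fact.mk hi
  have h0 : h ≠ 0 := hi.ne_zero
  have hfd : Module.Finite κ (AdjoinRoot h) := (AdjoinRoot.powerBasis h0).finite
  have hfin : Finite (AdjoinRoot h) := Module.finite_of_finite κ
  have hc : Nat.card (AdjoinRoot h) = Nat.card κ ^ h.natDegree := by
    rw [Module.natCard_eq_pow_finrank (K := κ), (AdjoinRoot.powerBasis h0).finrank,
      AdjoinRoot.powerBasis_dim]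
  have hpow : algebraMap κ (AdjoinRoot h) (Algebra.norm κ x) =
      x ^ ((Nat.card (AdjoinRoot h) - 1) / (Nat.card κ - 1)) :=
    FiniteField.algebraMap_norm_eq_pow
  have hinj : Function.Injective (algebraMap κ (AdjoinRoot h)) :=
    (algebraMap κ (AdjoinRoot h)).injective
  rw [hc] at hpow
  set N := Algebra.norm κ x with hN
  set q := Nat.card κ with hq
  have hq1 : 1 < q := Finite.one_lt_card
  have hd : h.natDegree ≠ 0 := hi.natDegree_pos.ne'
  obtain ⟨e, he⟩ : q - 1 ∣ q ^ h.natDegree - 1 := by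
    have := Nat.sub_dvd_pow_sub_pow q 1 h.natDegree
    rwa [one_pow] at this
  have hqd : 1 < q ^ h.natDegree := Nat.one_lt_pow hd hq1
  have he0 : e ≠ 0 := by
    rintro rfl
    rw [mul_zero] at he
    omega
  have hdiv : (q ^ h.natDegree - 1) / (q - 1) = e := by
    rw [he]
    exact Nat.mul_div_cancel_left e (by omega)
  rw [hdiv] at hpow
  have hck : ringChar κ ≠ 2 := by
    intro h3
    apply h2
    have := (ringChar.spec κ 2).2 (by rw [h3])
    exact_mod_cast this
  have h2L : (2 : AdjoinRoot h) ≠ 0 := by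
    intro h3
    apply h2
    apply hinj
    rw [map_ofNat, map_zero]
    exact h3
  have hcL : ringChar (AdjoinRoot h) ≠ 2 := by
    intro h3
    apply h2L
    have := (ringChar.spec (AdjoinRoot h) 2).2 (by rw [h3])
    exact_mod_cast this
  have hfk := Fintype.ofFinite κ
  have hfL := Fintype.ofFinite (AdjoinRoot h)
  by_cases hx0 : x = 0
  · have hN0 : N = 0 := by
      apply hinj
      rw [hpow, hx0, zero_pow he0, map_zero]
    rw [hx0, hN0]
    exact ⟨fun _ => ⟨0, by simp⟩, fun _ => ⟨0, by simp⟩⟩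
  · have hN0 : N ≠ 0 := by
      intro h3
      rw [h3, map_zero] at hpow
      exact hx0 (pow_eq_zero_iff he0 |>.1 hpow.symm)
    rw [FiniteField.isSquare_iff hcL hx0, FiniteField.isSquare_iff hck hN0,
      ← Nat.card_eq_fintype_card, ← Nat.card_eq_fintype_card, hc]
    have hodd : q % 2 = 1 := by
      rw [hq, Nat.card_eq_fintype_card]
      exact FiniteField.odd_card_of_char_ne_two hck
    have hodd2 : (q ^ h.natDegree) % 2 = 1 := by
      have : Odd (q ^ h.natDegree) := (Nat.odd_iff.2 hodd).pow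
      exact Nat.odd_iff.1 this
    have hexp : e * (q / 2) = q ^ h.natDegree / 2 := by
      have h1 : q - 1 = 2 * (q / 2) := by omega
      have h3 : q ^ h.natDegree - 1 = 2 * (q ^ h.natDegree / 2) := by omega
      have h4 : 2 * (q ^ h.natDegree / 2) = 2 * (e * (q / 2)) := by
        rw [← h3, he]
        calc (q - 1) * e = (2 * (q / 2)) * e := by rw [← h1]
          _ = 2 * (e * (q / 2)) := by ring
      omega
    have h5 : algebraMap κ (AdjoinRoot h) (N ^ (q / 2)) = x ^ (q ^ h.natDegree / 2) := by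
      rw [map_pow, hpow, ← pow_mul, hexp]
    rw [← h5]
    constructor
    · intro h6
      exact hinj (by rw [h6, map_one])
    · intro h6
      rw [h6, map_one]

end Pool.Agent.HYP
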