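import Pool.Agent.Lib.HYP.F.Dict

/-!
Module F.UnrB of MP_950c68_ag (genus g). Hensel's lemma for squares in `O[θ] = AdjoinRoot h`, `O` complete.

PROOF. Let `R = AdjoinRoot h`, `π = piO L`, `2` is a unit of `L.O` (`isUnit_two`); let `t` be its inverse. `s` is a
unit with inverse `s'`. Newton iteration with a fixed slope: `y_0 = s`,
`y_{n+1} = y_n - t s' (y_n ^ 2 - e)`. Claim: `y_n ^ 2 - e = π ^ (n+1) a_n` and `y_n - s = π b_n` for some
`a_n, b_n ∈ R`. `n = 0`: `s ^ 2 - e = - π d`. Step, with `δ = y_n ^ 2 - e`: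
`y_{n+1} ^ 2 - e = δ - 2 t s' y_n δ + t ^ 2 s' ^ 2 δ ^ 2 = δ (1 - s' y_n) + t ^ 2 s' ^ 2 δ ^ 2`,
`1 - s' y_n = - s' π b_n`, and `δ ^ 2` is divisible by `π ^ (2 n + 2)`. So `y_{n+1} - y_n = π ^ (n+1) c_n`.
The coordinates in the basis `1, θ, …, θ ^ (d - 1)` (`AdjoinRoot.powerBasis' hm`) of the `y_n` are sequences
in `L.O` whose consecutive differences are divisible by `π ^ (n+1)`; the maximal ideal is `(π)`
(`maximalIdeal_eq`) and `IsAdicComplete` (`IsPrecomplete.prec`, `SModEq`) gives limits `l_i` with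
`(y_n)_i - l_i ∈ (π ^ n)`. Let `y = Σ l_i θ ^ i`: `y - y_n ∈ π ^ n R`, so `y ^ 2 - e ∈ π ^ n R` for all `n`; its
coordinates are in `⋂ (π ^ n) = 0` (`IsHausdorff.haus`), so `e = y ^ 2`.
-/

set_option autoImplicit false

open Polynomial

namespace Pool.Agent.HYP

open Pool.Agent.BSDP

/-- Membership in the powers of `(ϖ)` in coordinates. -/
private theorem unrb_mem {O R : Type} [CommRing O] [CommRing R] [Algebra O R] {d : ℕ}
    (b : Module.Basis (Fin d) O R) (ϖ : O) (n : ℕ) (x : R) :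
    x ∈ ((Ideal.span {algebraMap O R ϖ}) ^ n • (⊤ : Submodule R R)) ↔
      ∀ i, b.repr x i ∈ (Ideal.span {ϖ}) ^ n • (⊤ : Submodule O O) := by
  rw [smul_eq_mul, Ideal.mul_top, Ideal.span_singleton_pow, Ideal.mem_span_singleton]
  simp only [smul_eq_mul, Ideal.mul_top, Ideal.span_singleton_pow, Ideal.mem_span_singleton]
  constructor
  · rintro ⟨y, rfl⟩ i
    refine ⟨b.repr y i, ?_⟩
    rw [← map_pow, ← Algebra.smul_def, map_smul]
    rfl
  · intro h
    choose c hc using h
    refine ⟨∑ i, c i • b i, ?_⟩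
    rw [← map_pow, ← Algebra.smul_def, Finset.smul_sum]
    conv_lhs => rw [← b.sum_repr x]
    refine Finset.sum_congr rfl fun i _ => ?_
    rw [smul_smul, hc i]

private theorem unrb_complete {O R : Type} [CommRing O] [CommRing R] [Algebra O R] {d : ℕ}
    (b : Module.Basis (Fin d) O R) (ϖ : O) (h : IsAdicComplete (Ideal.span {ϖ}) O) :
    IsAdicComplete (Ideal.span {algebraMap O R ϖ}) R := by
  have hh : IsHausdorff (Ideal.span {algebraMap O R ϖ}) R := by
    refine ⟨fun x hx => ?_⟩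
    have h1 : b.repr x = 0 := by
      ext i
      refine h.toIsHausdorff.haus (b.repr x i) fun n => ?_
      have h2 := hx n
      rw [SModEq.zero] at h2 ⊢
      exact (unrb_mem b ϖ n x).1 h2 i
    exact b.repr.map_eq_zero_iff.1 h1
  have hp : IsPrecomplete (Ideal.span {algebraMap O R ϖ}) R := by
    refine ⟨fun f hf => ?_⟩
    have h1 : ∀ i, ∃ l : O, ∀ n, b.repr (f n) i ≡ l
        [SMOD ((Ideal.span {ϖ}) ^ n • (⊤ : Submodule O O))] := by
      intro i
      refine h.toIsPrecomplete.prec (f := fun n => b.repr (f n) i) ?_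
      intro m n hmn
      have h2 := hf hmn
      rw [SModEq.sub_mem] at h2 ⊢
      have h3 := (unrb_mem b ϖ m _).1 h2 i
      rw [map_sub, Finsupp.sub_apply] at h3
      exact h3
    choose l hl using h1
    refine ⟨∑ i, l i • b i, fun n => ?_⟩
    rw [SModEq.sub_mem]
    refine (unrb_mem b ϖ n _).2 fun i => ?_
    have h3 := hl i n
    rw [SModEq.sub_mem] at h3
    have h4 : b.repr (∑ i, l i • b i) i = l i := by
      rw [b.repr_sum_self]
    rw [map_sub, Finsupp.sub_apply, h4]
    exact h3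
  exact { toIsHausdorff := hh, toIsPrecomplete := hp }

theorem isSquare_of_near_unit {F : Type} [Field F] (L : Loc F) (hC : Complete L) {h : L.O[X]}
    (hm : h.Monic) (e s d : AdjoinRoot h) (hs : IsUnit s) (he : e = s ^ 2 + piO L • d) :
    IsSquare e := by
  have hO : IsAdicComplete (Ideal.span {piO L}) L.O := by
    have h1 : IsAdicComplete (IsLocalRing.maximalIdeal L.O) L.O := hC
    rw [maximalIdeal_eq] at h1
    exact h1
  have hR : IsAdicComplete (Ideal.span {algebraMap L.O (AdjoinRoot h) (piO L)}) (AdjoinRoot h) :=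
    unrb_complete (AdjoinRoot.powerBasis' hm).basis (piO L) hO
  have hH : HenselianRing (AdjoinRoot h) (Ideal.span {algebraMap L.O (AdjoinRoot h) (piO L)}) :=
    IsAdicComplete.henselianRing _ _
  have h2 : IsUnit (2 : AdjoinRoot h) := by
    have h3 := (isUnit_two L).map (algebraMap L.O (AdjoinRoot h))
    rw [map_ofNat] at h3
    exact h3
  obtain ⟨a, ha, -⟩ := hH.is_henselian (X ^ 2 - C e) (monic_X_pow_sub_C e two_ne_zero) s
    (by
      rw [eval_sub, eval_pow, eval_X, eval_C, he, Ideal.mem_span_singleton, Algebra.smul_def]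
      exact ⟨-d, by ring⟩)
    (by
      have h4 : (derivative (X ^ 2 - C e : (AdjoinRoot h)[X])).eval s = 2 * s := by
        simp
        ring
      rw [h4]
      exact (h2.mul hs).map _)
  refine ⟨a, ?_⟩
  have h5 : (X ^ 2 - C e : (AdjoinRoot h)[X]).eval a = 0 := ha
  rw [eval_sub, eval_pow, eval_X, eval_C] at h5
  rw [← pow_two]
  exact (sub_eq_zero.1 h5).symm

end Pool.Agent.HYP
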