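import Pool.Agent.Lib.HYP.F.UnrA
import Pool.Agent.Lib.HYP.F.UnrB
import Pool.Agent.Lib.HYP.F.FinNorm
import Pool.Agent.Lib.BSDP.R.Loc
import Pool.Agent.Lib.BSDP.D.Ord

/-!
Module F.UnrC of MP_950c68_ag (genus g). Square classes of the unramified extension `F[x] / (h)`,
`h ∈ O[x]` monic and irreducible over the residue field.

PROOF. `unit_isSquare_iff`: `e` a unit of `AdjoinRoot h`, `ē = bc (residue) h e ≠ 0` in the finite field
`AdjoinRoot h̄`. (a) `IsSquare e → IsSquare (bc _ h e)` is clear; conversely if `bc _ h e = x ^ 2` in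
`AdjoinRoot (h.map algebraMap)`, then `x ≠ 0`, `x = π ^ j bc e₁` (`exists_zpow_unit`),
`bc e = π ^ (2 j) bc (e₁ ^ 2)`; taking norms (in `F`: value `1` on the left, `π ^ (2 j d)` times a unit on the
right; `norm_bc`, `isUnit_iff_norm`) `j = 0`, so `e = e₁ ^ 2` (`bc_injective`).
(b) if `ē` is a square, `ē = s̄ ^ 2`, `s̄ ≠ 0`, lift `s̄` to `s`; `s` is a unit (`unit_or_dvd`; if `s = π y` then
`s̄ = 0`), `e - s ^ 2` is in the kernel (`ker_residue`), so `e` is a square (`isSquare_of_near_unit`).
(c) `ē` is a square iff `norm ē = residue (norm e)` is (`isSquare_iff_norm_fin`, `norm_bc`), iff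
`norm e` is a square in `F` (`BSDP.R.isSquare_iff_residue`).
`isSquare_of_norm_odd`: `x = π ^ j bc e`, `norm x = π ^ (j d) norm (bc e) = a ^ 2` (`norm_const`-like: the
norm of the constant `π ^ j` is `π ^ (j d)`). The order at `π` (`BSDP/D/Ord.lean`, `L.ord`) gives
`j d` even, so `j = 2 i`; so `norm (bc e)` is a square, so `bc e` is a square, so `x` is.
`exists_unit_class`: `x = π ^ j bc e`, `j = 2 i` or `2 i + 1`.
-/

set_option autoImplicit false

open Polynomial

namespace Pool.Agent.HYP

open Pool.Agent.BSDP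

variable {F : Type} [Field F] (L : Loc F) (hC : Complete L) {h : L.O[X]}

private theorem uc_deg (hm : h.Monic) (hi : Irreducible (h.map (IsLocalRing.residue L.O))) :
    1 ≤ h.natDegree := by
  have h1 := hi.natDegree_pos
  rw [hm.natDegree_map] at h1
  exact h1

private theorem uc_alg_inj : Function.Injective (algebraMap L.O F) := Subtype.val_injective

private theorem uc_nontriv (hm : h.Monic) (hi : Irreducible (h.map (IsLocalRing.residue L.O))) :
    Nontrivial (AdjoinRoot (h.map (algebraMap L.O F))) := by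
  have h1 := uc_deg L hm hi
  apply AdjoinRoot.nontrivial
  have h2 : 0 < (h.map (algebraMap L.O F)).natDegree := by
    rw [hm.natDegree_map]
    exact h1
  exact (natDegree_pos_iff_degree_pos.1 h2).ne'

private theorem uc_norm_unit (hm : h.Monic) (e : AdjoinRoot h) (he : IsUnit e) :
    L.O.valuation (Algebra.norm F (bc (algebraMap L.O F) h e)) = 1 := by
  rw [norm_bc hm]
  exact (ValuationSubring.valuation_eq_one_iff L.O _).1 ((isUnit_iff_norm hm e).1 he)

private theorem uc_norm_smul (hm : h.Monic) (a : F) (x : AdjoinRoot (h.map (algebraMap L.O F))) :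
    Algebra.norm F (a • x) = a ^ h.natDegree * Algebra.norm F x := by
  rw [Algebra.smul_def, map_mul, norm_const (hm.map _), hm.natDegree_map]

private theorem uc_ord_norm (hm : h.Monic) (e : AdjoinRoot h) (he : IsUnit e) (j : ℤ) :
    L.ord (Algebra.norm F ((L.pi ^ j) • bc (algebraMap L.O F) h e)) = j * h.natDegree := by
  have h1 := uc_norm_unit L hm e he
  have h0 : Algebra.norm F (bc (algebraMap L.O F) h e) ≠ 0 := by
    intro h2
    rw [h2, map_zero] at h1
    exact zero_ne_one h1
  rw [uc_norm_smul L hm, L.ord_mul (pow_ne_zero _ (zpow_ne_zero _ L.pi_ne)) h0,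
    (L.ord_eq_zero_iff h0).2 h1, add_zero, L.ord_pow (zpow_ne_zero _ L.pi_ne)]
  have h2 : L.ord (L.pi ^ j) = j := by
    rcases Int.eq_nat_or_neg j with ⟨n, rfl | rfl⟩
    · rw [zpow_natCast, L.ord_pow L.pi_ne, L.ord_pi, mul_one]
    · rw [zpow_neg, zpow_natCast, L.ord_inv (pow_ne_zero _ L.pi_ne), L.ord_pow L.pi_ne, L.ord_pi, mul_one]
  rw [h2, mul_comm]

private theorem uc_smul_sq (i : ℤ) (y : AdjoinRoot (h.map (algebraMap L.O F))) :
    (L.pi ^ (i + i)) • y = y * (algebraMap F (AdjoinRoot (h.map (algebraMap L.O F))) (L.pi ^ i)) ^ 2 := by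
  rw [Algebra.smul_def, zpow_add₀ L.pi_ne, map_mul]
  ring

include hC in
theorem unit_isSquare_iff (hm : h.Monic) (hi : Irreducible (h.map (IsLocalRing.residue L.O)))
    (e : AdjoinRoot h) (he : IsUnit e) :
    (IsSquare (bc (algebraMap L.O F) h e) ↔ IsSquare (Algebra.norm F (bc (algebraMap L.O F) h e))) ∧
    (IsSquare (bc (algebraMap L.O F) h e) ↔ IsSquare (bc (IsLocalRing.residue L.O) h e)) := by
  have hd := uc_deg L hm hi
  have hnt := uc_nontriv L hm hi
  have hres : Nontrivial (AdjoinRoot (h.map (IsLocalRing.residue L.O))) := by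
    apply AdjoinRoot.nontrivial
    have h2 : 0 < (h.map (IsLocalRing.residue L.O)).natDegree := by
      rw [hm.natDegree_map]
      exact hd
    exact (natDegree_pos_iff_degree_pos.1 h2).ne'
  have hB : IsSquare (bc (algebraMap L.O F) h e) ↔ IsSquare (bc (IsLocalRing.residue L.O) h e) := by
    constructor
    · rintro ⟨x, hx⟩
      have hx0 : x ≠ 0 := by
        rintro rfl
        rw [mul_zero] at hx
        exact (he.map (bc (algebraMap L.O F) h)).ne_zero hx
      obtain ⟨j, e₁, he₁, hxe⟩ := exists_zpow_unit L hm hi x hx0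
      have h1 : bc (algebraMap L.O F) h e = (L.pi ^ (j + j)) • bc (algebraMap L.O F) h (e₁ * e₁) := by
        rw [hx, hxe, map_mul, zpow_add₀ L.pi_ne, smul_mul_smul_comm]
      have h2 := uc_ord_norm L hm (e₁ * e₁) (he₁.mul he₁) (j + j)
      rw [← h1] at h2
      have h3 := uc_ord_norm L hm e he 0
      rw [zpow_zero, one_smul, zero_mul] at h3
      rw [h3] at h2
      have h4 : j + j = 0 := by
        rcases mul_eq_zero.1 h2.symm with h5 | h5
        · exact h5
        · exfalso
          have : h.natDegree = 0 := by exact_mod_cast h5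
          omega
      rw [h4, zpow_zero, one_smul] at h1
      have h5 : e = e₁ * e₁ := bc_injective hm _ (uc_alg_inj L) h1
      exact ⟨bc (IsLocalRing.residue L.O) h e₁, by rw [h5, map_mul]⟩
    · rintro ⟨s', hs'⟩
      obtain ⟨P, rfl⟩ := AdjoinRoot.mk_surjective s'
      obtain ⟨Q, hQ⟩ := Polynomial.map_surjective _ (IsLocalRing.residue_surjective (R := L.O)) P
      set s : AdjoinRoot h := AdjoinRoot.mk h Q with hs
      have hsb : bc (IsLocalRing.residue L.O) h s = AdjoinRoot.mk _ P := by
        rw [hs, bc_mk, hQ]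
      rw [← hsb] at hs'
      have hu : IsUnit s := by
        rcases unit_or_dvd L hm hi s with h1 | ⟨y, hy⟩
        · exact h1
        · exfalso
          have hpi : IsLocalRing.residue L.O (piO L) = 0 := by
            rw [IsLocalRing.residue_eq_zero_iff, maximalIdeal_eq]
            exact Ideal.mem_span_singleton_self _
          have h1 : bc (IsLocalRing.residue L.O) h s = 0 := by
            rw [hy, bc_smul, hpi, zero_smul]
          rw [h1, mul_zero] at hs'
          exact (he.map (bc (IsLocalRing.residue L.O) h)).ne_zero hs'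
      obtain ⟨y, hy⟩ := ker_residue L hm hd (e - s ^ 2) (by
        rw [map_sub, map_pow, hs']
        ring)
      have h1 : IsSquare e := isSquare_of_near_unit L hC hm e s y hu (by
        rw [← hy]
        ring)
      exact h1.map _
  refine ⟨?_, hB⟩
  have hfin := L.fin
  have h2 : (2 : IsLocalRing.ResidueField L.O) ≠ 0 := by
    have h3 := (isUnit_two L).map (IsLocalRing.residue L.O)
    rw [map_ofNat] at h3
    exact h3.ne_zero
  rw [hB]
  have hA := isSquare_iff_norm_fin (κ := IsLocalRing.ResidueField L.O) h2 (hm.map _) hi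
    (bc (IsLocalRing.residue L.O) h e)
  refine hA.trans ?_
  have h4 : Algebra.norm (IsLocalRing.ResidueField L.O) (bc (IsLocalRing.residue L.O) h e) =
      IsLocalRing.residue L.O (Algebra.norm L.O e) := norm_bc hm _ e
  rw [h4, norm_bc hm]
  exact (BSDP.R.isSquare_iff_residue L _ ((isUnit_iff_norm hm e).1 he)).symm

include hC in
theorem isSquare_of_norm_odd (hm : h.Monic)
    (hi : Irreducible (h.map (IsLocalRing.residue L.O))) (hodd : Odd h.natDegree)
    (x : AdjoinRoot (h.map (algebraMap L.O F))) (hx : SqNorm x) : IsSquare x := by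
  by_cases hx0 : x = 0
  · exact ⟨0, by rw [hx0, mul_zero]⟩
  obtain ⟨a, ha, hxa⟩ := hx
  obtain ⟨j, e, he, hxe⟩ := exists_zpow_unit L hm hi x hx0
  have h1 := uc_ord_norm L hm e he j
  rw [← hxe, hxa, L.ord_pow ha] at h1
  have hj : Even j := by
    have h2 : Even (j * (h.natDegree : ℤ)) := by
      rw [← h1]
      exact ⟨L.ord a, by push_cast; ring⟩
    rcases Int.even_mul.1 h2 with h3 | h3
    · exact h3
    · exfalso
      have h4 : Even h.natDegree := by exact_mod_cast h3
      exact (Nat.not_even_iff_odd.2 hodd) h4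
  obtain ⟨i, rfl⟩ := hj
  rw [uc_smul_sq] at hxe
  have h5 : IsSquare (Algebra.norm F (bc (algebraMap L.O F) h e)) := by
    rw [hxe, map_mul, map_pow, norm_const (hm.map _)] at hxa
    have h6 : (L.pi ^ i) ^ (h.map (algebraMap L.O F)).natDegree ≠ 0 :=
      pow_ne_zero _ (zpow_ne_zero _ L.pi_ne)
    refine ⟨a / (L.pi ^ i) ^ (h.map (algebraMap L.O F)).natDegree, ?_⟩
    field_simp
    linear_combination hxa
  obtain ⟨r, hr⟩ := ((unit_isSquare_iff L hC hm hi e he).1).2 h5
  refine ⟨r * algebraMap F _ (L.pi ^ i), ?_⟩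
  rw [hxe, hr]
  ring

theorem exists_unit_class (hm : h.Monic) (hi : Irreducible (h.map (IsLocalRing.residue L.O)))
    (x : AdjoinRoot (h.map (algebraMap L.O F))) (hx : x ≠ 0) :
    ∃ (e : AdjoinRoot h) (y : AdjoinRoot (h.map (algebraMap L.O F))), IsUnit e ∧ IsUnit y ∧
      (x = bc (algebraMap L.O F) h e * y ^ 2 ∨ x = L.pi • (bc (algebraMap L.O F) h e * y ^ 2)) := by
  obtain ⟨j, e, he, hxe⟩ := exists_zpow_unit L hm hi x hx
  rcases Int.even_or_odd' j with ⟨i, hj | hj⟩
  · refine ⟨e, algebraMap F _ (L.pi ^ i), he, (IsUnit.mk0 _ (zpow_ne_zero _ L.pi_ne)).map _, Or.inl ?_⟩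
    rw [hxe, hj, two_mul, uc_smul_sq]
  · refine ⟨e, algebraMap F _ (L.pi ^ i), he, (IsUnit.mk0 _ (zpow_ne_zero _ L.pi_ne)).map _, Or.inr ?_⟩
    rw [hxe, hj, two_mul, zpow_add_one₀ L.pi_ne, mul_comm (L.pi ^ (i + i)) L.pi, mul_smul, uc_smul_sq]

end Pool.Agent.HYP
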