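import Pool.Agent.Lib.HYP.F.Res

/-!
Module F.Mum (section 8). Over a discretely valued field a Mumford pair of a regular polynomial
of odd degree gives a unit of `O[θ]` times a square.

`O` a local domain with uniformizer `π` and residue map `red : O → κ`. Let `U = π ^ (-u) U₀`, `V
= π ^ (-a) V₀` with `U₀`, `V₀` integral, `U₀ ≠ 0 mod π`; `U₀ W₀ = V₀² - π ^ (2a) f` (Gauss).
DESCENT: forms `(P, Q, S)` over `O[x]` with `Q² - P S = π ^ (2a) δ² f`, `δ = 1 mod π`, `P ≠ 0
mod π`, with values at `θ` in `U₀(θ) L²`: if `a ≥ 1` then modulo `π` the form is degenerate, `P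
= G p`, `Q = G q`, `A p + B q = 1`; in the basis `(A, B), (-q, p)` (determinant `1` modulo `π`)
the form is `(P', 0, 0)` modulo `π`, and `P' S'` is divisible by `π²`: divide the second vector
by `π`. For `a = 0`: by regularity there is a value which is prime to `f` modulo `π`, hence a
unit `E (θ)` of `O[θ]`. So `E(θ) = U₀(θ) l²`. The resultant with `f` shows that `u` is even:
`Res (f, U) = ± Res (U, V)²`.
-/

set_option autoImplicit false

open Polynomial

namespace Pool.Agent.HYP.M

/-- A local domain with a uniformizer and its residue map. -/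
structure Dv (O κ : Type) [CommRing O] [Field κ] (π : O) (red : O →+* κ) : Prop where
  surj : Function.Surjective red
  ker : ∀ a : O, red a = 0 ↔ π ∣ a
  reg : ∀ a : O, π * a = 0 → a = 0
  unit : ∀ a : O, red a ≠ 0 → IsUnit a

variable {O κ : Type} [CommRing O] [Field κ] {π : O} {red : O →+* κ}

theorem Dv.lift (D : Dv O κ π red) (p : κ[X]) : ∃ P : O[X], P.map red = p :=
  Polynomial.map_surjective red D.surj p

theorem Dv.dvd (D : Dv O κ π red) {P : O[X]} (h : P.map red = 0) : ∃ Q : O[X], P = C π * Q := by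
  have : C π ∣ P := by
    rw [C_dvd_iff_dvd_coeff]
    intro i
    rw [← D.ker, ← coeff_map, h, coeff_zero]
  exact this

theorem Dv.cancel (D : Dv O κ π red) {P Q : O[X]} (h : C π * P = C π * Q) : P = Q := by
  ext i
  have h1 := congrArg (fun R : O[X] => R.coeff i) h
  simp only [coeff_C_mul] at h1
  have h2 : π * (P.coeff i - Q.coeff i) = 0 := by rw [mul_sub, h1, sub_self]
  exact sub_eq_zero.mp (D.reg _ h2)

theorem Dv.red_pi (D : Dv O κ π red) : red π = 0 := (D.ker π).mpr dvd_rfl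

/-- values of a binary form -/
def Val {L : Type} [CommRing L] (ev : O[X] →+* L) (u₀ : L) (P Q S : O[X]) : Prop :=
  ∀ z w : L, ∃ l : L, ev P * z ^ 2 + 2 * ev Q * z * w + ev S * w ^ 2 = u₀ * l ^ 2

/-- The descent. -/
theorem Dv.descent (D : Dv O κ π red) {L : Type} [CommRing L] (ev : O[X] →+* L) (u₀ : L)
    {i : L} (hi : ev (C π) * i = 1) {f : O[X]} : ∀ (a : ℕ) (P Q S δ : O[X]), P.map red ≠ 0 →
      Q ^ 2 - P * S = C π ^ (2 * a) * δ ^ 2 * f → δ.map red = 1 → Val ev u₀ P Q S →
      ∃ P' Q' S' δ' : O[X], Q' ^ 2 - P' * S' = δ' ^ 2 * f ∧ δ'.map red = 1 ∧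
        Val ev u₀ P' Q' S' := by
  intro a
  induction a with
  | zero =>
    intro P Q S δ _ h hδ hv
    exact ⟨P, Q, S, δ, by rw [h]; ring, hδ, hv⟩
  | succ a ih =>
    intro P Q S δ hP h hδ hv
    -- modulo π
    have hbar : (Q.map red) ^ 2 = P.map red * S.map red := by
      have h1 := congrArg (Polynomial.map red) h
      simp only [Polynomial.map_sub, Polynomial.map_pow, Polynomial.map_mul, map_C, D.red_pi,
        map_zero] at h1
      rw [zero_pow (by omega), zero_mul, zero_mul, sub_eq_zero] at h1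
      exact h1
    classical
    obtain ⟨G, p₁, q₁, hG, hp₁, hq₁, A₁, B₁, hAB⟩ : ∃ G p₁ q₁ : κ[X], G ≠ 0 ∧
        P.map red = G * p₁ ∧ Q.map red = G * q₁ ∧ ∃ A₁ B₁ : κ[X], A₁ * p₁ + B₁ * q₁ = 1 := by
      set G := EuclideanDomain.gcd (P.map red) (Q.map red) with hG
      have hG0 : G ≠ 0 := fun h0 => hP (EuclideanDomain.gcd_eq_zero_iff.mp h0).1
      obtain ⟨p₁, hp₁⟩ := EuclideanDomain.gcd_dvd_left (P.map red) (Q.map red)
      obtain ⟨q₁, hq₁⟩ := EuclideanDomain.gcd_dvd_right (P.map red) (Q.map red)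
      refine ⟨G, p₁, q₁, hG0, hp₁, hq₁, EuclideanDomain.gcdA (P.map red) (Q.map red),
        EuclideanDomain.gcdB (P.map red) (Q.map red), ?_⟩
      have h1 := EuclideanDomain.gcd_eq_gcd_ab (P.map red) (Q.map red)
      apply mul_left_cancel₀ hG0
      calc G * (EuclideanDomain.gcdA (P.map red) (Q.map red) * p₁ +
            EuclideanDomain.gcdB (P.map red) (Q.map red) * q₁) =
            (G * p₁) * EuclideanDomain.gcdA (P.map red) (Q.map red) +
            (G * q₁) * EuclideanDomain.gcdB (P.map red) (Q.map red) := by ring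
        _ = G * 1 := by rw [← hp₁, ← hq₁, mul_one, hG]; exact h1.symm
    have hker : G * q₁ ^ 2 = p₁ * S.map red := by
      rw [hp₁, hq₁] at hbar
      apply mul_left_cancel₀ hG
      linear_combination hbar
    obtain ⟨p, hp⟩ := D.lift p₁
    obtain ⟨q, hq⟩ := D.lift q₁
    obtain ⟨A, hA⟩ := D.lift A₁
    obtain ⟨B, hB⟩ := D.lift B₁
    set P' := P * A ^ 2 + 2 * Q * A * B + S * B ^ 2 with hP'
    set Q₁ := -P * A * q + Q * (A * p - B * q) + S * B * p with hQ₁
    set S₁ := P * q ^ 2 - 2 * Q * q * p + S * p ^ 2 with hS₁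
    have hdet : Q₁ ^ 2 - P' * S₁ = (A * p + B * q) ^ 2 * (Q ^ 2 - P * S) := by
      rw [hP', hQ₁, hS₁]; ring
    have hback : (A * p + B * q) ^ 2 * P = p ^ 2 * P' - 2 * p * B * Q₁ + B ^ 2 * S₁ := by
      rw [hP', hQ₁, hS₁]; ring
    have hQ0 : Q₁.map red = 0 := by
      rw [hQ₁]
      simp only [Polynomial.map_add, Polynomial.map_mul, Polynomial.map_sub, Polynomial.map_neg,
        hp, hq, hA, hB, hp₁, hq₁]
      linear_combination -B₁ * hker
    have hS0 : S₁.map red = 0 := by
      rw [hS₁]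
      simp only [Polynomial.map_add, Polynomial.map_mul, Polynomial.map_sub, Polynomial.map_pow,
        Polynomial.map_ofNat, hp, hq, hp₁, hq₁]
      linear_combination -p₁ * hker
    have hone : (A * p + B * q).map red = 1 := by
      simp only [Polynomial.map_add, Polynomial.map_mul, hp, hq, hA, hB, hAB]
    have hP'0 : P'.map red ≠ 0 := by
      intro h0
      have h1 := congrArg (Polynomial.map red) hback
      rw [Polynomial.map_mul, Polynomial.map_pow, hone] at h1
      simp only [Polynomial.map_add, Polynomial.map_mul, Polynomial.map_sub, Polynomial.map_pow,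
        Polynomial.map_ofNat, h0, hQ0, hS0, mul_zero, sub_zero, add_zero, one_pow, one_mul] at h1
      exact hP h1
    obtain ⟨Q₂, hQ₂⟩ := D.dvd hQ0
    obtain ⟨S₂, hS₂⟩ := D.dvd hS0
    set δ₁ := (A * p + B * q) * δ with hδ₁
    have h1 : C π * Q₂ ^ 2 - P' * S₂ = C π ^ (2 * a + 1) * δ₁ ^ 2 * f := by
      apply D.cancel
      have : Q₁ ^ 2 - P' * S₁ = C π * (C π * Q₂ ^ 2 - P' * S₂) := by rw [hQ₂, hS₂]; ring
      rw [← this, hdet, h, hδ₁]
      ring
    have hS₂0 : S₂.map red = 0 := by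
      have h2 := congrArg (Polynomial.map red) h1
      simp only [Polynomial.map_sub, Polynomial.map_pow, Polynomial.map_mul, map_C, D.red_pi,
        map_zero] at h2
      rw [zero_pow (by omega), zero_mul, zero_mul, zero_mul, zero_sub, neg_eq_zero] at h2
      exact (mul_eq_zero.mp h2).resolve_left hP'0
    obtain ⟨S₃, hS₃⟩ := D.dvd hS₂0
    have h2 : Q₂ ^ 2 - P' * S₃ = C π ^ (2 * a) * δ₁ ^ 2 * f := by
      apply D.cancel
      have : C π * Q₂ ^ 2 - P' * S₂ = C π * (Q₂ ^ 2 - P' * S₃) := by rw [hS₃]; ring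
      rw [← this, h1]
      ring
    refine ih P' Q₂ S₃ δ₁ hP'0 h2 ?_ ?_
    · rw [hδ₁, Polynomial.map_mul, hone, hδ, one_mul]
    · intro z w
      obtain ⟨l, hl⟩ := hv (ev A * z - ev q * (i * w)) (ev B * z + ev p * (i * w))
      refine ⟨l, ?_⟩
      rw [← hl]
      have e1 : ev Q₁ = ev (C π) * ev Q₂ := by rw [hQ₂, map_mul]
      have e2 : ev S₁ = ev (C π) ^ 2 * ev S₃ := by rw [hS₂, hS₃, map_mul, map_mul]; ring
      have e3 : ev Q₂ = i * ev Q₁ := by rw [e1, ← mul_assoc, mul_comm i, hi, one_mul]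
      have e4 : ev S₃ = i ^ 2 * ev S₁ := by
        rw [e2, ← mul_assoc, ← mul_pow, mul_comm i, hi, one_pow, one_mul]
      rw [e3, e4, hP', hQ₁, hS₁]
      simp only [map_add, map_sub, map_mul, map_pow, map_neg, map_ofNat]
      ring

/-- The part of `f` which is prime to `P`. -/
theorem exists_part {κ : Type} [Field κ] (P : κ[X]) (f : κ[X]) (hf : f ≠ 0) :
    ∃ A : κ[X], A ∣ f ∧ ∀ p : κ[X], Irreducible p → p ∣ f → (p ∣ A ↔ ¬ p ∣ P) := by
  induction f using WfDvdMonoid.induction_on_irreducible with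
  | zero => exact absurd rfl hf
  | unit u hu =>
    exact ⟨1, one_dvd _, fun p hp hpu => absurd (isUnit_of_dvd_unit hpu hu) hp.not_isUnit⟩
  | mul a i ha hi ih =>
    obtain ⟨A, hA, h⟩ := ih ha
    by_cases hiP : i ∣ P
    · refine ⟨A, hA.mul_left i, ?_⟩
      intro p hp hpd
      rcases hp.prime.dvd_or_dvd hpd with h1 | h1
      · have hass := hp.associated_of_dvd hi h1
        have hpP : p ∣ P := (hass.dvd_iff_dvd_left).mpr hiP
        by_cases h2 : p ∣ a
        · exact h p hp h2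
        · exact ⟨fun h3 => absurd (h3.trans hA) h2, fun h3 => absurd hpP h3⟩
      · exact h p hp h1
    · refine ⟨i * A, mul_dvd_mul_left i hA, ?_⟩
      intro p hp hpd
      rcases hp.prime.dvd_or_dvd hpd with h1 | h1
      · have hass := hp.associated_of_dvd hi h1
        refine ⟨fun _ h3 => hiP (hass.dvd_iff_dvd_left.mp h3), fun _ => h1.mul_right A⟩
      · constructor
        · intro h2
          rcases hp.prime.dvd_or_dvd h2 with h3 | h3
          · exact fun h4 => hiP ((hp.associated_of_dvd hi h3).dvd_iff_dvd_left.mp h4)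
          · exact (h p hp h1).mp h3
        · intro h2
          exact ((h p hp h1).mpr h2).mul_left i

/-- A value which is prime to `f` modulo `π`. -/
theorem Dv.value (D : Dv O κ π red) {f : O[X]} (hf : f.Monic) (hreg : RegP π f)
    {P Q S δ : O[X]} (h : Q ^ 2 - P * S = δ ^ 2 * f) (hδ : δ.map red = 1) :
    ∃ z w : O[X], IsCoprime (f.map red)
      ((P * z ^ 2 + 2 * Q * z * w + S * w ^ 2).map red) := by
  have hf0 : f.map red ≠ 0 := (hf.map red).ne_zero
  obtain ⟨A, -, hA⟩ := exists_part (P.map red) (f.map red) hf0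
  obtain ⟨w, hw⟩ := D.lift A
  refine ⟨P, w, isCoprime_of_irreducible_dvd (fun h0 => hf0 h0.1) ?_⟩
  intro p hp hpf hpE
  simp only [Polynomial.map_add, Polynomial.map_mul, Polynomial.map_pow, Polynomial.map_ofNat,
    hw] at hpE
  have hbar := congrArg (Polynomial.map red) h
  simp only [Polynomial.map_sub, Polynomial.map_mul, Polynomial.map_pow, hδ, one_pow,
    one_mul] at hbar
  by_cases hpP : p ∣ P.map red
  · have hpA : ¬ p ∣ A := fun h1 => (hA p hp hpf).mp h1 hpP
    have hpS : p ∣ S.map red := by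
      have h1 : p ∣ S.map red * A ^ 2 := by
        have h2 : p ∣ P.map red * P.map red ^ 2 + 2 * Q.map red * P.map red * A :=
          dvd_add (hpP.mul_right _) ((hpP.mul_left _).mul_right _)
        exact (dvd_add_right h2).mp hpE
      rcases hp.prime.dvd_or_dvd h1 with h2 | h2
      · exact h2
      · exact absurd (hp.prime.dvd_of_dvd_pow h2) hpA
    have hpQ : p ∣ Q.map red := by
      have h1 : p ∣ Q.map red ^ 2 := by
        have h2 : Q.map red ^ 2 = f.map red + P.map red * S.map red := by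
          rw [← hbar]; ring
        rw [h2]
        exact dvd_add hpf (hpP.mul_right _)
      exact hp.prime.dvd_of_dvd_pow h1
    -- a monic lift of `p`
    have hlc : p.leadingCoeff ≠ 0 := leadingCoeff_ne_zero.mpr hp.ne_zero
    set p₁ := p * C p.leadingCoeff⁻¹ with hp₁
    have hm₁ : p₁.Monic := monic_mul_leadingCoeff_inv hp.ne_zero
    have hp₁p : p₁ ∣ p := by
      refine ⟨C p.leadingCoeff, ?_⟩
      rw [hp₁, mul_assoc, ← C_mul, inv_mul_cancel₀ hlc, C_1, mul_one]
    have hd₁ : 1 ≤ p₁.natDegree := by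
      rw [hp₁, natDegree_mul_C (inv_ne_zero hlc)]
      exact hp.natDegree_pos
    obtain ⟨p', hp', hp'd, hp'm⟩ := lifts_and_natDegree_eq_and_monic
      (show p₁ ∈ lifts red from (mem_lifts _).mpr (D.lift p₁)) hm₁
    have split : ∀ R : O[X], p ∣ R.map red → ∃ R₁ R₂ : O[X], R = p' * R₁ + C π * R₂ := by
      intro R hR
      obtain ⟨T, hT⟩ := hp₁p.trans hR
      obtain ⟨R₁, hR₁⟩ := D.lift T
      have h1 : (R - p' * R₁).map red = 0 := by
        rw [Polynomial.map_sub, Polynomial.map_mul, hp', hR₁, ← hT, sub_self]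
      obtain ⟨R₂, hR₂⟩ := D.dvd h1
      exact ⟨R₁, R₂, by rw [← hR₂]; ring⟩
    obtain ⟨P₁, P₂, hP⟩ := split P hpP
    obtain ⟨Q₁, Q₂, hQ⟩ := split Q hpQ
    obtain ⟨S₁, S₂, hS⟩ := split S hpS
    obtain ⟨f₁, f₂, hf'⟩ := split f hpf
    obtain ⟨δ₁, hδ₁⟩ := D.dvd (P := δ - 1) (by
      rw [Polynomial.map_sub, hδ, Polynomial.map_one, sub_self])
    have hδ' : δ = 1 + C π * δ₁ := by rw [← hδ₁]; ring
    refine hreg p' (Q₂ ^ 2 - P₂ * S₂ - (2 * δ₁ + C π * δ₁ ^ 2) * f₂)
      (2 * Q₁ * Q₂ - P₁ * S₂ - P₂ * S₁ - (2 * δ₁ + C π * δ₁ ^ 2) * f₁)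
      (Q₁ ^ 2 - P₁ * S₁) hp'm (by rw [hp'd]; exact hd₁) ?_
    have e1 : f = Q ^ 2 - P * S - C π * (2 * δ₁ + C π * δ₁ ^ 2) * f := by
      rw [h, hδ']; ring
    calc f = Q ^ 2 - P * S - C π * (2 * δ₁ + C π * δ₁ ^ 2) * f := e1
      _ = Q ^ 2 - P * S - C π * (2 * δ₁ + C π * δ₁ ^ 2) * (p' * f₁ + C π * f₂) := by
          rw [← hf']
      _ = _ := by rw [hP, hQ, hS, map_pow]; ring
  · have hpA : p ∣ A := (hA p hp hpf).mpr hpP
    have h1 : p ∣ P.map red * P.map red ^ 2 := by
      have h2 : p ∣ 2 * Q.map red * P.map red * A + S.map red * A ^ 2 :=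
        dvd_add (hpA.mul_left _) ((dvd_pow hpA two_ne_zero).mul_left _)
      have h3 : P.map red * P.map red ^ 2 + 2 * Q.map red * P.map red * A + S.map red * A ^ 2 =
        P.map red * P.map red ^ 2 + (2 * Q.map red * P.map red * A + S.map red * A ^ 2) := by ring
      rw [h3] at hpE
      exact (dvd_add_left h2).mp hpE
    rcases hp.prime.dvd_or_dvd h1 with h2 | h2
    · exact hpP h2
    · exact hpP (hp.prime.dvd_of_dvd_pow h2)

/-- Coprimality may be checked modulo `π`. -/
theorem Dv.coprime (D : Dv O κ π red) {f E : O[X]} (hf : f.Monic)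
    (h : IsCoprime (f.map red) (E.map red)) : IsCoprime f E := by
  rw [← isUnit_resultant_iff_isCoprime hf]
  apply D.unit
  have h1 := resultant_map_map f E f.natDegree E.natDegree red
  rw [← h1]
  have h2 : (f.map red).natDegree = f.natDegree := hf.natDegree_map red
  rw [← h2, res_deg (hf.map red) _ (natDegree_map_le)]
  exact resultant_ne_zero _ _ h

/-- Gauss' lemma. -/
theorem Dv.gauss (D : Dv O κ π red) {U : O[X]} (hU : U.map red ≠ 0) : ∀ (b : ℕ) (W R : O[X]),
    U * W = C π ^ b * R → ∃ W₀ : O[X], U * W₀ = R := by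
  intro b
  induction b with
  | zero =>
    intro W R h
    exact ⟨W, by rw [h, pow_zero, one_mul]⟩
  | succ b ih =>
    intro W R h
    have h1 := congrArg (Polynomial.map red) h
    rw [Polynomial.map_mul, Polynomial.map_mul, Polynomial.map_pow, map_C, D.red_pi, map_zero,
      zero_pow (by omega), zero_mul] at h1
    obtain ⟨W', hW'⟩ := D.dvd ((mul_eq_zero.mp h1).resolve_left hU)
    refine ih W' R (D.cancel ?_)
    rw [hW'] at h
    linear_combination h

end Pool.Agent.HYP.M
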