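import Pool.Agent.Lib.HYP.Def2
import Pool.Agent.Lib.HYP.F.Mum
import Pool.Agent.Lib.HYP.Def2
import Pool.Agent.Lib.BSDP.D.Ord

/-!
Module F.Img (section 8, end). Over a local field the image of a point of the Jacobian of
`y ^ 2 = f (x)`, `f` regular of odd degree, is a unit of `O[θ]` times a square.
-/

set_option autoImplicit false

open Polynomial

namespace Pool.Agent.HYP

open Pool.Agent.BSDP

variable {F : Type} [Field F]

theorem dvLoc (L : Loc F) :
    M.Dv L.O (IsLocalRing.ResidueField L.O) (piO L) (IsLocalRing.residue L.O) where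
  surj := IsLocalRing.residue_surjective
  ker := by
    intro a
    rw [IsLocalRing.residue_eq_zero_iff, L.O.valuation_lt_one_iff, L.pi_gen]
    constructor
    · rintro ⟨y, hy, h⟩
      exact ⟨⟨y, hy⟩, Subtype.ext h⟩
    · rintro ⟨y, h⟩
      exact ⟨y, y.2, congrArg Subtype.val h⟩
  reg := by
    intro a h
    have h1 : L.pi * (a : F) = 0 := congrArg Subtype.val h
    exact Subtype.ext ((mul_eq_zero.mp h1).resolve_left L.pi_ne)
  unit := by
    intro a h
    exact (IsLocalRing.residue_ne_zero_iff_isUnit a).mp h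

theorem exists_liftO (L : Loc F) {P : F[X]} (h : Coef L P) :
    ∃ P₀ : L.O[X], P₀.map L.O.subtype = P := by
  have : P ∈ lifts L.O.subtype := by
    rw [lifts_iff_coeff_lifts]
    intro i
    exact ⟨⟨P.coeff i, h i⟩, rfl⟩
  exact (mem_lifts P).mp this

theorem exists_liftO_monic (L : Loc F) {P : F[X]} (h : Coef L P) (hm : P.Monic) :
    ∃ P₀ : L.O[X], P₀.map L.O.subtype = P ∧ P₀.natDegree = P.natDegree ∧ P₀.Monic := by
  have : P ∈ lifts L.O.subtype := by
    rw [lifts_iff_coeff_lifts]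
    intro i
    exact ⟨⟨P.coeff i, h i⟩, rfl⟩
  exact lifts_and_natDegree_eq_and_monic this hm

theorem coef_map (L : Loc F) (P : L.O[X]) : Coef L (P.map L.O.subtype) := by
  intro i
  rw [coeff_map]
  exact (P.coeff i).2

theorem regP_of_reg (L : Loc F) {f : L.O[X]} (h : Reg L (f.map L.O.subtype)) :
    RegP (piO L) f := by
  intro p a b c hp hd he
  refine h (p.map L.O.subtype) (a.map L.O.subtype) (b.map L.O.subtype) (c.map L.O.subtype)
    (hp.map _) ?_ (coef_map L p) (coef_map L a) (coef_map L b) (coef_map L c) ?_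
  · rw [hp.natDegree_map]; exact hd
  · conv_lhs => rw [he]
    simp only [Polynomial.map_add, Polynomial.map_mul, Polynomial.map_pow, map_C]
    rfl

theorem exists_scale (L : Loc F) (P : F[X]) :
    ∃ n : ℕ, ∀ m : ℕ, n ≤ m → Coef L (C (L.pi ^ m) * P) := by
  have h1 : ∀ x : F, ∃ n : ℕ, ∀ m : ℕ, n ≤ m → L.pi ^ m * x ∈ L.O := by
    intro x
    by_cases hx : x = 0
    · exact ⟨0, fun m _ => by rw [hx, mul_zero]; exact zero_mem _⟩
    · refine ⟨(L.ord x).natAbs, fun m hm => ?_⟩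
      rw [L.mem_iff_ord (mul_ne_zero (pow_ne_zero _ L.pi_ne) hx),
        L.ord_mul (pow_ne_zero _ L.pi_ne) hx, L.ord_pow L.pi_ne, L.ord_pi]
      omega
  choose n hn using fun i : ℕ => h1 (P.coeff i)
  refine ⟨(Finset.range (P.natDegree + 1)).sup n, fun m hm i => ?_⟩
  rw [coeff_C_mul]
  by_cases hi : i ≤ P.natDegree
  · exact hn i m ((Finset.le_sup (Finset.mem_range.mpr (Nat.lt_succ_of_le hi))).trans hm)
  · rw [coeff_eq_zero_of_natDegree_lt (not_le.mp hi), mul_zero]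
    exact zero_mem _

/-- the primitive multiple of a monic polynomial -/
theorem exists_prim (L : Loc F) {U : F[X]} (hU : U.Monic) : ∃ (u : ℕ) (U₀ : L.O[X]),
    U₀.map L.O.subtype = C (L.pi ^ u) * U ∧ U₀.map (IsLocalRing.residue L.O) ≠ 0 := by
  classical
  have hex : ∃ n : ℕ, Coef L (C (L.pi ^ n) * U) := by
    obtain ⟨n, hn⟩ := exists_scale L U
    exact ⟨n, hn n le_rfl⟩
  obtain ⟨U₀, hU₀⟩ := exists_liftO L (Nat.find_spec hex)
  refine ⟨Nat.find hex, U₀, hU₀, fun h0 => ?_⟩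
  obtain ⟨U₁, hU₁⟩ := (dvLoc L).dvd h0
  have hinj : Function.Injective (Polynomial.map L.O.subtype) :=
    map_injective _ Subtype.val_injective
  rcases Nat.eq_zero_or_pos (Nat.find hex) with hz | hz
  · rw [hz, pow_zero, C_1, one_mul] at hU₀
    have h1 : U₀.coeff U.natDegree = 1 := by
      have h2 := congrArg (fun P : F[X] => P.coeff U.natDegree) hU₀
      simp only [coeff_map, hU.coeff_natDegree] at h2
      exact Subtype.ext h2
    have h2 := congrArg (fun P => P.coeff U.natDegree) h0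
    simp only [coeff_map, h1, map_one, coeff_zero] at h2
    exact one_ne_zero h2
  · obtain ⟨n, hn⟩ : ∃ n, Nat.find hex = n + 1 := ⟨Nat.find hex - 1, by omega⟩
    refine Nat.find_min hex (m := n) (by omega) ?_
    have h1 : C L.pi * (C (L.pi ^ n) * U) = C L.pi * U₁.map L.O.subtype := by
      rw [hn, hU₁, Polynomial.map_mul, map_C, pow_succ, map_mul] at hU₀
      have : C (L.O.subtype (piO L)) = C L.pi := rfl
      rw [this] at hU₀
      rw [hU₀]
      ring
    have h2 : C (L.pi ^ n) * U = U₁.map L.O.subtype :=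
      mul_left_cancel₀ (C_ne_zero.mpr L.pi_ne) h1
    rw [h2]
    exact coef_map L U₁

/-- **A Mumford pair gives a unit of `O[θ]` times a square.** -/
theorem unitAt_mk (L : Loc F) {f U V : F[X]} (hf : f.Monic) (hO : Coef L f)
    (hodd : Odd f.natDegree) (hreg : Reg L f) (hU : U.Monic) (hc : IsCoprime U f)
    (hd : U ∣ V ^ 2 - f) : UnitAt L (AdjoinRoot.mk f U) := by
  obtain ⟨f₀, hf₀, hfd, hfm⟩ := exists_liftO_monic L hO hf
  have D := dvLoc L
  have hreg₀ : RegP (piO L) f₀ := regP_of_reg L (by rw [hf₀]; exact hreg)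
  obtain ⟨u, U₀, hU₀, hU₀0⟩ := exists_prim L hU
  obtain ⟨W, hW⟩ := hd
  obtain ⟨n₁, hn₁⟩ := exists_scale L V
  set a := n₁ + u with ha
  obtain ⟨V₀, hV₀⟩ := exists_liftO L (hn₁ a (by omega))
  obtain ⟨n₂, hn₂⟩ := exists_scale L (C (L.pi ^ (2 * a - u)) * W)
  obtain ⟨W₂, hW₂⟩ := exists_liftO L (hn₂ n₂ le_rfl)
  have hinj : Function.Injective (Polynomial.map L.O.subtype) :=
    map_injective _ Subtype.val_injective
  have hpi : L.O.subtype (piO L) = L.pi := rfl
  -- Gauss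
  have hG : U₀ * W₂ = C (piO L) ^ n₂ * (V₀ ^ 2 - C (piO L) ^ (2 * a) * f₀) := by
    apply hinj
    simp only [Polynomial.map_mul, Polynomial.map_sub, Polynomial.map_pow, map_C, hpi, hU₀, hW₂,
      hV₀, hf₀]
    have e1 : C (L.pi ^ u) * C (L.pi ^ (2 * a - u)) = (C (L.pi ^ a)) ^ 2 := by
      rw [← C_mul, ← pow_add, ← C_pow, ← pow_mul]
      congr 2
      omega
    have e2 : (C L.pi : F[X]) ^ (2 * a) = (C (L.pi ^ a)) ^ 2 := by
      rw [C_pow, ← pow_mul, mul_comm]
    rw [e2, ← C_pow]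
    calc C (L.pi ^ u) * U * (C (L.pi ^ n₂) * (C (L.pi ^ (2 * a - u)) * W)) =
          C (L.pi ^ n₂) * ((C (L.pi ^ u) * C (L.pi ^ (2 * a - u))) * (U * W)) := by ring
      _ = C (L.pi ^ n₂) * ((C (L.pi ^ a)) ^ 2 * (V ^ 2 - f)) := by rw [e1, hW]
      _ = _ := by ring
  obtain ⟨W₀, hW₀⟩ := D.gauss hU₀0 n₂ W₂ _ hG
  -- the descent
  set ev : L.O[X] →+* AdjoinRoot f := (AdjoinRoot.mk f).comp (mapRingHom L.O.subtype) with hev
  have hevx : ∀ P : L.O[X], ev P = AdjoinRoot.mk f (P.map L.O.subtype) := fun P => rfl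
  have hevf : ev f₀ = 0 := by rw [hevx, hf₀, AdjoinRoot.mk_self]
  have hevpi : ev (C (piO L)) = AdjoinRoot.mk f (C L.pi) := by rw [hevx, map_C, hpi]
  have hi : ev (C (piO L)) * AdjoinRoot.mk f (C L.pi⁻¹) = 1 := by
    rw [hevpi, ← map_mul, ← C_mul, mul_inv_cancel₀ L.pi_ne, C_1, map_one]
  have hUu : IsUnit (AdjoinRoot.mk f U) := by
    obtain ⟨s, t, hst⟩ := hc
    have h1 := congrArg (AdjoinRoot.mk f) hst
    rw [map_add, map_mul, map_mul, AdjoinRoot.mk_self, mul_zero, add_zero, map_one] at h1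
    exact IsUnit.of_mul_eq_one_right _ h1
  have hpiu : ∀ n : ℕ, IsUnit (AdjoinRoot.mk f (C (L.pi ^ n))) := fun n =>
    ((isUnit_iff_ne_zero.mpr (pow_ne_zero n L.pi_ne)).map C).map (AdjoinRoot.mk f)
  have hU₀u : IsUnit (ev U₀) := by
    rw [hevx, hU₀, map_mul]
    exact (hpiu u).mul hUu
  obtain ⟨v₀, hv₀⟩ := hU₀u.exists_right_inv
  have hval : M.Val ev (ev U₀) U₀ V₀ W₀ := by
    intro z w
    refine ⟨v₀ * (ev U₀ * z + ev V₀ * w), ?_⟩
    have h1 : ev U₀ * ev W₀ = ev V₀ ^ 2 := by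
      rw [← map_mul, hW₀, map_sub, map_mul, hevf, mul_zero, sub_zero, map_pow]
    have h2 : ev W₀ = v₀ * ev V₀ ^ 2 := by
      rw [← h1, ← mul_assoc, mul_comm v₀, hv₀, one_mul]
    rw [h2]
    linear_combination (-((1 + ev U₀ * v₀) * (ev U₀ * z ^ 2 + 2 * ev V₀ * z * w) +
      v₀ * ev V₀ ^ 2 * w ^ 2)) * hv₀
  obtain ⟨P', Q', S', δ', hdet, hδ', hval'⟩ := D.descent ev (ev U₀) hi (f := f₀) a
    U₀ V₀ W₀ 1 hU₀0
    (by rw [hW₀]; ring) (Polynomial.map_one _) hval
  obtain ⟨z, w, hcop⟩ := D.value hfm hreg₀ hdet hδ'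
  set E := P' * z ^ 2 + 2 * Q' * z * w + S' * w ^ 2 with hE
  have hcopO := D.coprime hfm hcop
  obtain ⟨s, t, hst⟩ := id hcopO
  have hEt : ev E * ev t = 1 := by
    have h1 := congrArg ev hst
    rw [map_add, map_mul, map_mul, hevf, mul_zero, zero_add, map_one] at h1
    rw [mul_comm]; exact h1
  obtain ⟨l, hl⟩ := hval' (ev z) (ev w)
  have hEl : ev E = ev U₀ * l ^ 2 := by
    rw [← hl, hE]
    simp only [map_add, map_mul, map_pow, map_ofNat]
  have hll : l * (ev U₀ * l * ev t) = 1 := by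
    rw [← hEt, hEl]; ring
  set l' := ev U₀ * l * ev t with hl'
  obtain ⟨lt, hlt⟩ := AdjoinRoot.mk_surjective l
  have hdvd : f ∣ E.map L.O.subtype - U₀.map L.O.subtype * lt ^ 2 := by
    rw [← AdjoinRoot.mk_eq_mk, map_mul, map_pow, hlt, ← hevx, ← hevx]
    exact hEl
  have hres := res_congr hf hdvd
  have hfdeg : f.natDegree = f₀.natDegree := hfd.symm
  have hr1 : resultant f (E.map L.O.subtype) = L.O.subtype (resultant f₀ E) := by
    have h1 := resultant_map_map f₀ E f₀.natDegree E.natDegree L.O.subtype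
    rw [← h1, hf₀, ← hfdeg]
    exact (res_deg hf _ natDegree_map_le).symm
  have hunit : IsUnit (resultant f₀ E) := (isUnit_resultant_iff_isCoprime hfm).mpr hcopO
  have hv1 : L.O.valuation (L.O.subtype (resultant f₀ E)) = 1 :=
    (L.O.valuation_eq_one_iff _).mp hunit
  have hne : L.O.subtype (resultant f₀ E) ≠ 0 := by
    intro h0
    rw [h0, map_zero] at hv1
    exact zero_ne_one hv1
  have hord0 : L.ord (L.O.subtype (resultant f₀ E)) = 0 := (L.ord_eq_zero_iff hne).mpr hv1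
  rw [hr1, res_mul hf, res_pow hf, hU₀, res_C_mul _ _ hf, res_mumford hU ⟨W, hW⟩] at hres
  have hm1 : ∀ n : ℕ, L.ord ((-1 : F) ^ n) = 0 := by
    intro n
    have h1 : L.ord (-1 : F) = 0 := by
      have h2 := L.ord_pow (x := (-1 : F)) (by norm_num) 2
      rw [neg_one_sq, L.ord_one] at h2
      push_cast at h2
      omega
    rw [L.ord_pow (by norm_num), h1, mul_zero]
  have hprod : (L.pi ^ u) ^ f.natDegree * ((-1) ^ (f.natDegree * U.natDegree) *
      resultant U V ^ 2) * resultant f lt ^ 2 ≠ 0 := by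
    rw [← hres]; exact hne
  have hx1 : resultant f lt ≠ 0 := by
    intro h0
    exact hprod (by rw [h0]; ring)
  have hx2 : resultant U V ≠ 0 := by
    intro h0
    exact hprod (by rw [h0]; ring)
  have hx3 : (L.pi ^ u) ^ f.natDegree ≠ 0 := pow_ne_zero _ (pow_ne_zero _ L.pi_ne)
  have hx4 : (-1 : F) ^ (f.natDegree * U.natDegree) ≠ 0 := pow_ne_zero _ (by norm_num)
  have hordeq := hord0
  rw [hres, L.ord_mul (mul_ne_zero hx3 (mul_ne_zero hx4 (pow_ne_zero _ hx2)))
    (pow_ne_zero _ hx1), L.ord_mul hx3 (mul_ne_zero hx4 (pow_ne_zero _ hx2)),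
    L.ord_mul hx4 (pow_ne_zero _ hx2), L.ord_pow (pow_ne_zero _ L.pi_ne), L.ord_pow L.pi_ne,
    L.ord_pi, hm1, L.ord_pow hx2, L.ord_pow hx1] at hordeq
  have hev2 : Even (f.natDegree * u) := by
    rw [← Int.even_coe_nat]
    refine ⟨-(L.ord (resultant U V) + L.ord (resultant f lt)), ?_⟩
    push_cast at hordeq ⊢
    linarith
  have hevu : Even u := by
    rcases Nat.even_mul.mp hev2 with h1 | h1
    · exact absurd h1 (Nat.not_even_iff_odd.mpr hodd)
    · exact h1
  obtain ⟨j, hj⟩ := hevu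
  refine ⟨ev E, ev t, AdjoinRoot.mk f (C (L.pi ^ j)⁻¹) * l', ?_, ?_, hEt, ?_, ?_⟩
  · exact ⟨E.map L.O.subtype, coef_map L E, rfl⟩
  · exact ⟨t.map L.O.subtype, coef_map L t, rfl⟩
  · refine IsUnit.mul ?_ (IsUnit.of_mul_eq_one_right _ hll)
    exact ((isUnit_iff_ne_zero.mpr (inv_ne_zero (pow_ne_zero j L.pi_ne))).map C).map _
  · have h1 : AdjoinRoot.mk f (C (L.pi ^ j)⁻¹) ^ 2 * ev U₀ = AdjoinRoot.mk f U := by
      rw [hevx, hU₀, ← map_pow, ← map_mul, ← mul_assoc, ← C_pow, ← C_mul]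
      have : (L.pi ^ j)⁻¹ ^ 2 * L.pi ^ u = 1 := by
        rw [hj, inv_pow, ← pow_mul, ← two_mul, mul_comm 2 j]
        exact inv_mul_cancel₀ (pow_ne_zero _ L.pi_ne)
      rw [this, C_1, one_mul]
    rw [← h1, hEl]
    linear_combination (-(AdjoinRoot.mk f (C (L.pi ^ j)⁻¹) ^ 2 * ev U₀) * (1 + l * l')) * hll

/-- **The local image consists of units times squares**, if `f` is regular of odd degree. -/
theorem unitAt_of_image (L : Loc F) {f : F[X]} (hf : f.Monic) (hO : Coef L f)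
    (hodd : Odd f.natDegree) (hreg : Reg L f) {g : ℕ} {c : AdjoinRoot f} (h : Image f g c) :
    UnitAt L c := by
  obtain ⟨U, V, hM, y, hy, rfl⟩ := h
  obtain ⟨e, e', y', he, he', hee, hy', h1⟩ := unitAt_mk L hf hO hodd hreg hM.monic hM.cop hM.dvd
  have hneg : ∀ (n : ℕ) (x : AdjoinRoot f), IntE L x → IntE L ((-1) ^ n * x) := by
    rintro n x ⟨P, hP, rfl⟩
    refine ⟨C ((-1) ^ n) * P, fun i => ?_, ?_⟩
    · rw [coeff_C_mul]
      exact mul_mem (pow_mem (neg_mem (one_mem _)) _) (hP i)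
    · rw [map_mul, map_pow, map_neg, C_1, map_pow, map_neg, map_one]
  refine ⟨(-1) ^ U.natDegree * e, (-1) ^ U.natDegree * e', y' * y, hneg _ _ he, hneg _ _ he',
    ?_, hy'.mul hy, ?_⟩
  · have : ((-1 : AdjoinRoot f) ^ U.natDegree) * (-1) ^ U.natDegree = 1 := by
      rw [← pow_add, Even.neg_one_pow ⟨_, rfl⟩]
    linear_combination (e * e') * this + hee
  · rw [h1]; ring

end Pool.Agent.HYP
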