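import Pool.Agent.Lib.HYP.Def2
import Pool.Agent.Lib.BSDP.D.Res

/-!
Module F.RegT of MP_950c68_ag (genus g). Local facts at the place of a prime `π` of `k[t]`: the residue
field, coefficients, regularity.

PROOF. `φ p = (placeOf π hπ).toCompletion (cc p) ∈ L.O` (`loc_mem`), `V (φ p) < 1 ↔ π ∣ p` (`loc_lt`),
density modulo the maximal ideal: `loc_dense`. `exists_resHom`: the ring homomorphism
`k[X] → L.O → ResidueField L.O` kills `π`, hence factors through `AdjoinRoot π` (`AdjoinRoot.mk π` is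
surjective with kernel `(π)`: `Ideal.Quotient.lift`; here `AdjoinRoot π = k[X] ⧸ span {π}` is used as
`k[t] / π`); injective because `AdjoinRoot π` is a field, surjective by `loc_dense`.
`coef_loc`: coefficientwise `loc_mem`. `dense2`: every `u ∈ L.O` is `φ p + (L.pi) ^ 2 y`, `y ∈ L.O`: twice
`loc_dense`: `u = φ p₀ + u₁` with `V u₁ < 1`, `u₁ = φ π * u₂` with `u₂ ∈ L.O` (`V (φ π) = V L.pi`,
`loc_pi`, `pi_gen`), `u₂ = φ p₁ + u₃`, `V u₃ < 1`.
`reg_loc`: suppose `f_v = C (L.pi ^ 2) * a + C L.pi * p * b + p ^ 2 * c` with `p` monic, coefficients in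
`L.O`. `L.pi = φ π * ε` with `ε` a unit of `L.O`. Choose `p', b', c' : k[X][X]`, `p'` monic of the same degree
as `p`, with coefficients congruent modulo `L.pi ^ 2` to those of `p`, `ε b`, `c` (`dense2`). Then
`f - C π * p' * b' - p' ^ 2 * c'` has coefficients `r ∈ k[X]` with `V (φ r) ≤ V (L.pi ^ 2)`, so `π ^ 2 ∣ r`
(`loc_lt`, twice: `π ∣ r`, `r = π s`, `V (φ s) ≤ V (L.pi) < 1`, `π ∣ s`). So
`f = C (π ^ 2) * a' + C π * p' * b' + p' ^ 2 * c'`, a contradiction with `RegP`.
-/

set_option autoImplicit false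

open Polynomial

namespace Pool.Agent.HYP

open Pool.Agent.BSDP

variable {k : Type} [Field k] {π : k[X]} (hπ : Irreducible π) (L : LocAt (BSDFF.placeOf π hπ))

/-- The image of a polynomial in the valuation ring. -/
noncomputable def toO (p : k[X]) : L.O :=
  ⟨(BSDFF.placeOf π hπ).toCompletion (cc p), loc_mem hπ L p⟩

private theorem tc_mul (p q : k[X]) : (BSDFF.placeOf π hπ).toCompletion (cc (p * q)) =
      (BSDFF.placeOf π hπ).toCompletion (cc p) * (BSDFF.placeOf π hπ).toCompletion (cc q) :=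
  ((BSDFF.placeOf π hπ).toCompletion.comp (algebraMap k[X] (RatFunc k))).map_mul p q

private theorem tc_add (p q : k[X]) : (BSDFF.placeOf π hπ).toCompletion (cc (p + q)) =
      (BSDFF.placeOf π hπ).toCompletion (cc p) + (BSDFF.placeOf π hπ).toCompletion (cc q) :=
  ((BSDFF.placeOf π hπ).toCompletion.comp (algebraMap k[X] (RatFunc k))).map_add p q

/-- the ring homomorphism `k[X] → L.O` -/
private noncomputable def toOHom : k[X] →+* L.O where
  toFun p := toO hπ L p
  map_one' := Subtype.ext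
    ((BSDFF.placeOf π hπ).toCompletion.comp (algebraMap k[X] (RatFunc k))).map_one
  map_zero' := Subtype.ext
    ((BSDFF.placeOf π hπ).toCompletion.comp (algebraMap k[X] (RatFunc k))).map_zero
  map_mul' p q := Subtype.ext (tc_mul hπ p q)
  map_add' p q := Subtype.ext (tc_add hπ p q)

private theorem res_zero (u : L.O) :
    IsLocalRing.residue L.O u = 0 ↔ L.O.valuation (u : (BSDFF.placeOf π hπ).ring.valuation.Completion) < 1 := by
  rw [IsLocalRing.residue_eq_zero_iff]
  exact ValuationSubring.valuation_lt_one_iff L.O u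

private theorem toO_zero (p : k[X]) : IsLocalRing.residue L.O (toO hπ L p) = 0 ↔ π ∣ p := by
  rw [res_zero hπ L]
  exact loc_lt hπ L p

theorem exists_resHom : ∃ ψ : AdjoinRoot π →+* IsLocalRing.ResidueField L.O,
    Function.Bijective ψ ∧
      ∀ p : k[X], ψ (AdjoinRoot.mk π p) = IsLocalRing.residue L.O (toO hπ L p) := by
  have hΦ : ∀ a ∈ Ideal.span {π},
      ((IsLocalRing.residue L.O).comp (toOHom hπ L)) a = 0 := by
    intro a ha
    exact (toO_zero hπ L a).2 (Ideal.mem_span_singleton.1 ha)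
  have h1 : ∃ ψ : AdjoinRoot π →+* IsLocalRing.ResidueField L.O,
      ∀ p : k[X], ψ (AdjoinRoot.mk π p) = IsLocalRing.residue L.O (toO hπ L p) :=
    ⟨Ideal.Quotient.lift (Ideal.span {π}) ((IsLocalRing.residue L.O).comp (toOHom hπ L)) hΦ,
      fun p => Ideal.Quotient.lift_mk _ _ hΦ⟩
  obtain ⟨ψ, hψ⟩ := h1
  refine ⟨ψ, ⟨?_, ?_⟩, hψ⟩
  · rw [injective_iff_map_eq_zero]
    intro a ha
    obtain ⟨p, rfl⟩ := AdjoinRoot.mk_surjective a
    rw [hψ, toO_zero hπ L] at ha
    exact AdjoinRoot.mk_eq_zero.2 ha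
  · intro x
    obtain ⟨u, rfl⟩ := IsLocalRing.residue_surjective x
    obtain ⟨p, hp⟩ := loc_dense hπ L u u.2
    refine ⟨AdjoinRoot.mk π p, ?_⟩
    rw [hψ, eq_comm, ← sub_eq_zero, ← map_sub, res_zero hπ L]
    exact hp

theorem coef_loc (f : k[X][X]) :
    Coef L.toLoc ((fK f).map (BSDFF.placeOf π hπ).toCompletion) := by
  intro i
  rw [Polynomial.coeff_map, Polynomial.coeff_map]
  exact loc_mem hπ L _

/-- `φ π = L.pi * ε` and `L.pi = φ π * ε'`, with `ε, ε' ∈ L.O` -/
private theorem phi_pi : ∃ e e' : (BSDFF.placeOf π hπ).ring.valuation.Completion, e ∈ L.O ∧ e' ∈ L.O ∧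
    (BSDFF.placeOf π hπ).toCompletion (cc π) = L.pi * e ∧
    L.pi = (BSDFF.placeOf π hπ).toCompletion (cc π) * e' := by
  have h1 := loc_pi hπ L
  have h0 : (BSDFF.placeOf π hπ).toCompletion (cc π) ≠ 0 := by
    intro h
    rw [h, map_zero] at h1
    exact L.pi_ne ((Valuation.zero_iff _).1 h1.symm)
  have hp := L.pi_ne
  refine ⟨(BSDFF.placeOf π hπ).toCompletion (cc π) / L.pi,
    L.pi / (BSDFF.placeOf π hπ).toCompletion (cc π), ?_, ?_, ?_, ?_⟩
  · rw [← ValuationSubring.valuation_le_one_iff, map_div₀, h1]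
    exact div_self_le_one _
  · rw [← ValuationSubring.valuation_le_one_iff, map_div₀, h1]
    exact div_self_le_one _
  · rw [mul_div_cancel₀ _ hp]
  · rw [mul_div_cancel₀ _ h0]

theorem dense2 (u : (BSDFF.placeOf π hπ).ring.valuation.Completion) (hu : u ∈ L.O) :
    ∃ (p : k[X]) (y : (BSDFF.placeOf π hπ).ring.valuation.Completion), y ∈ L.O ∧
      u = (BSDFF.placeOf π hπ).toCompletion (cc p) + L.pi ^ 2 * y := by
  obtain ⟨e, e', he, he', h1, h2⟩ := phi_pi hπ L
  obtain ⟨p0, h3⟩ := loc_dense hπ L u hu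
  obtain ⟨y1, hy1, h4⟩ := (L.pi_gen _).1 h3
  obtain ⟨p1, h5⟩ := loc_dense hπ L (e' * y1) (mul_mem he' hy1)
  obtain ⟨y2, hy2, h6⟩ := (L.pi_gen _).1 h5
  refine ⟨p0 + π * p1, e * y2, mul_mem he hy2, ?_⟩
  rw [tc_add, tc_mul]
  set φπ := (BSDFF.placeOf π hπ).toCompletion (cc π)
  have h7 : u = (BSDFF.placeOf π hπ).toCompletion (cc p0) + L.pi * y1 := by
    rw [← h4]; ring
  have h8 : e' * y1 = (BSDFF.placeOf π hπ).toCompletion (cc p1) + L.pi * y2 := by
    rw [← h6]; ring
  have h9 : L.pi * y1 = φπ * (e' * y1) := by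
    rw [← mul_assoc, ← h2]
  rw [h7, h9, h8, mul_add]
  have h10 : φπ * (L.pi * y2) = L.pi ^ 2 * (e * y2) := by
    rw [h1]; ring
  rw [h10]
  ring

private theorem coef_add {F : Type} [Field F] {L : Loc F} {p q : F[X]} (hp : Coef L p) (hq : Coef L q) :
    Coef L (p + q) := by
  intro i
  rw [coeff_add]
  exact add_mem (hp i) (hq i)

private theorem coef_mul {F : Type} [Field F] {L : Loc F} {p q : F[X]} (hp : Coef L p) (hq : Coef L q) :
    Coef L (p * q) := by
  intro i
  rw [coeff_mul]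
  exact sum_mem fun x _ => mul_mem (hp _) (hq _)

private theorem coef_C {F : Type} [Field F] {L : Loc F} {a : F} (ha : a ∈ L.O) : Coef L (C a) := by
  intro i
  rw [coeff_C]
  split_ifs
  · exact ha
  · exact zero_mem _

/-- approximation of polynomials modulo `L.pi ^ 2` -/
private theorem approx (P : ((BSDFF.placeOf π hπ).ring.valuation.Completion)[X])
    (hP : Coef L.toLoc P) :
    ∃ (P' : k[X][X]) (Q : ((BSDFF.placeOf π hπ).ring.valuation.Completion)[X]), Coef L.toLoc Q ∧
      (∀ i, P.natDegree < i → P'.coeff i = 0) ∧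
      P = (fK P').map (BSDFF.placeOf π hπ).toCompletion + C (L.pi ^ 2) * Q := by
  choose p y hy h using fun i => dense2 hπ L (P.coeff i) (hP i)
  refine ⟨∑ i ∈ Finset.range (P.natDegree + 1), monomial i (p i),
    ∑ i ∈ Finset.range (P.natDegree + 1), monomial i (y i), ?_, ?_, ?_⟩
  · intro i
    rw [finsetSum_coeff]
    refine sum_mem fun j _ => ?_
    rw [coeff_monomial]
    split_ifs
    · exact hy _
    · exact zero_mem _
  · intro i hi
    rw [finsetSum_coeff]
    refine Finset.sum_eq_zero fun j hj => ?_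
    rw [coeff_monomial, if_neg]
    intro hji
    have := Finset.mem_range.1 hj
    omega
  · ext i
    rw [coeff_add, coeff_C_mul, coeff_map, coeff_map, finsetSum_coeff, finsetSum_coeff]
    simp only [coeff_monomial, Finset.sum_ite_eq', Finset.mem_range]
    by_cases hi : i < P.natDegree + 1
    · rw [if_pos hi, if_pos hi]
      exact h i
    · rw [if_neg hi, if_neg hi, map_zero, map_zero, mul_zero, add_zero]
      exact coeff_eq_zero_of_natDegree_lt (by omega)

theorem reg_loc {f : k[X][X]} (hr : RegP π f) :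
    Reg L.toLoc ((fK f).map (BSDFF.placeOf π hπ).toCompletion) := by
  intro p a b c hpm hpd hp ha hb hc hf
  obtain ⟨e, e', he, he', h1, h2⟩ := phi_pi hπ L
  set φ := (BSDFF.placeOf π hπ).toCompletion
  set n := p.natDegree
  -- the monic polynomial
  have hlow : Coef L.toLoc (p - X ^ n) := by
    intro i
    rw [coeff_sub, coeff_X_pow]
    refine sub_mem (hp i) ?_
    split_ifs
    · exact one_mem _
    · exact zero_mem _
  obtain ⟨p₀, q1, hq1, hd, hp₀⟩ := approx hπ L (p - X ^ n) hlow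
  obtain ⟨b', q2, hq2, -, hb'⟩ := approx hπ L (C e' * b) (coef_mul (coef_C he') hb)
  obtain ⟨c', q3, hq3, -, hc'⟩ := approx hπ L c hc
  have hdeg : ∀ i, n ≤ i → p₀.coeff i = 0 := by
    intro i hi
    refine hd i ?_
    have h3 : (p - X ^ n).natDegree < n := by
      have h4 : (p - X ^ n).degree < p.degree := by
        refine degree_sub_lt_left ?_ hpm.ne_zero ?_
        · rw [degree_X_pow, degree_eq_natDegree hpm.ne_zero]
        · rw [hpm.leadingCoeff, leadingCoeff_X_pow]
      by_cases h5 : p - X ^ n = 0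
      · rw [h5, natDegree_zero]
        exact hpd
      · exact natDegree_lt_natDegree h5 h4
    exact h3.trans_le hi
  have hm : (X ^ n + p₀).Monic ∧ (X ^ n + p₀).natDegree = n := by
    have h3 : p₀.degree < (n : ℕ) := by
      rw [degree_lt_iff_coeff_zero]
      exact hdeg
    refine ⟨monic_X_pow_add h3, ?_⟩
    have h4 : (X ^ n + p₀).degree = (X ^ n : k[X][X]).degree :=
      degree_add_eq_left_of_degree_lt (by rw [degree_X_pow]; exact h3)
    have h5 := natDegree_eq_of_degree_eq h4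
    rw [h5, natDegree_X_pow]
  set p' := X ^ n + p₀
  have hp' : p = (fK p').map φ + C (L.pi ^ 2) * q1 := by
    have h3 : (fK p').map φ = X ^ n + (fK p₀).map φ := by
      simp only [p', fK, Polynomial.map_add, Polynomial.map_pow, Polynomial.map_X]
    rw [h3, add_assoc, ← hp₀]
    ring
  have key : (fK (f - C π * p' * b' - p' ^ 2 * c')).map φ = C (L.pi ^ 2) *
      (a + C (φ (cc π)) * (q1 * (C e' * b) + (fK p').map φ * q2) +
        (q1 * (p + (fK p').map φ) * c + (fK p').map φ ^ 2 * q3)) := by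
    have h3 : (fK (f - C π * p' * b' - p' ^ 2 * c')).map φ =
        (fK f).map φ - C (φ (cc π)) * (fK p').map φ * (fK b').map φ -
          (fK p').map φ ^ 2 * (fK c').map φ := by
      simp only [fK, Polynomial.map_sub, Polynomial.map_mul, Polynomial.map_pow, Polynomial.map_C]
    have h4 : C L.pi = C (φ (cc π)) * C e' := by
      rw [← C_mul, ← h2]
    rw [h3, hf, h4]
    have e1 : (fK p').map φ = p - C (L.pi ^ 2) * q1 := by rw [hp']; ring
    have e2 : (fK b').map φ = C e' * b - C (L.pi ^ 2) * q2 := by rw [hb']; ring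
    have e3 : (fK c').map φ = c - C (L.pi ^ 2) * q3 := by rw [hc']; ring
    rw [e2, e3, e1]
    ring
  have hcoef : Coef L.toLoc (a + C (φ (cc π)) * (q1 * (C e' * b) + (fK p').map φ * q2) +
        (q1 * (p + (fK p').map φ) * c + (fK p').map φ ^ 2 * q3)) := by
    have c1 := coef_loc hπ L p'
    refine coef_add (coef_add ha (coef_mul (coef_C (loc_mem hπ L π)) (coef_add (coef_mul hq1
      (coef_mul (coef_C he') hb)) (coef_mul c1 hq2)))) (coef_add (coef_mul (coef_mul hq1
      (coef_add hp c1)) hc) (coef_mul ?_ hq3))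
    rw [pow_two]
    exact coef_mul c1 c1
  have hdvd : C (π ^ 2) ∣ f - C π * p' * b' - p' ^ 2 * c' := by
    rw [C_dvd_iff_dvd_coeff]
    intro i
    by_contra h
    have h3 := loc_sq hπ L h
    have h4 := congrArg (fun q => coeff q i) key
    simp only [coeff_map, coeff_C_mul] at h4
    have h5 : L.O.valuation (φ (cc ((f - C π * p' * b' - p' ^ 2 * c').coeff i))) ≤
        L.O.valuation (L.pi ^ 2) := by
      refine (congrArg L.O.valuation h4).le.trans ?_
      rw [map_mul]
      exact mul_le_of_le_one_right' ((L.O.valuation_le_one_iff _).2 (hcoef i))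
    exact absurd h3 (not_lt.2 h5)
  obtain ⟨a', ha'⟩ := hdvd
  refine hr p' a' b' c' hm.1 (by rw [hm.2]; exact hpd) ?_
  rw [← ha']
  ring

end Pool.Agent.HYP
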