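import Pool.Agent.Lib.HYP.Def2
import Pool.Agent.Lib.BSDP.R.Loc
import Pool.Agent.Lib.BSDP.R.Form

/-!
Module F.UniB of MP_950c68_ag (genus g). A diagonal form with `2 g + 1` unit entries over a local field
has a totally isotropic subspace of dimension `g`.

PROOF. Induction on `g`; `g = 0`: `W = ⊥`. Step `g → g + 1`: `D : Fin (2 (g + 1) + 1) → F`,
`u_1 = D 0`, `u_2 = D 1`, `u_3 = D 2`. By `LocSq.iso_same` applied to `locSq_of_loc L`
(`BSDP.R`, files `R/Form.lean`, `R/Loc.lean`; the three entries have value `1`) there is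
`(x, y, z) ≠ 0` with `u_1 x ^ 2 + u_2 y ^ 2 + u_3 z ^ 2 = 0`. Let `e = (x, y, z, 0, …, 0)`.
Suppose `z ≠ 0` and let `d = (u_2 y, - u_1 x, 0, 0, …) / z`: `B (e, d) = 0` and
`Q (d) = u_1 u_2 (u_2 y ^ 2 + u_1 x ^ 2) / z ^ 2 = - u_1 u_2 u_3` (value `1`). If `z = 0` then `y ≠ 0` (if
`y = z = 0` then `u_1 x ^ 2 = 0`) and `d = (- u_3 z, 0, u_1 x) / y` has the same properties
(`Q d = u_1 u_3 (u_3 z ^ 2 + u_1 x ^ 2) / y ^ 2 = - u_1 u_2 u_3`); to avoid the second case permute the
first three entries so that the last coordinate is nonzero.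
By induction `D' = (- u_1 u_2 u_3, D 3, D 4, …) : Fin (2 g + 1) → F` has a totally isotropic `W'` of
dimension `g`. The linear map `ι : F ^ (2 g + 1) → F ^ (2 g + 3)`, `ι (a) = a_0 d + Σ_{i ≥ 1} a_i e_{i + 2}`
is isometric and injective (`d ≠ 0`), its image is orthogonal to `e`, and `e` is not in the image (the
coordinate of `d` at the chosen place is `0`, that of `e` is not). `W = ι (W') ⊔ span {e}` is totally
isotropic of dimension `g + 1` (`Submodule.finrank_sup_add_finrank_inf_eq`,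
`finrank_span_singleton`; or give a linearly independent family).
-/

set_option autoImplicit false

namespace Pool.Agent.HYP

open Pool.Agent.BSDP

private theorem ub_diag {F : Type} [Field F] {n : ℕ} (D x y : Fin n → F) :
    dotProduct x ((Matrix.diagonal D).mulVec y) = ∑ i, D i * x i * y i := by
  unfold dotProduct
  refine Finset.sum_congr rfl fun i _ => ?_
  rw [Matrix.mulVec_diagonal]
  ring

/-- the vector with first coordinates `p, q, r` -/
private def ub_v {F : Type} {n : ℕ} (p q r : F) (t : Fin n → F) : Fin (n + 3) → F :=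
  Fin.cons p (Fin.cons q (Fin.cons r t : Fin (n + 1) → F) : Fin (n + 2) → F)

private theorem ub_sum {F : Type} [Field F] {n : ℕ} (D : Fin (n + 3) → F) (p q r p' q' r' : F)
    (t t' : Fin n → F) : ∑ i, D i * ub_v p q r t i * ub_v p' q' r' t' i =
      D 0 * p * p' + D 1 * q * q' + D 2 * r * r' + ∑ i : Fin n, D i.succ.succ.succ * t i * t' i := by
  rw [Fin.sum_univ_succ, Fin.sum_univ_succ, Fin.sum_univ_succ]
  simp only [ub_v, Fin.cons_zero, Fin.cons_succ]
  rw [← add_assoc, ← add_assoc]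
  rfl

private theorem ub_ext {F : Type} {n : ℕ} {p q r p' q' r' : F} {t t' : Fin n → F}
    (h : ub_v p q r t = ub_v p' q' r' t') : p = p' ∧ q = q' ∧ r = r' ∧ t = t' := by
  unfold ub_v at h
  obtain ⟨h1, h2⟩ := Fin.cons_inj.1 h
  obtain ⟨h3, h4⟩ := Fin.cons_inj.1 h2
  obtain ⟨h5, h6⟩ := Fin.cons_inj.1 h4
  exact ⟨h1, h3, h5, h6⟩

private def ub_map {F : Type} [Field F] (n : ℕ) (d0 d1 d2 : F) :
    (Fin (n + 1) → F) →ₗ[F] (Fin (n + 3) → F) where
  toFun a := ub_v (a 0 * d0) (a 0 * d1) (a 0 * d2) fun i => a i.succ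
  map_add' a b := by
    funext i
    refine Fin.cases ?_ (fun i => ?_) i
    · simp [ub_v, add_mul]
    refine Fin.cases ?_ (fun i => ?_) i
    · simp [ub_v, add_mul]
    refine Fin.cases ?_ (fun i => ?_) i
    · exact add_mul (a 0) (b 0) d2
    · simp [ub_v]
  map_smul' c a := by
    funext i
    refine Fin.cases ?_ (fun i => ?_) i
    · simp [ub_v, mul_assoc]
    refine Fin.cases ?_ (fun i => ?_) i
    · simp [ub_v, mul_assoc]
    refine Fin.cases ?_ (fun i => ?_) i
    · exact mul_assoc c (a 0) d2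
    · simp [ub_v]

private theorem ub_step {F : Type} [Field F] {n g : ℕ} (D : Fin (n + 3) → F)
    (e0 e1 e2 d0 d1 d2 c : F) (h1 : D 0 * e0 * e0 + D 1 * e1 * e1 + D 2 * e2 * e2 = 0)
    (h2 : D 0 * e0 * d0 + D 1 * e1 * d1 + D 2 * e2 * d2 = 0)
    (h3 : D 0 * d0 * d0 + D 1 * d1 * d1 + D 2 * d2 * d2 = c) (hc : c ≠ 0)
    (hne : ∀ a : F, ¬ (e0 = a * d0 ∧ e1 = a * d1 ∧ e2 = a * d2))
    (hD : SplitM g (Matrix.diagonal (Fin.cons c fun i => D i.succ.succ.succ : Fin (n + 1) → F))) :
    SplitM (g + 1) (Matrix.diagonal D) := by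
  obtain ⟨W', hW', hiso⟩ := hD
  obtain ⟨ι, hι⟩ : ∃ ι, ι = ub_map (F := F) n d0 d1 d2 := ⟨_, rfl⟩
  obtain ⟨e, he⟩ : ∃ e : Fin (n + 3) → F, e = ub_v e0 e1 e2 0 := ⟨_, rfl⟩
  have hιv : ∀ a, ι a = ub_v (a 0 * d0) (a 0 * d1) (a 0 * d2) fun i => a i.succ := by
    intro a
    rw [hι]
    rfl
  have hinj : Function.Injective ι := by
    rw [← LinearMap.ker_eq_bot, LinearMap.ker_eq_bot']
    intro a ha
    rw [hιv] at ha
    have h0 : (0 : Fin (n + 3) → F) = ub_v 0 0 0 0 := by
      funext i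
      refine Fin.cases ?_ (fun i => ?_) i
      · simp [ub_v]
      refine Fin.cases ?_ (fun i => ?_) i
      · simp [ub_v]
      refine Fin.cases ?_ (fun i => ?_) i
      · rfl
      · simp [ub_v]
    rw [h0] at ha
    obtain ⟨k0, k1, k2, k3⟩ := ub_ext ha
    have ha0 : a 0 = 0 := by
      by_contra hn
      apply hc
      rw [← h3, (mul_eq_zero.1 k0).resolve_left hn, (mul_eq_zero.1 k1).resolve_left hn,
        (mul_eq_zero.1 k2).resolve_left hn]
      ring
    funext i
    refine Fin.cases ha0 (fun i => ?_) i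
    exact congrFun k3 i
  have hB : ∀ a b, dotProduct (ι a) ((Matrix.diagonal D).mulVec (ι b)) =
      dotProduct a ((Matrix.diagonal (Fin.cons c fun i => D i.succ.succ.succ :
        Fin (n + 1) → F)).mulVec b) := by
    intro a b
    rw [ub_diag, ub_diag, hιv, hιv, ub_sum, Fin.sum_univ_succ]
    simp only [Fin.cons_zero, Fin.cons_succ]
    rw [← h3]
    ring
  have hE : ∀ a, dotProduct e ((Matrix.diagonal D).mulVec (ι a)) = 0 := by
    intro a
    rw [ub_diag, he, hιv, ub_sum]
    simp only [Pi.zero_apply, mul_zero, zero_mul, Finset.sum_const_zero, add_zero]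
    linear_combination a 0 * h2
  have hE' : ∀ a, dotProduct (ι a) ((Matrix.diagonal D).mulVec e) = 0 := by
    intro a
    rw [← hE a, ub_diag, ub_diag]
    exact Finset.sum_congr rfl fun i _ => by ring
  have hEE : dotProduct e ((Matrix.diagonal D).mulVec e) = 0 := by
    rw [ub_diag, he, ub_sum]
    simp only [Pi.zero_apply, mul_zero, Finset.sum_const_zero, add_zero]
    exact h1
  have hemem : e ∉ W'.map ι := by
    rintro ⟨a, -, ha⟩
    rw [hιv, he] at ha
    obtain ⟨k0, k1, k2, -⟩ := ub_ext ha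
    exact hne (a 0) ⟨k0.symm, k1.symm, k2.symm⟩
  have he0 : e ≠ 0 := by
    intro h
    exact hemem (h ▸ Submodule.zero_mem _)
  refine ⟨W'.map ι ⊔ Submodule.span F {e}, ?_, ?_⟩
  · have hd : Disjoint (W'.map ι) (Submodule.span F {e}) :=
      (Submodule.disjoint_span_singleton' he0).2 hemem
    have h4 := Submodule.finrank_sup_add_finrank_inf_eq (W'.map ι) (Submodule.span F {e})
    rw [hd.eq_bot, finrank_bot, add_zero, finrank_span_singleton he0,
      ← (Submodule.equivMapOfInjective ι hinj W').finrank_eq, hW'] at h4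
    exact h4
  · intro x hx y hy
    obtain ⟨x1, hx1, x2, hx2, rfl⟩ := Submodule.mem_sup.1 hx
    obtain ⟨y1, hy1, y2, hy2, rfl⟩ := Submodule.mem_sup.1 hy
    obtain ⟨a, ha, rfl⟩ := hx1
    obtain ⟨b, hb, rfl⟩ := hy1
    obtain ⟨α, rfl⟩ := Submodule.mem_span_singleton.1 hx2
    obtain ⟨β, rfl⟩ := Submodule.mem_span_singleton.1 hy2
    simp only [Matrix.mulVec_add, Matrix.mulVec_smul, dotProduct_add, add_dotProduct,
      dotProduct_smul, smul_dotProduct, hB, hE, hE', hEE, hiso a ha b hb, smul_zero, add_zero]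

theorem splitM_diag {F : Type} [Field F] (L : Loc F) (g : ℕ) (D : Fin (2 * g + 1) → F)
    (hD : ∀ i, L.O.valuation (D i) = 1) : SplitM g (Matrix.diagonal D) := by
  induction g with
  | zero =>
    refine ⟨⊥, finrank_bot _ _, ?_⟩
    intro x hx y _
    rw [(Submodule.mem_bot F).1 hx, zero_dotProduct]
  | succ g ih =>
    have hne : ∀ i, D i ≠ 0 := by
      intro i h
      have h1 := hD i
      rw [h, map_zero] at h1
      exact zero_ne_one h1
    obtain ⟨D1, hD1⟩ : ∃ D1 : Fin (2 * g + 3) → F, D1 = D := ⟨D, rfl⟩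
    rw [← hD1] at hD hne ⊢
    have hv : ∀ i, L.O.valuation (D1 i) = 1 := hD
    have hn : ∀ i, D1 i ≠ 0 := hne
    obtain ⟨x, y, z, hxyz, h0⟩ := (BSDP.R.locSq_of_loc L).iso_same (hn 0) (hn 1) (hn 2)
      ⟨1, by rw [map_mul, hv, hv]; simp⟩ ⟨1, by rw [map_mul, hv, hv]; simp⟩
    obtain ⟨c, hc⟩ : ∃ c, c = -(D1 0 * D1 1 * D1 2) := ⟨_, rfl⟩
    have hcv : L.O.valuation c = 1 := by
      rw [hc, Valuation.map_neg, map_mul, map_mul, hv, hv, hv]
      simp
    have hc0 : c ≠ 0 := by
      intro h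
      rw [h, map_zero] at hcv
      exact zero_ne_one hcv
    have hsp : SplitM g (Matrix.diagonal (Fin.cons c fun i => D1 i.succ.succ.succ :
        Fin (2 * g + 1) → F)) := by
      refine ih _ fun i => ?_
      refine Fin.cases ?_ (fun i => ?_) i
      · rw [Fin.cons_zero]
        exact hcv
      · rw [Fin.cons_succ]
        exact hv _
    by_cases hz : z = 0
    · have hy : y ≠ 0 := by
        intro hy
        rw [hy, hz] at h0
        have hx : x = 0 := by
          have h1 : D1 0 * x ^ 2 = 0 := by linear_combination h0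
          exact pow_eq_zero_iff two_ne_zero |>.1 ((mul_eq_zero.1 h1).resolve_left (hn 0))
        rcases hxyz with h | h | h
        · exact h hx
        · exact h hy
        · exact h hz
      refine ub_step D1 x y z 0 0 (D1 0 * x / y) c ?_ ?_ ?_ hc0 ?_ hsp
      · linear_combination h0
      · rw [hz]; ring
      · rw [hc]
        rw [hz] at h0
        field_simp
        linear_combination (D1 0 * D1 2) * h0
      · rintro a ⟨-, h, -⟩
        exact hy (by rw [h, mul_zero])
    · refine ub_step D1 x y z (D1 1 * y / z) (-(D1 0 * x / z)) 0 c ?_ ?_ ?_ hc0 ?_ hsp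
      · linear_combination h0
      · ring
      · rw [hc]
        field_simp
        linear_combination (D1 0 * D1 1) * h0
      · rintro a ⟨-, -, h⟩
        exact hz (by rw [h, mul_zero])

end Pool.Agent.HYP
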