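import Pool.Agent.Lib.HYP.F.UniA
import Pool.Agent.Lib.HYP.F.UniB
import Pool.Agent.Lib.HYP.F.Dict
import Pool.Agent.Lib.HYP.L.Det
import Pool.Agent.Lib.HYP.L.Sq

/-!
Module F.Spl of MP_950c68_ag (genus g). The form of a unit of `O[θ]` times a square is split.

PROOF. `splitM_unimodular`: `exists_diag_unimodular`, `splitM_diag`, and `SplitM` is invariant under
congruence: if `Pᵀ G P = D` and `W` is totally isotropic for `D` then `P W` is for `G` (`P` injective;
`Submodule.map (Matrix.mulVecLin P)`, `LinearMap.finrank_map_eq`-like; `HYP/R/Split.lean` has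
`splitI_congr`). `split_of_unitAt`: `c = e y ^ 2` (`UnitAt`), by `split_mul_sq` it is enough to treat `e`. With
the basis `1, θ, …` (`AdjoinRoot.powerBasis'`, reindexed by `hn`; `split_iff_splitM`) the Gram matrix is
`gram1 hf e (std f _)`, symmetric (`gram1_symm`), entries in `O` (`tau_mem` with `R = L.O.toSubring`: `e` is the
class of a polynomial with coefficients in `O`, so is `e * θ ^ i * θ ^ j`), determinant
`(-1) ^ g * norm e` (`gram1_det`, `coord_std`), and `norm e` has value `1`: `norm e * norm e' = 1` with both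
in `O` (`norm_bc` and `exists_monic_lift`: norms of classes of polynomials over `O` are in `O`).
-/

set_option autoImplicit false

open Polynomial

namespace Pool.Agent.HYP

open Pool.Agent.BSDP

theorem splitM_unimodular {F : Type} [Field F] (L : Loc F) {g : ℕ}
    (G : Matrix (Fin (2 * g + 1)) (Fin (2 * g + 1)) F) (hs : G.transpose = G)
    (hi : ∀ i j, G i j ∈ L.O) (hd : L.O.valuation G.det = 1) : SplitM g G := by
  obtain ⟨P, D, hP, hD, hPD⟩ := exists_diag_unimodular L G hs hi hd
  obtain ⟨W, hW, h⟩ := splitM_diag L g D hD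
  have hinj : Function.Injective P.mulVecLin := by
    have h1 : IsUnit P := (Matrix.isUnit_iff_isUnit_det P).2 (isUnit_iff_ne_zero.2 hP)
    exact Matrix.mulVec_injective_of_isUnit h1
  refine ⟨W.map P.mulVecLin, ?_, ?_⟩
  · exact (Submodule.equivMapOfInjective P.mulVecLin hinj W).symm.finrank_eq.trans hW
  · rintro x ⟨w, hw, rfl⟩ y ⟨w', hw', rfl⟩
    have h1 := h w hw w' hw'
    rw [← hPD, ← Matrix.mulVec_mulVec, ← Matrix.mulVec_mulVec, Matrix.dotProduct_mulVec,
      Matrix.vecMul_transpose] at h1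
    exact h1

private theorem spl_norm_mem {F : Type} [Field F] (L : Loc F) {f : F[X]} (hf : f.Monic)
    (hc : Coef L f) {e : AdjoinRoot f} (he : IntE L e) : Algebra.norm F e ∈ L.O := by
  obtain ⟨P, hP, rfl⟩ := he
  obtain ⟨f', hm, hd, rfl⟩ := exists_monic_lift L f hc hf
  obtain ⟨P', rfl⟩ := (coef_iff L P).1 hP
  rw [← bc_mk, norm_bc hm]
  exact SetLike.coe_mem _

private theorem spl_coef_mul {F : Type} [Field F] (L : Loc F) {P Q : F[X]} (hP : Coef L P)
    (hQ : Coef L Q) : Coef L (P * Q) := by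
  obtain ⟨P', rfl⟩ := (coef_iff L P).1 hP
  obtain ⟨Q', rfl⟩ := (coef_iff L Q).1 hQ
  exact (coef_iff L _).2 ⟨P' * Q', (Polynomial.map_mul _).symm⟩

private theorem spl_basis {F : Type} [Field F] {f : F[X]} (hf : f.Monic) {n : ℕ}
    (hn : f.natDegree = n) : ∃ B : Module.Basis (Fin n) F (AdjoinRoot f),
      (fun i => B i) = std f n := by
  refine ⟨(AdjoinRoot.powerBasis' hf).basis.reindex (finCongr
    ((AdjoinRoot.powerBasis'_dim hf).trans hn)), ?_⟩
  funext i
  rw [Module.Basis.reindex_apply, PowerBasis.basis_eq_pow, AdjoinRoot.powerBasis'_gen]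
  rfl

theorem split_of_unitAt {F : Type} [Field F] (L : Loc F) {f : F[X]} (hf : f.Monic) {g : ℕ}
    (hn : f.natDegree = 2 * g + 1) (hc : Coef L f) (c : AdjoinRoot f) (h : UnitAt L c) :
    Split hf g c := by
  obtain ⟨e, e', y, he, he', hee, hy, rfl⟩ := h
  rw [split_mul_sq hf g e y hy]
  obtain ⟨B, hB⟩ := spl_basis hf hn
  rw [split_iff_splitM hf g e B, hB]
  have hn1 := spl_norm_mem L hf hc he
  have hn2 := spl_norm_mem L hf hc he'
  have hv : L.O.valuation (Algebra.norm F e) = 1 := by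
    have h1 : L.O.valuation (Algebra.norm F e) * L.O.valuation (Algebra.norm F e') = 1 := by
      rw [← map_mul, ← map_mul, hee, map_one, map_one]
    have h2 := (ValuationSubring.valuation_le_one_iff L.O _).2 hn1
    have h3 := (ValuationSubring.valuation_le_one_iff L.O _).2 hn2
    refine le_antisymm h2 ?_
    rw [← h1]
    exact mul_le_of_le_one_right' h3
  refine splitM_unimodular L _ (gram1_symm hf e _) ?_ ?_
  · intro i j
    obtain ⟨P, hP, rfl⟩ := he
    have h1 : AdjoinRoot.mk f P * std f (2 * g + 1) i * std f (2 * g + 1) j =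
        AdjoinRoot.mk f (P * X ^ ((i : ℕ) + (j : ℕ))) := by
      show AdjoinRoot.mk f P * AdjoinRoot.root f ^ (i : ℕ) * AdjoinRoot.root f ^ (j : ℕ) = _
      rw [map_mul, map_pow, AdjoinRoot.mk_X, mul_assoc, ← pow_add]
    show tau hf (AdjoinRoot.mk f P * std f (2 * g + 1) i * std f (2 * g + 1) j) ∈ L.O
    rw [h1]
    refine tau_mem hf L.O.toSubring hc _ fun k => ?_
    rw [Polynomial.coeff_mul_X_pow']
    split_ifs
    · exact hP _
    · exact zero_mem _
  · rw [gram1_det hf hn, coord_std hf hn, Matrix.det_one, one_pow, mul_one, map_mul, hv, mul_one,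
      map_pow, Valuation.map_neg, map_one, one_pow]

/-- The product of two units times squares. -/
theorem UnitAt.mul {F : Type} [Field F] {L : Loc F} {f : F[X]} {c d : AdjoinRoot f}
    (hc : UnitAt L c) (hd : UnitAt L d) : UnitAt L (c * d) := by
  obtain ⟨e, e', y, ⟨P, hP, rfl⟩, ⟨P', hP', rfl⟩, hee, hy, rfl⟩ := hc
  obtain ⟨e₁, e₁', y₁, ⟨Q, hQ, rfl⟩, ⟨Q', hQ', rfl⟩, hee₁, hy₁, rfl⟩ := hd
  refine ⟨_, _, y * y₁, ⟨P * Q, spl_coef_mul L hP hQ, rfl⟩, ⟨P' * Q', spl_coef_mul L hP' hQ', rfl⟩,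
    ?_, hy.mul hy₁, ?_⟩
  · rw [map_mul, map_mul, mul_mul_mul_comm, hee, hee₁, mul_one]
  · rw [map_mul]
    ring

end Pool.Agent.HYP
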