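import Pool.Agent.Lib.HYP.F.UnrC
import Pool.Agent.Lib.HYP.G.Tw
import Pool.Agent.Lib.BSDP.D.Comp

/-!
Module F.Inf of MP_950c68_ag (genus g). The place at infinity: an element of square norm is a square.

PROOF of `infty_model`. `w = placeInfty k`, `φ_w = w.toCompletion`, `D = φ_w (X⁻¹ ^ (2 m))`. The coefficient
of `x ^ j` of the scaled polynomial is `φ_w (a_j X ^ (- 2 m (2 g + 1 - j)))`, `a_j = f.coeff j`,
`deg a_j ≤ 2 m (2 g + 1 - j)`, so `a_j X ^ (- 2 m (2 g + 1 - j))` is in `w.ring` (`BSDFF.mem_placeInfty_iff`,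
`intDegree ≤ 0`) and differs from the constant `φ.coeff j` by an element of negative degree, i.e. of
`L.O.valuation < 1` (`L.lt_iff`; `ValuationSubring.valuation_lt_one_iff`, a nonunit of `w.ring`:
`BSDFF.isUnit_infty_iff`). So there is `h : L.O[X]` with coefficients these elements (monic, since
`f.coeff (2 g + 1) = 1`), and `h.map residue = φ.map ψ`, where `ψ : k → ResidueField L.O` is the map of
constants. `ψ` is bijective: injective (fields), surjective: for `u ∈ L.O` there is `a ∈ k(t)` with
`V (u - a) < 1` (`L.dense`), `a ∈ w.ring`, and `a` is congruent to a constant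
(`BSDFF.constMap_infty_surjective`). So `φ.map ψ` is irreducible (`Polynomial.map` along a field
isomorphism, `Polynomial.mapEquiv`).
`isSquare_infty`: `f' = (f_∞).scaleRoots D`, `D ≠ 0`; by `dn_bijective` `c = dn D rfl c'`; `SqNorm c'`
(`sqNorm_dn`); `f' = h.map _` (`subst` or generalise), `isSquare_of_norm_odd` (degree `2 g + 1`) gives
`IsSquare c'`, so `IsSquare c` (`isSquare_dn`).
-/

set_option autoImplicit false

open Polynomial

namespace Pool.Agent.HYP

open Pool.Agent.BSDP

variable {k : Type} [Field k] {g m : ℕ} {φ : k[X]} {f : k[X][X]}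

private theorem inf_intDegree_pow (n : ℕ) : ((RatFunc.X : RatFunc k) ^ n).intDegree = n := by
  have hX : (RatFunc.X : RatFunc k) ≠ 0 := RatFunc.X_ne_zero
  induction n with
  | zero => simp
  | succ j ih =>
    rw [pow_succ, RatFunc.intDegree_mul (pow_ne_zero _ hX) hX, ih, RatFunc.intDegree_X]
    push_cast
    ring

/-- an element which is zero or of negative degree has value `< 1` at infinity -/
private theorem inf_val_lt (x : RatFunc k) (hx : x = 0 ∨ x.intDegree < 0) :
    (BSDFF.placeInfty k).ring.valuation x < 1 := by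
  have hmem : x ∈ (BSDFF.placeInfty k).ring := by
    rw [BSDFF.mem_placeInfty_iff]
    rcases hx with h | h
    · exact Or.inl h
    · exact Or.inr h.le
  have h1 := (BSDFF.placeInfty k).ring.valuation_lt_one_iff ⟨x, hmem⟩
  refine h1.1 ?_
  rw [IsLocalRing.mem_maximalIdeal, mem_nonunits_iff, BSDFF.isUnit_infty_iff]
  rintro ⟨h2, h3⟩
  change x ≠ 0 at h2
  change x.intDegree = 0 at h3
  rcases hx with h | h
  · exact h2 h
  · omega

/-- the scaled coefficient is congruent to a constant -/
private theorem inf_coeff (a : k[X]) (c : k) (N : ℕ) (h1 : a.natDegree ≤ N) (h2 : a.coeff N = c) :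
    (BSDFF.placeInfty k).ring.valuation
      (algebraMap k[X] (RatFunc k) a * (RatFunc.X⁻¹) ^ N - algebraMap k (RatFunc k) c) < 1 := by
  apply inf_val_lt
  have hX : (RatFunc.X : RatFunc k) ≠ 0 := RatFunc.X_ne_zero
  have h3 : algebraMap k[X] (RatFunc k) a * (RatFunc.X⁻¹) ^ N - algebraMap k (RatFunc k) c =
      algebraMap k[X] (RatFunc k) (a - C c * X ^ N) * (RatFunc.X⁻¹) ^ N := by
    rw [map_sub, map_mul, map_pow, RatFunc.algebraMap_X, sub_mul, mul_assoc, ← mul_pow,
      mul_inv_cancel₀ hX, one_pow, mul_one, IsScalarTower.algebraMap_apply k k[X] (RatFunc k)]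
    rfl
  rw [h3]
  by_cases h0 : a - C c * X ^ N = 0
  · left
    rw [h0, map_zero, zero_mul]
  · right
    have h4 : algebraMap k[X] (RatFunc k) (a - C c * X ^ N) ≠ 0 := by
      intro h
      exact h0 ((FaithfulSMul.algebraMap_eq_zero_iff _ _).mp h)
    rw [inv_pow, RatFunc.intDegree_mul h4 (inv_ne_zero (pow_ne_zero _ hX)), RatFunc.intDegree_inv,
      inf_intDegree_pow, RatFunc.intDegree_polynomial]
    have h5 : (a - C c * X ^ N).natDegree ≤ N := by
      refine (natDegree_sub_le _ _).trans (max_le h1 ?_)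
      exact natDegree_C_mul_X_pow_le _ _
    have h6 : (a - C c * X ^ N).coeff N = 0 := by
      rw [coeff_sub, coeff_C_mul, coeff_X_pow_self, mul_one, h2, sub_self]
    have h7 : (a - C c * X ^ N).natDegree < N := by
      rcases h5.lt_or_eq with h | h
      · exact h
      · exfalso
        apply h0
        rw [← leadingCoeff_eq_zero, leadingCoeff, h]
        exact h6
    omega

theorem infty_model (hφ : LeadForm g φ) (hf : Fam g m φ f) (L : LocAt (BSDFF.placeInfty k)) :
    ∃ h : L.O[X], h.Monic ∧ h.natDegree = 2 * g + 1 ∧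
      Irreducible (h.map (IsLocalRing.residue L.O)) ∧
      ((fK f).map (BSDFF.placeInfty k).toCompletion).scaleRoots
        ((BSDFF.placeInfty k).toCompletion ((RatFunc.X : RatFunc k)⁻¹ ^ (2 * m))) =
      h.map (algebraMap L.O (BSDFF.placeInfty k).ring.valuation.Completion) := by
  set τ := (BSDFF.placeInfty k).toCompletion with hτ
  set P := ((fK f).map τ).scaleRoots (τ ((RatFunc.X : RatFunc k)⁻¹ ^ (2 * m))) with hP
  have hfm : ((fK f).map τ).Monic := (hf.monic.map _).map _
  have hfd : ((fK f).map τ).natDegree = 2 * g + 1 := by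
    rw [Polynomial.natDegree_map, hf.monic.natDegree_map, hf.deg]
  have hPm : P.Monic := (Polynomial.monic_scaleRoots_iff _).2 hfm
  have hPd : P.natDegree = 2 * g + 1 := by rw [hP, Polynomial.natDegree_scaleRoots, hfd]
  -- the elements of `k(t)`
  set e : ℕ → RatFunc k := fun j =>
    algebraMap k[X] (RatFunc k) (f.coeff j) * (RatFunc.X⁻¹) ^ (2 * m * (2 * g + 1 - j)) with he
  have hcoeff : ∀ j, P.coeff j = τ (e j) := by
    intro j
    rw [hP, Polynomial.coeff_scaleRoots, hfd, Polynomial.coeff_map, Polynomial.coeff_map, he, map_mul,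
      ← map_pow, ← pow_mul]
  have hval : ∀ j, (BSDFF.placeInfty k).ring.valuation
      (e j - algebraMap k (RatFunc k) (φ.coeff j)) < 1 := by
    intro j
    by_cases hj : j ≤ 2 * g + 1
    · exact inf_coeff _ _ _ (hf.degc j hj) (hf.lead j hj)
    · have h1 : f.coeff j = 0 := Polynomial.coeff_eq_zero_of_natDegree_lt (by rw [hf.deg]; omega)
      have h2 : φ.coeff j = 0 := Polynomial.coeff_eq_zero_of_natDegree_lt (by rw [hφ.deg]; omega)
      apply inf_val_lt
      left
      simp only [he]
      rw [h1, h2, map_zero, map_zero, zero_mul, sub_self]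
  have hconst : ∀ c : k, τ (algebraMap k (RatFunc k) c) ∈ L.O := fun c =>
    (L.mem_iff _).2 ((BSDFF.placeInfty k).const_mem c)
  have hmem : ∀ j, τ (e j) ∈ L.O := by
    intro j
    have h1 : L.O.valuation (τ (e j - algebraMap k (RatFunc k) (φ.coeff j))) < 1 :=
      (L.lt_iff _).2 (hval j)
    have h2 := (L.O.valuation_le_one_iff _).1 h1.le
    have h3 := add_mem h2 (hconst (φ.coeff j))
    rwa [← map_add, sub_add_cancel] at h3
  have hlift : P ∈ Polynomial.lifts (algebraMap L.O (BSDFF.placeInfty k).ring.valuation.Completion) := by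
    rw [Polynomial.lifts_iff_coeff_lifts]
    intro j
    rw [hcoeff]
    exact ⟨⟨_, hmem j⟩, rfl⟩
  obtain ⟨h, hmap, hdeg, hmon⟩ := Polynomial.lifts_and_natDegree_eq_and_monic hlift hPm
  refine ⟨h, hmon, hdeg.trans hPd, ?_, hmap.symm⟩
  -- the map of constants
  let κ : k →+* L.O := (τ.comp (algebraMap k (RatFunc k))).codRestrict L.O.toSubring hconst
  have hκ : ∀ c, ((κ c : L.O) : (BSDFF.placeInfty k).ring.valuation.Completion) =
      τ (algebraMap k (RatFunc k) c) := fun c => rfl
  let ψ : k →+* IsLocalRing.ResidueField L.O := (IsLocalRing.residue L.O).comp κ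
  have hres : ∀ (u : L.O) (a : RatFunc k) (c : k),
      L.O.valuation ((u : (BSDFF.placeInfty k).ring.valuation.Completion) - τ a) < 1 →
      (BSDFF.placeInfty k).ring.valuation (a - algebraMap k (RatFunc k) c) < 1 →
      IsLocalRing.residue L.O u = ψ c := by
    intro u a c h1 h2
    have h3 : L.O.valuation (τ (a - algebraMap k (RatFunc k) c)) < 1 := (L.lt_iff _).2 h2
    have h4 : L.O.valuation ((u : (BSDFF.placeInfty k).ring.valuation.Completion) - κ c) < 1 := by
      have h5 : (u : (BSDFF.placeInfty k).ring.valuation.Completion) - κ c =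
          (u - τ a) + τ (a - algebraMap k (RatFunc k) c) := by
        rw [hκ, map_sub]
        ring
      rw [h5]
      exact Valuation.map_add_lt _ h1 h3
    change IsLocalRing.residue L.O u = IsLocalRing.residue L.O (κ c)
    rw [← sub_eq_zero, ← map_sub, IsLocalRing.residue_eq_zero_iff, L.O.valuation_lt_one_iff]
    exact h4
  have hmr : h.map (IsLocalRing.residue L.O) = φ.map ψ := by
    ext j
    rw [Polynomial.coeff_map, Polynomial.coeff_map]
    refine hres _ (e j) _ ?_ (hval j)
    have h1 : ((h.coeff j : L.O) : (BSDFF.placeInfty k).ring.valuation.Completion) = τ (e j) := by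
      rw [← hcoeff, ← hmap, Polynomial.coeff_map]
      rfl
    rw [h1, sub_self, map_zero]
    exact zero_lt_one
  have hsurj : Function.Surjective ψ := by
    intro y
    obtain ⟨u, rfl⟩ := IsLocalRing.residue_surjective y
    obtain ⟨a, ha⟩ := L.dense (u : (BSDFF.placeInfty k).ring.valuation.Completion) 1 one_ne_zero
    rw [map_one] at ha
    have h1 := (L.O.valuation_le_one_iff _).1 ha.le
    have h2 : τ a ∈ L.O := by
      have h3 := sub_mem u.2 h1
      rwa [sub_sub_cancel] at h3
    have h4 : a ∈ (BSDFF.placeInfty k).ring := (L.mem_iff _).1 h2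
    obtain ⟨c, hc⟩ := BSDFF.constMap_infty_surjective
      (IsLocalRing.residue (BSDFF.placeInfty k).ring ⟨a, h4⟩)
    refine ⟨c, (hres u a c ha ?_).symm⟩
    unfold BSDFF.Place.constMap at hc
    rw [RingHom.comp_apply, eq_comm, ← sub_eq_zero, ← map_sub, IsLocalRing.residue_eq_zero_iff,
      (BSDFF.placeInfty k).ring.valuation_lt_one_iff] at hc
    exact hc
  rw [hmr]
  let E : k ≃+* IsLocalRing.ResidueField L.O := RingEquiv.ofBijective ψ ⟨ψ.injective, hsurj⟩
  have h5 : φ.map ψ = Polynomial.mapEquiv E φ := rfl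
  rw [h5, MulEquiv.irreducible_iff]
  exact hφ.irr

theorem isSquare_infty (hφ : LeadForm g φ) (hf : Fam g m φ f) (L : LocAt (BSDFF.placeInfty k))
    (hC : Complete L.toLoc) (c : AdjoinRoot ((fK f).map (BSDFF.placeInfty k).toCompletion))
    (hc : SqNorm c) : IsSquare c := by
  obtain ⟨h, hm, hd, hi, he⟩ := infty_model hφ hf L
  have hfm : ((fK f).map (BSDFF.placeInfty k).toCompletion).Monic := (hf.monic.map _).map _
  have hD : (BSDFF.placeInfty k).toCompletion ((RatFunc.X : RatFunc k)⁻¹ ^ (2 * m)) ≠ 0 :=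
    (_root_.map_ne_zero _).2 (pow_ne_zero _ (inv_ne_zero RatFunc.X_ne_zero))
  obtain ⟨c', rfl⟩ := (dn_bijective hD he.symm).2 c
  rw [isSquare_dn hD he.symm]
  rw [sqNorm_dn hfm hD he.symm] at hc
  exact isSquare_of_norm_odd L.toLoc hC hm hi ⟨g, hd⟩ c' hc

end Pool.Agent.HYP
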