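import Pool.Agent.Lib.HYP.Def

/-!
Module F.Res. Resultants with a monic polynomial: multiplicativity, dependence on the class modulo
`f`, the resultant of `f` and `U` for a Mumford pair, the norm of `g (θ)`.
-/

set_option autoImplicit false

open Polynomial

namespace Pool.Agent.HYP

section res

variable {R : Type} [CommRing R]

theorem res_deg {f : R[X]} (hf : f.Monic) (g : R[X]) {n : ℕ} (hn : g.natDegree ≤ n) :
    resultant f g f.natDegree n = resultant f g := by
  obtain ⟨k, rfl⟩ := le_iff_exists_add.mp hn
  rw [resultant_add_right_deg _ _ _ _ k le_rfl]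
  simp [hf]

theorem res_mul {f : R[X]} (hf : f.Monic) (g h : R[X]) :
    resultant f (g * h) = resultant f g * resultant f h := by
  rw [← resultant_mul_right f g h _ le_rfl, res_deg hf _ natDegree_mul_le]

theorem res_pow {f : R[X]} (hf : f.Monic) (g : R[X]) (n : ℕ) :
    resultant f (g ^ n) = resultant f g ^ n := by
  induction n with
  | zero =>
    rw [pow_zero, pow_zero]
    simp
  | succ n ih => rw [pow_succ, res_mul hf, ih, pow_succ]

theorem res_C_mul {f : R[X]} (r : R) (g : R[X]) (hf : f.Monic) :
    resultant f (C r * g) = r ^ f.natDegree * resultant f g := by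
  rw [← resultant_C_mul_right, res_deg hf _ ((natDegree_C_mul_le _ _))]

theorem res_congr {f : R[X]} (hf : f.Monic) {g h : R[X]} (H : f ∣ g - h) :
    resultant f g = resultant f h := by
  obtain ⟨p, hp⟩ := H
  have e : g = h + f * p := by rw [← hp]; ring
  set n := max (max g.natDegree h.natDegree) (p.natDegree + f.natDegree)
  rw [← res_deg hf g (n := n) (by omega), ← res_deg hf h (n := n) (by omega), e]
  exact resultant_add_mul_right _ _ _ _ _ (by omega) le_rfl

theorem res_comm {f : R[X]} (g : R[X]) :
    resultant f g = (-1) ^ (f.natDegree * g.natDegree) * resultant g f :=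
  resultant_comm _ _ _ _

/-- The resultant of `f` and `U` for a Mumford pair. -/
theorem res_mumford {f U V : R[X]} (hU : U.Monic) (h : U ∣ V ^ 2 - f) :
    resultant f U = (-1) ^ (f.natDegree * U.natDegree) * resultant U V ^ 2 := by
  rw [res_comm, ← res_pow hU, res_congr hU h]

end res

theorem eval_charpoly' {K : Type} [Field K] {m : ℕ} (A : Matrix (Fin m) (Fin m) K) (a : K) :
    A.charpoly.eval a = (Matrix.scalar (Fin m) a - A).det := by
  rw [Matrix.charpoly, _root_.eval_det, Matrix.matPolyEquiv_charmatrix]
  simp

/-- The determinant of `g (A)` for a square matrix `A`. -/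
theorem det_aeval {K : Type} [Field K] {m : ℕ} (A : Matrix (Fin m) (Fin m) K) (g : K[X]) :
    (aeval A g).det = resultant A.charpoly g := by
  classical
  -- the case of a split polynomial
  have key : ∀ {L : Type} [Field L] (B : Matrix (Fin m) (Fin m) L) (h : L[X]), h.Splits →
      (aeval B h).det = resultant B.charpoly h := by
    intro L _ B h hs
    have hm : B.charpoly.Monic := B.charpoly_monic
    have hd : B.charpoly.natDegree = m := by
      rw [Matrix.charpoly_natDegree_eq_dim, Fintype.card_fin]
    rw [hs.eq_prod_roots, map_mul, Matrix.det_mul, res_mul hm]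
    congr 1
    · rw [aeval_C, resultant_C_right, natDegree_C, pow_zero, one_mul, hd,
        Matrix.algebraMap_eq_diagonal]
      simp
    · induction h.roots using Multiset.induction with
      | empty => simp
      | cons a t ih =>
        rw [Multiset.map_cons, Multiset.prod_cons, map_mul, Matrix.det_mul, res_mul hm, ih]
        congr 1
        have h1 := resultant_X_sub_C_right B.charpoly m a hd.le
        have h2 : resultant B.charpoly (X - C a) = (-1) ^ m * eval a B.charpoly := by
          rw [← h1, natDegree_X_sub_C, hd]
        rw [h2, eval_charpoly', map_sub, aeval_X, aeval_C]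
        have h3 : B - algebraMap L _ a = -(Matrix.scalar (Fin m) a - B) := by
          rw [neg_sub]; rfl
        rw [h3, Matrix.det_neg, Fintype.card_fin]
  have hK := key (A.map (algebraMap K (AlgebraicClosure K)))
    (g.map (algebraMap K (AlgebraicClosure K)))
    (IsAlgClosed.splits _)
  apply (algebraMap K (AlgebraicClosure K)).injective
  rw [RingHom.map_det]
  have h4 : (algebraMap K (AlgebraicClosure K)).mapMatrix (aeval A g) =
      aeval (A.map (algebraMap K (AlgebraicClosure K)))
        (g.map (algebraMap K (AlgebraicClosure K))) := by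
    rw [aeval_map_algebraMap]
    have := Polynomial.hom_eval₂ g (algebraMap K (Matrix (Fin m) (Fin m) K))
      (algebraMap K (AlgebraicClosure K)).mapMatrix A
    rw [aeval_def, this, aeval_def]
    congr 1
    ext a i j
    by_cases hij : i = j
    · subst hij
      simp [Matrix.algebraMap_matrix_apply]
    · simp [Matrix.algebraMap_matrix_apply, hij]
  rw [h4, hK, Matrix.charpoly_map]
  have h5 := resultant_map_map A.charpoly g A.charpoly.natDegree g.natDegree
    (algebraMap K (AlgebraicClosure K))
  rw [← h5, natDegree_map, natDegree_map]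

/-- The norm of `g (θ)` is the resultant of `f` and `g`. -/
theorem norm_mk {F : Type} [Field F] {f : F[X]} (hf : f.Monic) (g : F[X]) :
    Algebra.norm F (AdjoinRoot.mk f g) = resultant f g := by
  classical
  set pb := AdjoinRoot.powerBasis' hf with hpb
  set A := Algebra.leftMulMatrix pb.basis pb.gen with hA
  have hgen : pb.gen = AdjoinRoot.root f := rfl
  have h1 : Algebra.norm F (AdjoinRoot.mk f g) = (aeval A g).det := by
    rw [Algebra.norm_eq_matrix_det pb.basis, ← AdjoinRoot.aeval_eq, ← hgen, hA,
      ← Polynomial.aeval_algHom_apply]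
  have h2 : A.charpoly = f := by
    rw [hA, charpoly_leftMulMatrix, hpb]
    exact AdjoinRoot.minpoly_powerBasis_gen_of_monic hf
  rw [h1, det_aeval, h2]

/-- **The norm of a Mumford pair is a square.** -/
theorem norm_mumford {F : Type} [Field F] {f U V : F[X]} (hf : f.Monic)
    (hU : U.Monic) (h : U ∣ V ^ 2 - f) :
    Algebra.norm F ((-1) ^ U.natDegree * AdjoinRoot.mk f U) = resultant U V ^ 2 := by
  have e : ((-1) ^ U.natDegree * AdjoinRoot.mk f U : AdjoinRoot f) =
      AdjoinRoot.mk f (C ((-1) ^ U.natDegree) * U) := by
    rw [map_mul, map_pow, map_neg, map_one, map_pow, map_neg, map_one]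
  rw [e, norm_mk hf, res_C_mul _ _ hf, res_mumford hU h, ← mul_assoc, ← pow_mul, ← pow_add]
  have : Even (U.natDegree * f.natDegree + f.natDegree * U.natDegree) := by
    rw [mul_comm f.natDegree]; exact ⟨_, rfl⟩
  rw [this.neg_one_pow, one_mul]

end Pool.Agent.HYP
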