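import Pool.Agent.Lib.HYP.Def

/-!
Module F.Rank of MP_950c68_ag (genus g). Pure commutative algebra: if the adjugate of a matrix
vanishes modulo a maximal ideal `m` (the rank modulo `m` is at most `n - 2`), then the determinant is
in `m ^ 2`.

PROOF. Let `K = B ⧸ m`, a field (`Ideal.Quotient.field m`), `N̄ = N.map (Ideal.Quotient.mk m)`. By
`Matrix.Pivot.exists_list_transvec_mul_mul_list_transvec_eq_diagonal` there are lists `l`, `l'` of
transvections over `K` with `(l.map toMatrix).prod * N̄ * (l'.map toMatrix).prod = diagonal D`. Every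
transvection over `K` lifts to one over `B` (lift the coefficient, `Ideal.Quotient.mk_surjective`), of
determinant `1` (`Matrix.TransvectionStruct.det`); so there are matrices `P`, `Q` over `B` of
determinant `1` with `(P * N * Q).map mk = diagonal D`. Put `N' = P * N * Q`: `det N' = det N`, and
`adjugate N' = adjugate Q * adjugate N * adjugate P` (`Matrix.adjugate_mul_distrib`) has all entries in
`m`. So `adjugate (diagonal D) = 0` over `K`; its diagonal entries are `∏_{i ≠ j} D i`
(`Matrix.adjugate_diagonal`). As `n ≥ 1`, at least two of the `D i` are zero: the product over `i ≠ j`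
is `0` for some `j`, so some `D i₀ = 0`; the product over `i ≠ i₀` is `0`, so `D i₁ = 0`, `i₁ ≠ i₀`. So all
entries of the columns `i₀` and `i₁` of `N'` are in `m`, and in
`det N' = Σ_σ sign σ ∏_i N' (σ i) i` (`Matrix.det_apply`) every product contains the two factors
`N' (σ i₀) i₀`, `N' (σ i₁) i₁` in `m`, so it is in `m ^ 2 = m * m`.
-/

set_option autoImplicit false

namespace Pool.Agent.HYP

private theorem det_two_cols {B : Type} [CommRing B] (m : Ideal B) {n : ℕ}
    (M : Matrix (Fin n) (Fin n) B) {i0 i1 : Fin n} (hne : i1 ≠ i0) (h0 : ∀ i, M i i0 ∈ m)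
    (h1 : ∀ i, M i i1 ∈ m) : M.det ∈ m ^ 2 := by
  rw [Matrix.det_apply']
  refine Ideal.sum_mem _ fun σ _ => Ideal.mul_mem_left _ _ ?_
  rw [← Finset.mul_prod_erase Finset.univ _ (Finset.mem_univ i0),
    ← Finset.mul_prod_erase (Finset.univ.erase i0) _
      (Finset.mem_erase.2 ⟨hne, Finset.mem_univ i1⟩), ← mul_assoc, pow_two]
  exact Ideal.mul_mem_right _ _ (Ideal.mul_mem_mul (h0 _) (h1 _))

private theorem cancel_sq {B : Type} [CommRing B] (m : Ideal B) [hm : m.IsMaximal] {d x : B}
    (hd : d ∉ m) (h : d * x ∈ m ^ 2) : x ∈ m ^ 2 := by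
  obtain ⟨u, t, ht, hu⟩ := hm.exists_inv hd
  have h1 : x = t ^ 2 * x + (u * (1 + t)) * (d * x) := by
    have h2 : u * d = 1 - t := by linear_combination hu
    calc x = t ^ 2 * x + (1 - t) * (1 + t) * x := by ring
      _ = t ^ 2 * x + (u * d) * (1 + t) * x := by rw [h2]
      _ = _ := by ring
  rw [h1]
  exact Ideal.add_mem _ (Ideal.mul_mem_right _ _ (Ideal.pow_mem_pow ht 2))
    (Ideal.mul_mem_left _ _ h)

theorem det_mem_sq {B : Type} [CommRing B] (m : Ideal B) [m.IsMaximal] {n : ℕ} (hn : 1 ≤ n)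
    (N : Matrix (Fin n) (Fin n) B) (h : ∀ i j, N.adjugate i j ∈ m) : N.det ∈ m ^ 2 := by
  classical
  letI : Field (B ⧸ m) := Ideal.Quotient.field m
  set φ : B →+* B ⧸ m := Ideal.Quotient.mk m with hφ
  have hsurj : Function.Surjective φ := Ideal.Quotient.mk_surjective
  have hker : ∀ b, φ b = 0 ↔ b ∈ m := fun b => Ideal.Quotient.eq_zero_iff_mem
  obtain ⟨L, L', D, hD⟩ :=
    Matrix.Pivot.exists_list_transvec_mul_mul_list_transvec_eq_diagonal (φ.mapMatrix N)
  set P' := (L.map Matrix.TransvectionStruct.toMatrix).prod with hP'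
  set Q' := (L'.map Matrix.TransvectionStruct.toMatrix).prod with hQ'
  have hPdet : P'.det = 1 := Matrix.TransvectionStruct.det_toMatrix_prod L
  have hQdet : Q'.det = 1 := Matrix.TransvectionStruct.det_toMatrix_prod L'
  -- lifts
  obtain ⟨s, hs⟩ := hsurj.hasRightInverse
  have hlift : ∀ A : Matrix (Fin n) (Fin n) (B ⧸ m), φ.mapMatrix (A.map s) = A := by
    intro A
    ext i j
    exact hs _
  set P := P'.map s with hP
  set Q := Q'.map s with hQ
  have hPm : φ.mapMatrix P = P' := hlift P'
  have hQm : φ.mapMatrix Q = Q' := hlift Q'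
  have hPd : P.det ∉ m := by
    intro h1
    rw [← hker, RingHom.map_det, hPm, hPdet] at h1
    exact one_ne_zero h1
  have hQd : Q.det ∉ m := by
    intro h1
    rw [← hker, RingHom.map_det, hQm, hQdet] at h1
    exact one_ne_zero h1
  -- the adjugate of the diagonal matrix
  have hadj : (Matrix.diagonal D).adjugate = 0 := by
    have h1 : (φ.mapMatrix N).adjugate = 0 := by
      rw [← RingHom.map_adjugate]
      ext i j
      exact (hker _).2 (h i j)
    rw [← hD, Matrix.adjugate_mul_distrib, Matrix.adjugate_mul_distrib, h1, Matrix.zero_mul,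
      Matrix.mul_zero]
  rw [Matrix.adjugate_diagonal] at hadj
  have hprod : ∀ i, ∃ j, j ≠ i ∧ D j = 0 := by
    intro i
    have h1 := congrFun (congrFun hadj i) i
    rw [Matrix.diagonal_apply_eq, Matrix.zero_apply, Finset.prod_eq_zero_iff] at h1
    obtain ⟨j, hj, hj0⟩ := h1
    exact ⟨j, (Finset.mem_erase.1 hj).1, hj0⟩
  obtain ⟨i0, _, hi0⟩ := hprod ⟨0, by omega⟩
  obtain ⟨i1, hne, hi1⟩ := hprod i0
  have hcol : ∀ j, D j = 0 → ∀ i, (P * N * Q) i j ∈ m := by
    intro j hj i
    rw [← hker]
    have h1 : φ.mapMatrix (P * N * Q) = Matrix.diagonal D := by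
      rw [map_mul, map_mul, hPm, hQm, hD]
    have h2 := congrFun (congrFun h1 i) j
    rw [RingHom.mapMatrix_apply, Matrix.map_apply] at h2
    rw [h2]
    by_cases hij : i = j
    · rw [hij, Matrix.diagonal_apply_eq, hj]
    · rw [Matrix.diagonal_apply_ne _ hij]
  have hdet := det_two_cols m (P * N * Q) hne (hcol i0 hi0) (hcol i1 hi1)
  rw [Matrix.det_mul, Matrix.det_mul] at hdet
  refine cancel_sq m hPd (cancel_sq m hQd ?_)
  rw [show Q.det * (P.det * N.det) = P.det * N.det * Q.det by ring]
  exact hdet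

end Pool.Agent.HYP
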