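import Pool.Agent.Lib.HYP.Def2

/-!
Module F.UniA of MP_950c68_ag (genus g). A symmetric matrix with entries in the valuation ring and unit
determinant is diagonalisable with unit diagonal entries.

PROOF. Induction on `n`; `O = L.O`, `V = L.O.valuation`, `V 2 = 1` (`L.two`). `n = 0` is trivial. Let `n + 1`.
(1) There is a vector `x` with coordinates in `{0, 1}` and `V (Q x) = 1`, `Q x = x ⬝ᵥ G x`: if some
`V (G i i) = 1` take `e_i`. Otherwise all `V (G i i) < 1`, and some `V (G i j) = 1` (if all entries had value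
`< 1` so would the determinant: it is a sum of products with at least one factor, `Matrix.det_apply`,
ultrametric inequality), `i ≠ j`, and `Q (e_i + e_j) = G i i + 2 G i j + G j j` has value `1`.
(2) There is an invertible matrix `A` with entries in `O` and determinant of value `1` whose first
column is `x` (a permutation matrix times an elementary matrix: `x = e_i` or `e_i + e_j`; or: the matrix
whose first column is `x` and whose other columns are the `e_l`, `l ≠ i`, where `x i = 1`). Replace `G` by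
`Aᵀ G A`: now `V (G 0 0) = 1`.
(3) With `E` upper unitriangular, first row `1, - G 0 j / G 0 0`, otherwise the identity, `Eᵀ G E` is
block diagonal `a ⊕ G'`, `a = G 0 0`, `G' i j = G i j - G 0 i G 0 j / a` symmetric with entries in `O`, and
`det G = a det G'` (`Matrix.det_succ_row_zero` or block determinant), so `V (det G') = 1`. Apply the
induction hypothesis to `G'` and put the matrices together as a block matrix (`Fin.cases`, as `gblk` in
`BSDP/F/GL.lean`).
-/

set_option autoImplicit false

namespace Pool.Agent.HYP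

open Pool.Agent.BSDP

/-- the conclusion, in the form `G = Pᵀ D P` -/
private def UT {F Γ : Type} [Field F] [LinearOrderedCommGroupWithZero Γ] (V : Valuation F Γ)
    {ι : Type} [Fintype ι] [DecidableEq ι] (G : Matrix ι ι F) : Prop :=
  ∃ (P : Matrix ι ι F) (D : ι → F), P.det ≠ 0 ∧ (∀ i, V (D i) = 1) ∧
    G = P.transpose * Matrix.diagonal D * P

section

variable {F Γ : Type} [Field F] [LinearOrderedCommGroupWithZero Γ] {V : Valuation F Γ}
  {ι : Type} [Fintype ι] [DecidableEq ι]

private theorem ut_congr {G Q : Matrix ι ι F} (hQ : Q.det ≠ 0)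
    (h : UT V (Q.transpose * G * Q)) : UT V G := by
  obtain ⟨P, D, hP, hD, hG⟩ := h
  have hu : IsUnit Q.det := isUnit_iff_ne_zero.mpr hQ
  have h1 : Q⁻¹.transpose * Q.transpose = 1 := by
    rw [← Matrix.transpose_mul, Matrix.mul_nonsing_inv _ hu, Matrix.transpose_one]
  refine ⟨P * Q⁻¹, D, ?_, hD, ?_⟩
  · rw [Matrix.det_mul]
    refine mul_ne_zero hP ?_
    intro h0
    have h2 : (Q * Q⁻¹).det = 1 := by rw [Matrix.mul_nonsing_inv _ hu, Matrix.det_one]
    rw [Matrix.det_mul, h0, mul_zero] at h2
    exact zero_ne_one h2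
  · calc G = (Q⁻¹.transpose * Q.transpose) * G * (Q * Q⁻¹) := by
          rw [h1, Matrix.mul_nonsing_inv _ hu, Matrix.one_mul, Matrix.mul_one]
      _ = Q⁻¹.transpose * (Q.transpose * G * Q) * Q⁻¹ := by simp only [Matrix.mul_assoc]
      _ = _ := by
          rw [hG, Matrix.transpose_mul]
          simp only [Matrix.mul_assoc]

private theorem ut_reindex {κ : Type} [Fintype κ] [DecidableEq κ] (e : κ ≃ ι) {G : Matrix ι ι F}
    (h : UT V (G.submatrix e e)) : UT V G := by
  obtain ⟨P, D, hP, hD, hG⟩ := h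
  refine ⟨P.submatrix e.symm e.symm, D ∘ e.symm, ?_, fun i => hD _, ?_⟩
  · rwa [Matrix.det_submatrix_equiv_self]
  · have h1 : G = (G.submatrix e e).submatrix e.symm e.symm := by
      ext i j
      simp
    rw [h1, hG, ← Matrix.submatrix_mul_equiv _ _ e.symm e.symm e.symm,
      ← Matrix.submatrix_mul_equiv _ _ e.symm e.symm e.symm, Matrix.submatrix_diagonal_equiv,
      Matrix.transpose_submatrix]

private theorem ut_step {κ : Type} [Fintype κ] [DecidableEq κ]
    (ih : ∀ G : Matrix κ κ F, G.transpose = G → (∀ i j, V (G i j) ≤ 1) → V G.det = 1 → UT V G)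
    (M : Matrix (κ ⊕ Unit) (κ ⊕ Unit) F) (hs : M.transpose = M) (hi : ∀ i j, V (M i j) ≤ 1)
    (hd : V M.det = 1) (ha : V (M (Sum.inr ()) (Sum.inr ())) = 1) : UT V M := by
  obtain ⟨a, hadef⟩ : ∃ a, a = M (Sum.inr ()) (Sum.inr ()) := ⟨_, rfl⟩
  rw [← hadef] at ha
  have ha0 : a ≠ 0 := by
    intro h
    rw [h, map_zero] at ha
    exact zero_ne_one ha
  have hsym : ∀ i j, M i j = M j i := fun i j => by
    conv_lhs => rw [← hs]
    rfl
  obtain ⟨B, hB⟩ : ∃ B : Matrix κ Unit F, B = M.toBlocks₁₂ := ⟨_, rfl⟩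
  obtain ⟨S, hS⟩ : ∃ S : Matrix κ κ F, S = M.toBlocks₁₁ - a⁻¹ • (B * B.transpose) := ⟨_, rfl⟩
  obtain ⟨P0, hP0⟩ : ∃ P0 : Matrix (κ ⊕ Unit) (κ ⊕ Unit) F,
    P0 = Matrix.fromBlocks 1 0 (a⁻¹ • B.transpose) 1 := ⟨_, rfl⟩
  have hMb : M = Matrix.fromBlocks M.toBlocks₁₁ B B.transpose (a • (1 : Matrix Unit Unit F)) := by
    ext i j
    rcases i with i | i <;> rcases j with j | j
    · rfl
    · rw [hB]
      rfl
    · rw [hB, hsym]
      rfl
    · simp [hadef]
  have hM : M = P0.transpose * Matrix.fromBlocks S 0 0 (a • (1 : Matrix Unit Unit F)) * P0 := by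
    conv_lhs => rw [hMb]
    rw [hP0, Matrix.fromBlocks_transpose, Matrix.fromBlocks_multiply, Matrix.fromBlocks_multiply]
    simp only [Matrix.transpose_one, Matrix.transpose_zero, Matrix.transpose_smul,
      Matrix.transpose_transpose, Matrix.one_mul, Matrix.mul_zero, Matrix.zero_mul, Matrix.mul_one,
      add_zero, zero_add, Matrix.smul_mul, Matrix.mul_smul, smul_smul, mul_inv_cancel₀ ha0,
      inv_mul_cancel₀ ha0, one_smul]
    rw [hS, sub_add_cancel]
  have hdet0 : P0.det = 1 := by
    rw [hP0, Matrix.det_fromBlocks_zero₁₂]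
    simp
  have hdM : M.det = S.det * a := by
    rw [hM, Matrix.det_mul, Matrix.det_mul, Matrix.det_transpose, hdet0,
      Matrix.det_fromBlocks_zero₂₁]
    simp
  have hdS : V S.det = 1 := by
    rw [hdM, map_mul, ha, mul_one] at hd
    exact hd
  have hsS : S.transpose = S := by
    ext i j
    rw [Matrix.transpose_apply, hS]
    simp only [Matrix.sub_apply, Matrix.smul_apply, Matrix.mul_apply, Matrix.transpose_apply,
      Finset.univ_unique, Finset.sum_singleton, smul_eq_mul, Matrix.toBlocks₁₁, Matrix.of_apply]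
    rw [hsym (Sum.inl j) (Sum.inl i), mul_comm (B j _)]
  have hiS : ∀ i j, V (S i j) ≤ 1 := by
    intro i j
    rw [hS]
    simp only [Matrix.sub_apply, Matrix.smul_apply, Matrix.mul_apply, Matrix.transpose_apply,
      Finset.univ_unique, Finset.sum_singleton, smul_eq_mul, Matrix.toBlocks₁₁, Matrix.of_apply]
    refine V.map_sub_le (hi _ _) ?_
    rw [map_mul, map_mul, map_inv₀, ha, inv_one, one_mul, hB]
    exact mul_le_one' (hi _ _) (hi _ _)
  obtain ⟨P, D, hP, hD, hG⟩ := ih S hsS hiS hdS
  refine ⟨Matrix.fromBlocks P 0 0 1 * P0, Sum.elim D (fun _ => a), ?_, ?_, ?_⟩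
  · rw [Matrix.det_mul, hdet0, Matrix.det_fromBlocks_zero₂₁, Matrix.det_one, mul_one, mul_one]
    exact hP
  · rintro (i | i)
    · exact hD i
    · exact ha
  · have h1 : Matrix.fromBlocks S 0 0 (a • (1 : Matrix Unit Unit F)) =
        (Matrix.fromBlocks P 0 0 (1 : Matrix Unit Unit F)).transpose *
          Matrix.diagonal (Sum.elim D (fun _ => a)) * Matrix.fromBlocks P 0 0 1 := by
      rw [← Matrix.fromBlocks_diagonal, Matrix.fromBlocks_transpose, Matrix.fromBlocks_multiply,
        Matrix.fromBlocks_multiply, hG]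
      simp only [Matrix.transpose_one, Matrix.transpose_zero, Matrix.one_mul, Matrix.mul_zero,
        Matrix.zero_mul, Matrix.mul_one, add_zero, zero_add]
      congr 1
      rw [Matrix.smul_one_eq_diagonal]
    rw [Matrix.transpose_mul]
    conv_lhs => rw [hM, h1]
    simp only [Matrix.mul_assoc]

private theorem mul_le {A B : Matrix ι ι F} (hA : ∀ i j, V (A i j) ≤ 1)
    (hB : ∀ i j, V (B i j) ≤ 1) (i j : ι) : V ((A * B) i j) ≤ 1 := by
  rw [Matrix.mul_apply]
  refine V.map_sum_le fun k _ => ?_
  rw [map_mul]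
  exact mul_le_one' (hA i k) (hB k j)

private theorem usum {a b c : F} (h2 : V 2 = 1) (ha : V a < 1) (hb : V b = 1) (hc : V c < 1) :
    V (a + 2 * b + c) = 1 := by
  have h1 : V (2 * b) = 1 := by rw [map_mul, h2, hb, one_mul]
  have h3 : V (a + 2 * b) = 1 := by
    rw [V.map_add_eq_of_lt_right (by rw [h1]; exact ha), h1]
  rw [V.map_add_eq_of_lt_left (by rw [h3]; exact hc), h3]

private theorem trv_le (i j : ι) (a b : ι) : V (Matrix.transvection i j (1 : F) a b) ≤ 1 := by
  rw [Matrix.transvection, Matrix.add_apply]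
  refine V.map_add_le ?_ ?_
  · rw [Matrix.one_apply]
    split_ifs
    · rw [map_one]
    · rw [map_zero]
      exact zero_le'
  · rw [Matrix.single_apply]
    split_ifs
    · rw [map_one]
    · rw [map_zero]
      exact zero_le'

/-- if all the entries have value `< 1` so has the determinant -/
private theorem det_lt {n : ℕ} {G : Matrix (Fin (n + 1)) (Fin (n + 1)) F}
    (h : ∀ i j, V (G i j) < 1) : V G.det < 1 := by
  rw [Matrix.det_apply']
  refine V.map_sum_lt one_ne_zero fun σ _ => ?_
  rw [map_mul]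
  have h1 : V (((Equiv.Perm.sign σ : ℤˣ) : ℤ) : F) = 1 := by
    rcases Int.units_eq_one_or (Equiv.Perm.sign σ) with h1 | h1 <;> rw [h1] <;> simp
  rw [h1, one_mul, map_prod, Fin.prod_univ_succ]
  refine mul_lt_one_of_lt_of_le (h _ _) ?_
  exact Finset.prod_le_one' fun i _ => (h _ _).le

private theorem ut_all (h2 : V 2 = 1) (n : ℕ) : ∀ G : Matrix (Fin n) (Fin n) F,
    G.transpose = G → (∀ i j, V (G i j) ≤ 1) → V G.det = 1 → UT V G := by
  induction n with
  | zero =>
    intro G _ _ _
    refine ⟨1, fun i => i.elim0, by simp, fun i => i.elim0, ?_⟩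
    ext i
    exact i.elim0
  | succ n ih =>
    -- the case of a unit on the diagonal
    have key : ∀ G : Matrix (Fin (n + 1)) (Fin (n + 1)) F, G.transpose = G →
        (∀ i j, V (G i j) ≤ 1) → V G.det = 1 → (∃ i, V (G i i) = 1) → UT V G := by
      rintro G hs hi hd ⟨i, hii⟩
      obtain ⟨e0, -⟩ : ∃ e0 : Fin n ⊕ Unit ≃ Fin (n + 1), e0 = e0 :=
        ⟨((finSuccEquiv n).trans (Equiv.optionEquivSumPUnit _)).symm, rfl⟩
      obtain ⟨e, he⟩ : ∃ e : Fin n ⊕ Unit ≃ Fin (n + 1), e (Sum.inr ()) = i :=
        ⟨e0.trans (Equiv.swap (e0 (Sum.inr ())) i), by simp⟩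
      refine ut_reindex e (ut_step ih _ ?_ (fun a b => hi _ _) ?_ ?_)
      · rw [Matrix.transpose_submatrix, hs]
      · rwa [Matrix.det_submatrix_equiv_self]
      · rw [Matrix.submatrix_apply, he]
        exact hii
    intro G hs hi hd
    by_cases hdiag : ∃ i, V (G i i) = 1
    · exact key G hs hi hd hdiag
    push Not at hdiag
    have hdl : ∀ i, V (G i i) < 1 := fun i => lt_of_le_of_ne (hi i i) (hdiag i)
    have hsym : ∀ i j, G i j = G j i := fun i j => by
      conv_lhs => rw [← hs]
      rfl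
    obtain ⟨i, j, hij⟩ : ∃ i j, V (G i j) = 1 := by
      by_contra hcon
      push Not at hcon
      exact absurd hd (det_lt fun i j => lt_of_le_of_ne (hi i j) (hcon i j)).ne
    have hne : i ≠ j := by
      rintro rfl
      exact hdiag i hij
    have htr : (Matrix.transvection j i (1 : F)).transpose = Matrix.transvection i j 1 := by
      rw [Matrix.transvection, Matrix.transvection, Matrix.transpose_add, Matrix.transpose_one,
        Matrix.transpose_single]
    have hdt : (Matrix.transvection j i (1 : F)).det = 1 :=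
      Matrix.det_transvection_of_ne _ _ hne.symm _
    refine ut_congr (Q := Matrix.transvection j i (1 : F)) (by rw [hdt]; exact one_ne_zero) ?_
    refine key _ ?_ ?_ ?_ ⟨i, ?_⟩
    · rw [Matrix.transpose_mul, Matrix.transpose_mul, Matrix.transpose_transpose, hs,
        Matrix.mul_assoc]
    · rw [htr]
      exact mul_le (mul_le (trv_le i j) hi) (trv_le j i)
    · rw [Matrix.det_mul, Matrix.det_mul, Matrix.det_transpose, hdt, one_mul, mul_one]
      exact hd
    · rw [htr, Matrix.mul_transvection_apply_same, Matrix.transvection_mul_apply_same,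
        Matrix.transvection_mul_apply_same]
      have h3 : G i i + 1 * G j i + 1 * (G i j + 1 * G j j) = G i i + 2 * G i j + G j j := by
        rw [hsym j i]
        ring
      rw [h3]
      exact usum h2 (hdl i) hij (hdl j)

end

theorem exists_diag_unimodular {F : Type} [Field F] (L : Loc F) {n : ℕ}
    (G : Matrix (Fin n) (Fin n) F) (hs : G.transpose = G) (hi : ∀ i j, G i j ∈ L.O)
    (hd : L.O.valuation G.det = 1) :
    ∃ (P : Matrix (Fin n) (Fin n) F) (D : Fin n → F), P.det ≠ 0 ∧
      (∀ i, L.O.valuation (D i) = 1) ∧ P.transpose * G * P = Matrix.diagonal D := by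
  obtain ⟨P, D, hP, hD, hG⟩ := ut_all (V := L.O.valuation) L.two n G hs
    (fun i j => (ValuationSubring.valuation_le_one_iff _ _).mpr (hi i j)) hd
  have hu : IsUnit P.det := isUnit_iff_ne_zero.mpr hP
  have h1 : P⁻¹.transpose * P.transpose = 1 := by
    rw [← Matrix.transpose_mul, Matrix.mul_nonsing_inv _ hu, Matrix.transpose_one]
  refine ⟨P⁻¹, D, ?_, hD, ?_⟩
  · intro h0
    have h2 : (P * P⁻¹).det = 1 := by rw [Matrix.mul_nonsing_inv _ hu, Matrix.det_one]
    rw [Matrix.det_mul, h0, mul_zero] at h2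
    exact zero_ne_one h2
  · calc P⁻¹.transpose * G * P⁻¹ =
        (P⁻¹.transpose * P.transpose) * Matrix.diagonal D * (P * P⁻¹) := by
          rw [hG]
          simp only [Matrix.mul_assoc]
      _ = _ := by rw [h1, Matrix.mul_nonsing_inv _ hu, Matrix.one_mul, Matrix.mul_one]

end Pool.Agent.HYP
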