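import Pool.Agent.Lib.HYP.F.Dict
import Pool.Agent.Lib.HYP.L.Norm

/-!
Module F.UnrA of MP_950c68_ag (genus g). `O[θ]`, `h (θ) = 0`, with `h` irreducible over the residue field:
every element is a unit or divisible by `π`; every nonzero element of `F[θ]` is a power of `π` times a
unit of `O[θ]`.

PROOF. `κ` = residue field, `ρ : AdjoinRoot h → AdjoinRoot (h.map residue)`, `ρ = bc (residue) h`,
surjective (`bc_mk`, `Polynomial.map_surjective`), and its kernel is `π AdjoinRoot h`: if
`ρ (mk P) = 0` with `P.natDegree < d` (`exists_repr`), then `h̄ ∣ P̄`, `deg P̄ < deg h̄` so `P̄ = 0`, all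
coefficients of `P` are in the maximal ideal, multiples of `piO L` (`maximalIdeal_eq`), `P = C π * P'`.
`unit_or_dvd`: if `ρ x ≠ 0` then, `AdjoinRoot h̄` being a field, there is `y` with `ρ (x y) = 1`; then
`residue (norm (x y)) = norm (ρ (x y)) = 1` (`norm_bc`), so `norm (x y)` is a unit (local ring), so `x y` is a
unit (`isUnit_iff_norm`), so `x` is.
`exists_zpow_unit`: `x = mk P`, `P ∈ F[X]`, `P.natDegree < d`, `P ≠ 0` (`exists_repr` for `h.map _`). Let
`j : ℤ` be the minimum of the orders of the nonzero coefficients of `P` (`L.exists_zpow`), so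
`P = C (π ^ j) * (P'.map (algebraMap L.O F))` with `P' : L.O[X]` some of whose coefficients is a unit, so
`ρ (mk P') ≠ 0` and `mk P'` is a unit of `AdjoinRoot h` by `unit_or_dvd` (not divisible by `π`).
-/

set_option autoImplicit false

open Polynomial

namespace Pool.Agent.HYP

open Pool.Agent.BSDP

variable {F : Type} [Field F] (L : Loc F) {h : L.O[X]}

private theorem UnrA_ker (hm : h.Monic) (P : L.O[X]) (hP : P.natDegree < h.natDegree)
    (hx : bc (IsLocalRing.residue L.O) h (AdjoinRoot.mk h P) = 0) : C (piO L) ∣ P := by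
  rw [bc_mk, AdjoinRoot.mk_eq_zero] at hx
  have hd : (h.map (IsLocalRing.residue L.O)).natDegree = h.natDegree := hm.natDegree_map _
  have h0 : P.map (IsLocalRing.residue L.O) = 0 :=
    Polynomial.eq_zero_of_dvd_of_natDegree_lt hx (by
      rw [hd]
      exact (Polynomial.natDegree_map_le).trans_lt hP)
  rw [Polynomial.C_dvd_iff_dvd_coeff]
  intro i
  have h1 := congrArg (fun Q => Polynomial.coeff Q i) h0
  simp only [Polynomial.coeff_map, Polynomial.coeff_zero] at h1
  rw [IsLocalRing.residue_eq_zero_iff, maximalIdeal_eq, Ideal.mem_span_singleton] at h1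
  exact h1

theorem ker_residue (hm : h.Monic) (hd : 1 ≤ h.natDegree) (x : AdjoinRoot h)
    (hx : bc (IsLocalRing.residue L.O) h x = 0) : ∃ y : AdjoinRoot h, x = piO L • y := by
  obtain ⟨P, hP, rfl⟩ := exists_repr hm hd x
  obtain ⟨Q, hQ⟩ := UnrA_ker L hm P hP hx
  refine ⟨AdjoinRoot.mk h Q, ?_⟩
  rw [hQ, map_mul, AdjoinRoot.mk_C, Algebra.smul_def]
  rfl

private theorem UnrA_deg (hm : h.Monic) (hi : Irreducible (h.map (IsLocalRing.residue L.O))) :
    1 ≤ h.natDegree := by
  have hd : (h.map (IsLocalRing.residue L.O)).natDegree = h.natDegree := hm.natDegree_map _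
  rw [← hd]
  exact hi.natDegree_pos

private theorem UnrA_unit (hm : h.Monic) (hi : Irreducible (h.map (IsLocalRing.residue L.O)))
    (x : AdjoinRoot h) (hx : bc (IsLocalRing.residue L.O) h x ≠ 0) : IsUnit x := by
  have : Fact (Irreducible (h.map (IsLocalRing.residue L.O))) := ⟨hi⟩
  rw [isUnit_iff_norm hm]
  have h1 : IsUnit (bc (IsLocalRing.residue L.O) h x) := isUnit_iff_ne_zero.2 hx
  have h2 := h1.map (Algebra.norm (IsLocalRing.ResidueField L.O))
  rw [norm_bc hm] at h2
  exact isUnit_of_map_unit (IsLocalRing.residue L.O) _ h2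

theorem unit_or_dvd (hm : h.Monic) (hi : Irreducible (h.map (IsLocalRing.residue L.O)))
    (x : AdjoinRoot h) : IsUnit x ∨ ∃ y : AdjoinRoot h, x = piO L • y := by
  by_cases hx : bc (IsLocalRing.residue L.O) h x = 0
  · exact Or.inr (ker_residue L hm (UnrA_deg L hm hi) x hx)
  · exact Or.inl (UnrA_unit L hm hi x hx)

theorem exists_zpow_unit (hm : h.Monic) (hi : Irreducible (h.map (IsLocalRing.residue L.O)))
    (x : AdjoinRoot (h.map (algebraMap L.O F))) (hx : x ≠ 0) :
    ∃ (j : ℤ) (e : AdjoinRoot h), IsUnit e ∧ x = (L.pi ^ j) • bc (algebraMap L.O F) h e := by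
  have hinj : Function.Injective (algebraMap L.O F) := Subtype.val_injective
  have hd := UnrA_deg L hm hi
  have hd' : (h.map (algebraMap L.O F)).natDegree = h.natDegree := hm.natDegree_map _
  have : IsDiscreteValuationRing L.O := isDVR L
  obtain ⟨P, hP, rfl⟩ := exists_repr (hm.map (algebraMap L.O F)) (by rw [hd']; exact hd) x
  have hP0 : P ≠ 0 := by
    rintro rfl
    exact hx (map_zero _)
  obtain ⟨b, hb, hPb⟩ := IsLocalization.integerNormalization_spec (nonZeroDivisors L.O) P
  set Q := IsLocalization.integerNormalization (nonZeroDivisors L.O) P with hQ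
  have hb0 : b ≠ 0 := nonZeroDivisors.ne_zero hb
  have hbF : (b : F) ≠ 0 := fun hh => hb0 (Subtype.ext hh)
  have hPb' : Q.map (algebraMap L.O F) = C (b : F) * P := by
    rw [hPb, ← Polynomial.smul_eq_C_mul]
    rfl
  have hQ0 : Q ≠ 0 := by
    intro h0
    rw [h0, Polynomial.map_zero] at hPb'
    exact mul_ne_zero (Polynomial.C_ne_zero.2 hbF) hP0 hPb'.symm
  have hQd : Q.natDegree < h.natDegree := by
    have h1 : (Q.map (algebraMap L.O F)).natDegree = Q.natDegree :=
      Polynomial.natDegree_map_eq_of_injective hinj Q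
    rw [← h1, hPb', ← hd']
    exact (Polynomial.natDegree_C_mul_le _ _).trans_lt hP
  have hirr := irreducible_piO L
  have hCu : ¬ IsUnit (C (piO L) : L.O[X]) := fun hh => hirr.not_isUnit (Polynomial.isUnit_C.1 hh)
  obtain ⟨Q', hQ', hnd⟩ := (FiniteMultiplicity.of_not_isUnit hCu hQ0).exists_eq_pow_mul_and_not_dvd
  set n := multiplicity (C (piO L)) Q with hn
  have hC0 : (C (piO L) ^ n : L.O[X]) ≠ 0 := pow_ne_zero _ (Polynomial.C_ne_zero.2 hirr.ne_zero)
  have hQ'0 : Q' ≠ 0 := by
    rintro rfl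
    exact hnd (dvd_zero _)
  have hQ'd : Q'.natDegree < h.natDegree := by
    have h1 : Q.natDegree = (C (piO L) ^ n : L.O[X]).natDegree + Q'.natDegree := by
      conv_lhs => rw [hQ']
      exact Polynomial.natDegree_mul hC0 hQ'0
    omega
  have hunit : IsUnit (AdjoinRoot.mk h Q') := by
    apply UnrA_unit L hm hi
    intro h0
    exact hnd (UnrA_ker L hm Q' hQ'd h0)
  obtain ⟨m, u, hu, hbu⟩ := L.exists_zpow (b : F) hbF
  have hu0 : u ≠ 0 := by
    rintro rfl
    rw [map_zero] at hu
    exact zero_ne_one hu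
  have huinv : L.O.valuation u⁻¹ = 1 := by rw [map_inv₀, hu, inv_one]
  have huO : u⁻¹ ∈ L.O := (ValuationSubring.valuation_le_one_iff L.O _).1 huinv.le
  have hw : IsUnit (⟨u⁻¹, huO⟩ : L.O) := (ValuationSubring.valuation_eq_one_iff L.O _).2 huinv
  refine ⟨(n : ℤ) - m, (⟨u⁻¹, huO⟩ : L.O) • AdjoinRoot.mk h Q', ?_, ?_⟩
  · rw [Algebra.smul_def]
    exact (hw.map (algebraMap L.O (AdjoinRoot h))).mul hunit
  · rw [bc_smul, smul_smul]
    have e1 : bc (algebraMap L.O F) h (AdjoinRoot.mk h Q) =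
        (L.pi ^ n) • bc (algebraMap L.O F) h (AdjoinRoot.mk h Q') := by
      have h1 : AdjoinRoot.mk h Q = (piO L ^ n) • AdjoinRoot.mk h Q' := by
        conv_lhs => rw [hQ']
        rw [map_mul, Algebra.smul_def, ← map_pow, AdjoinRoot.mk_C]
        rfl
      rw [h1, bc_smul, map_pow]
      rfl
    have e2 : bc (algebraMap L.O F) h (AdjoinRoot.mk h Q) =
        (b : F) • AdjoinRoot.mk (h.map (algebraMap L.O F)) P := by
      rw [bc_mk, hPb', map_mul, AdjoinRoot.mk_C, Algebra.smul_def]
      rfl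
    have e3 : AdjoinRoot.mk (h.map (algebraMap L.O F)) P =
        (b : F)⁻¹ • ((L.pi ^ n) • bc (algebraMap L.O F) h (AdjoinRoot.mk h Q')) := by
      rw [← e1, e2, smul_smul, inv_mul_cancel₀ hbF, one_smul]
    rw [e3, smul_smul]
    congr 1
    change (b : F)⁻¹ * L.pi ^ n = L.pi ^ ((n : ℤ) - m) * u⁻¹
    rw [hbu, zpow_sub₀ L.pi_ne, zpow_natCast, mul_inv]
    field_simp

end Pool.Agent.HYP
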